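import Mathlib

set_option autoImplicit false

/-! # Holomorphy of parametric integrals (from the starting library, `Y185.SR.Ereg`) -/

namespace Pool.Agent.KS6_81.HP

open Finset Filter Topology MeasureTheory

/-- holomorphy of parametric integrals of holomorphic functions, dominated version -/
theorem diffOn_int {Ω : Type*} [MeasurableSpace Ω] {U : Set ℂ} (hU : IsOpen U) (μ : Measure Ω) (F : ℂ → Ω → ℂ)
    (B : Ω → ℝ) (hB : Integrable B μ) (hm : ∀ l ∈ U, AEStronglyMeasurable (F l) μ)
    (hd : ∀ᵐ t ∂μ, DifferentiableOn ℂ (fun l => F l t) U)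
    (hb : ∀ᵐ t ∂μ, ∀ l ∈ U, ‖F l t‖ ≤ B t) :
    DifferentiableOn ℂ (fun l => ∫ t, F l t ∂μ) U := by
  intro l₀ hl₀
  obtain ⟨ρ, hρ, hball⟩ := Metric.isOpen_iff.mp hU l₀ hl₀
  set r : ℝ := ρ / 3 with hr
  have hr0 : 0 < r := by positivity
  have hsub : ∀ l ∈ Metric.ball l₀ r, Metric.closedBall l r ⊆ U := by
    intro l hl z hz
    apply hball
    rw [Metric.mem_ball] at hl ⊢
    rw [Metric.mem_closedBall] at hz
    have := dist_triangle z l l₀
    linarith
  have hballU : Metric.ball l₀ r ⊆ U := fun l hl =>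
    hsub l hl (Metric.mem_closedBall_self hr0.le)
  have hderiv : ∀ᵐ t ∂μ, ∀ l ∈ Metric.ball l₀ r,
      HasDerivAt (fun l => F l t) (deriv (fun l => F l t) l) l := by
    filter_upwards [hd] with t ht l hl
    exact ((ht l (hballU hl)).differentiableAt (hU.mem_nhds (hballU hl))).hasDerivAt
  have hbound : ∀ᵐ t ∂μ, ∀ l ∈ Metric.ball l₀ r, ‖deriv (fun l => F l t) l‖ ≤ B t / r := by
    filter_upwards [hd, hb] with t ht hbt l hl
    apply Complex.norm_deriv_le_of_forall_mem_sphere_norm_le hr0
    · have h1 : DifferentiableOn ℂ (fun l => F l t) (Metric.closedBall l r) :=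
        ht.mono (hsub l hl)
      exact h1.diffContOnCl_ball le_rfl
    · intro z hz
      exact hbt z (hsub l hl (Metric.sphere_subset_closedBall hz))
  have hl₀b : l₀ ∈ Metric.ball l₀ r := Metric.mem_ball_self hr0
  have hmeas : AEStronglyMeasurable (fun t => deriv (fun l => F l t) l₀) μ := by
    set h : ℕ → ℂ := fun n => ((r / ((n : ℝ) + 2) : ℝ) : ℂ) with hh
    have hpos : ∀ n : ℕ, 0 < r / ((n : ℝ) + 2) := fun n => by positivity
    have hh0 : ∀ n, h n ≠ 0 := fun n => by
      have := (hpos n).ne'
      simp only [hh]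
      exact_mod_cast this
    have hhU : ∀ n, l₀ + h n ∈ U := fun n => by
      apply hballU
      rw [Metric.mem_ball, dist_eq_norm, add_sub_cancel_left, hh]
      simp only
      rw [Complex.norm_real, Real.norm_eq_abs, abs_of_pos (hpos n), div_lt_iff₀ (by positivity)]
      have : (0 : ℝ) ≤ n := Nat.cast_nonneg _
      nlinarith
    have htend : Tendsto h atTop (𝓝[≠] 0) := by
      apply tendsto_nhdsWithin_of_tendsto_nhds_of_eventually_within
      · have h1 : Tendsto (fun n : ℕ => r / ((n : ℝ) + 2)) atTop (𝓝 0) := by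
          apply Tendsto.div_atTop tendsto_const_nhds
          exact tendsto_atTop_add_const_right _ _ tendsto_natCast_atTop_atTop
        have h2 := (Complex.continuous_ofReal.tendsto 0).comp h1
        rw [Complex.ofReal_zero] at h2
        exact h2
      · exact Eventually.of_forall hh0
    apply aestronglyMeasurable_of_tendsto_ae atTop
      (f := fun n t => (h n)⁻¹ • (F (l₀ + h n) t - F l₀ t))
    · intro n
      show AEStronglyMeasurable ((h n)⁻¹ • (F (l₀ + h n) - F l₀)) μ
      exact ((hm _ (hhU n)).sub (hm _ hl₀)).const_smul _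
    · filter_upwards [hderiv] with t ht
      have h1 := hasDerivAt_iff_tendsto_slope_zero.mp (ht l₀ hl₀b)
      exact h1.comp htend
  have hFint : Integrable (F l₀) μ := by
    apply Integrable.mono' hB (hm l₀ hl₀)
    filter_upwards [hb] with t ht
    exact ht l₀ hl₀
  have hFm : ∀ᶠ l in 𝓝 l₀, AEStronglyMeasurable (F l) μ := by
    filter_upwards [hU.mem_nhds hl₀] with l hl
    exact hm l hl
  have key := hasDerivAt_integral_of_dominated_loc_of_deriv_le (μ := μ) (F := F)
    (F' := fun l t => deriv (fun l => F l t) l) (bound := fun t => B t / r)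
    (Metric.ball_mem_nhds l₀ hr0) hFm hFint hmeas hbound (hB.div_const r) hderiv
  exact key.2.differentiableAt.differentiableWithinAt

end Pool.Agent.KS6_81.HP
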