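import Pool.Agent.KS6_81.HP.Root

set_option autoImplicit false

/-! # Forms with a point of high multiplicity -/

namespace Pool.Agent.KS6_81.HP

open Set Filter Topology Metric MeasureTheory
open scoped ContDiff Pointwise
open Pool.Agent.H628R4.TP (weylS IsBFunction)

/-- the linear form as a polynomial -/
noncomputable def lform (p : Fin 2 → ℂ) : MvPolynomial (Fin 2) ℂ :=
  MvPolynomial.C (p 0) * MvPolynomial.X 0 + MvPolynomial.C (p 1) * MvPolynomial.X 1

/-- `∑_j x₀^(k-j) A_j(x₁, x₂)` -/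
noncomputable def hform (k : ℕ) (A : ℕ → MvPolynomial (Fin 2) ℂ) : MvPolynomial (Fin 3) ℂ :=
  ∑ j ∈ Finset.range (k + 1), MvPolynomial.X 0 ^ (k - j) * MvPolynomial.rename Fin.succ (A j)

lemma eval_lform (p t : Fin 2 → ℂ) : MvPolynomial.eval t (lform p) = lf p t := by
  unfold lform lf
  simp

lemma ff_hform (k : ℕ) (A : ℕ → MvPolynomial (Fin 2) ℂ) (x : ℂ) (t : EE) :
    ff (hform k A) (x, t) =
      ∑ j ∈ Finset.range (k + 1), x ^ (k - j) * MvPolynomial.eval t (A j) := by
  unfold ff hform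
  rw [map_sum]
  refine Finset.sum_congr rfl fun j _ => ?_
  rw [map_mul, map_pow, MvPolynomial.eval_X, MvPolynomial.eval_rename]
  rfl

/-- the roots of a polynomial, with the estimate of Fujiwara -/
lemma roots_bd {k : ℕ} (a : ℕ → ℂ) (h0 : a 0 ≠ 0) : ∃ r : Fin k → ℂ,
    (∀ x, ∑ j ∈ Finset.range (k + 1), x ^ (k - j) * a j = a 0 * ∏ i, (x - r i)) ∧
    ∀ i, ‖r i‖ ≤ 2 * ∑ j ∈ Finset.Icc 1 k, (‖a j‖ / ‖a 0‖) ^ (1 / j : ℝ) := by
  classical
  set P : Polynomial ℂ := ∑ j ∈ Finset.range (k + 1), Polynomial.C (a j) * Polynomial.X ^ (k - j)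
    with hP
  have hev : ∀ x, P.eval x = ∑ j ∈ Finset.range (k + 1), x ^ (k - j) * a j := by
    intro x
    rw [hP, Polynomial.eval_finsetSum]
    refine Finset.sum_congr rfl fun j _ => ?_
    rw [Polynomial.eval_mul, Polynomial.eval_C, Polynomial.eval_pow, Polynomial.eval_X, mul_comm]
  have hdeg : P.natDegree ≤ k := by
    rw [hP]
    refine Polynomial.natDegree_sum_le_of_forall_le _ _ fun j _ => ?_
    exact (Polynomial.natDegree_C_mul_X_pow_le _ _).trans (Nat.sub_le _ _)
  have hco : P.coeff k = a 0 := by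
    rw [hP, Polynomial.finsetSum_coeff, Finset.sum_eq_single 0]
    · rw [Polynomial.coeff_C_mul, Nat.sub_zero, Polynomial.coeff_X_pow, if_pos rfl, mul_one]
    · intro j hj hj0
      rw [Polynomial.coeff_C_mul, Polynomial.coeff_X_pow, if_neg, mul_zero]
      have := Finset.mem_range.1 hj
      omega
    · intro h
      exact absurd (Finset.mem_range.2 (Nat.succ_pos _)) h
  have hnd : P.natDegree = k := by
    refine le_antisymm hdeg (Polynomial.le_natDegree_of_ne_zero ?_)
    rw [hco]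
    exact h0
  have hP0 : P ≠ 0 := by
    intro h
    rw [h, Polynomial.coeff_zero] at hco
    exact h0 hco.symm
  have hlc : P.leadingCoeff = a 0 := by
    rw [Polynomial.leadingCoeff, hnd, hco]
  have hsp := IsAlgClosed.splits P
  have hcard : P.roots.card = k := by
    rw [← hnd]
    exact hsp.natDegree_eq_card_roots.symm
  set L : List ℂ := P.roots.toList with hL
  have hLl : L.length = k := by rw [hL, Multiset.length_toList, hcard]
  refine ⟨fun i => L.get (i.cast hLl.symm), fun x => ?_, fun i => ?_⟩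
  · rw [← hev x]
    have h1 := hsp.eq_prod_roots
    conv_lhs => rw [h1]
    rw [Polynomial.eval_mul, Polynomial.eval_C, hlc, Polynomial.eval_multiset_prod]
    congr 1
    have h2 : (Multiset.map (fun a => Polynomial.X - Polynomial.C a) P.roots) =
        ((L.map fun a => Polynomial.X - Polynomial.C a : List (Polynomial ℂ)) : Multiset _) := by
      rw [← Multiset.map_coe, hL, Multiset.coe_toList]
    rw [h2, Multiset.map_coe, Multiset.prod_coe, List.map_map]
    have h3 : (L.map ((Polynomial.eval x) ∘ fun a => Polynomial.X - Polynomial.C a)) =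
        L.map (fun a => x - a) := by
      refine List.map_congr_left fun a _ => ?_
      simp
    rw [h3]
    have h4 : L = List.ofFn (fun i : Fin k => L.get (i.cast hLl.symm)) := by
      refine List.ext_get (by rw [List.length_ofFn, hLl]) fun n h1 h2 => ?_
      simp
    conv_lhs => rw [h4]
    rw [List.map_ofFn, List.prod_ofFn]
    rfl
  · -- the estimate
    set r : ℂ := L.get (i.cast hLl.symm) with hr
    have hk1 : 1 ≤ k := by
      have := i.2
      omega
    have hroot : P.eval r = 0 := by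
      have h1 : r ∈ P.roots := by
        rw [← Multiset.mem_toList, ← hL, hr]
        exact List.get_mem _ _
      exact (Polynomial.mem_roots hP0).1 h1
    rw [hev, Finset.sum_range_succ', Nat.sub_zero] at hroot
    set S : ℝ := ∑ j ∈ Finset.Icc 1 k, (‖a j‖ / ‖a 0‖) ^ (1 / j : ℝ) with hS
    have ha0 : 0 < ‖a 0‖ := norm_pos_iff.2 h0
    have hS0 : 0 ≤ S := Finset.sum_nonneg fun j _ => by positivity
    by_contra hcon
    push Not at hcon
    have hrp : 0 < ‖r‖ := lt_of_le_of_lt (by positivity) hcon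
    have hterm : ∀ j ∈ Finset.range k, ‖r ^ (k - (j + 1)) * a (j + 1)‖ ≤
        ‖a 0‖ * ‖r‖ ^ k * (1 / 2) ^ (j + 1) := by
      intro j hj
      have hjk := Finset.mem_range.1 hj
      have h1 : (‖a (j + 1)‖ / ‖a 0‖) ^ (1 / ((j + 1 : ℕ) : ℝ)) ≤ S := by
        rw [hS]
        exact Finset.single_le_sum (f := fun j : ℕ => (‖a j‖ / ‖a 0‖) ^ (1 / j : ℝ))
          (fun j _ => by positivity) (Finset.mem_Icc.2 ⟨by omega, by omega⟩)
      have h2 : ‖a (j + 1)‖ / ‖a 0‖ ≤ (‖r‖ / 2) ^ (j + 1) := by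
        have h3 : ‖a (j + 1)‖ / ‖a 0‖ =
            ((‖a (j + 1)‖ / ‖a 0‖) ^ (1 / ((j + 1 : ℕ) : ℝ))) ^ (j + 1) := by
          rw [← Real.rpow_natCast, ← Real.rpow_mul (by positivity), one_div,
            inv_mul_cancel₀ (by positivity), Real.rpow_one]
        rw [h3]
        refine pow_le_pow_left₀ (by positivity) ?_ _
        linarith
      rw [div_le_iff₀ ha0] at h2
      rw [norm_mul, norm_pow]
      calc ‖r‖ ^ (k - (j + 1)) * ‖a (j + 1)‖ ≤
          ‖r‖ ^ (k - (j + 1)) * ((‖r‖ / 2) ^ (j + 1) * ‖a 0‖) :=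
            mul_le_mul_of_nonneg_left h2 (by positivity)
        _ = ‖a 0‖ * (‖r‖ ^ (k - (j + 1)) * ‖r‖ ^ (j + 1)) * (1 / 2) ^ (j + 1) := by
          rw [div_pow, div_pow]
          ring
        _ = _ := by
          rw [← pow_add]
          congr 3
          omega
    have hgeo : ∀ n : ℕ, ∑ j ∈ Finset.range n, (1 / 2 : ℝ) ^ (j + 1) = 1 - (1 / 2) ^ n := by
      intro n
      induction n with
      | zero => simp
      | succ n ih =>
        rw [Finset.sum_range_succ, ih, pow_succ]
        ring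
    have h5 : ‖r ^ k * a 0‖ ≤ ‖a 0‖ * ‖r‖ ^ k * (1 - (1 / 2) ^ k) := by
      have h6 : r ^ k * a 0 = -∑ j ∈ Finset.range k, r ^ (k - (j + 1)) * a (j + 1) := by
        rw [eq_neg_iff_add_eq_zero, add_comm]
        exact hroot
      rw [h6, norm_neg]
      refine (norm_sum_le _ _).trans ((Finset.sum_le_sum hterm).trans ?_)
      rw [← Finset.mul_sum, hgeo]
    rw [norm_mul, norm_pow] at h5
    have h7 : 0 < ‖a 0‖ * ‖r‖ ^ k * (1 / 2) ^ k := by positivity
    nlinarith

/-- powers of sums -/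
lemma sum_pow_le {ι : Type} (S : Finset ι) (hS : S.Nonempty) (y : ι → ℝ) (hy : ∀ j, 0 ≤ y j)
    {q : ℝ} (hq : 0 ≤ q) : (∑ j ∈ S, y j) ^ q ≤ (S.card : ℝ) ^ q * ∑ j ∈ S, y j ^ q := by
  obtain ⟨j0, hj0, hmax⟩ := Finset.exists_max_image S y hS
  have h1 : ∑ j ∈ S, y j ≤ S.card * y j0 := by
    have := Finset.sum_le_card_nsmul S y (y j0) hmax
    rwa [nsmul_eq_mul] at this
  have h2 : y j0 ^ q ≤ ∑ j ∈ S, y j ^ q :=
    Finset.single_le_sum (f := fun j => y j ^ q) (fun j _ => Real.rpow_nonneg (hy j) _) hj0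
  calc (∑ j ∈ S, y j) ^ q ≤ (S.card * y j0) ^ q :=
        Real.rpow_le_rpow (Finset.sum_nonneg fun j _ => hy j) h1 hq
    _ = (S.card : ℝ) ^ q * y j0 ^ q := Real.mul_rpow (by positivity) (hy j0)
    _ ≤ _ := mul_le_mul_of_nonneg_left h2 (by positivity)

lemma hom_deg {σ : Type} {p : MvPolynomial σ ℂ} {n : ℕ} (hp : p.IsHomogeneous n) {m : σ →₀ ℕ}
    (hm : p.coeff m ≠ 0) : m.degree = n := by
  rw [Finsupp.degree_eq_weight_one]
  exact hp hm

/-- evaluation of a homogeneous polynomial -/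
lemma eval_smul_hom {σ : Type} [Fintype σ] {p : MvPolynomial σ ℂ} {n : ℕ} (hp : p.IsHomogeneous n)
    (l : ℂ) (t : σ → ℂ) : MvPolynomial.eval (l • t) p = l ^ n * MvPolynomial.eval t p := by
  rw [MvPolynomial.eval_eq', MvPolynomial.eval_eq', Finset.mul_sum]
  refine Finset.sum_congr rfl fun m hm => ?_
  have h1 : m.degree = n := hom_deg hp (MvPolynomial.mem_support_iff.1 hm)
  have h2 : ∏ i, (l • t) i ^ m i = l ^ n * ∏ i, t i ^ m i := by
    simp only [Pi.smul_apply, smul_eq_mul, mul_pow]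
    rw [Finset.prod_mul_distrib, Finset.prod_pow_eq_pow_sum]
    congr 2
    rw [← h1, Finsupp.degree_eq_sum]
  rw [h2]
  ring

/-- a homogeneous polynomial is bounded by a power of the norm -/
lemma hom_bd {p : MvPolynomial (Fin 2) ℂ} {n : ℕ} (hp : p.IsHomogeneous n) : ∃ C : ℝ, 0 ≤ C ∧
    ∀ t : EE, ‖MvPolynomial.eval t p‖ ≤ C * ‖t‖ ^ n := by
  refine ⟨∑ m ∈ p.support, ‖p.coeff m‖, Finset.sum_nonneg fun _ _ => norm_nonneg _, fun t => ?_⟩
  rw [MvPolynomial.eval_eq', Finset.sum_mul]
  refine (norm_sum_le _ _).trans (Finset.sum_le_sum fun m hm => ?_)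
  rw [norm_mul, norm_prod]
  refine mul_le_mul_of_nonneg_left ?_ (norm_nonneg _)
  have h1 : m.degree = n := hom_deg hp (MvPolynomial.mem_support_iff.1 hm)
  calc ∏ i, ‖t i ^ m i‖ ≤ ∏ i, ‖t‖ ^ m i := by
        refine Finset.prod_le_prod (fun _ _ => norm_nonneg _) fun i _ => ?_
        rw [norm_pow]
        exact pow_le_pow_left₀ (norm_nonneg _) (norm_le_pi_norm t i) _
    _ = ‖t‖ ^ n := by
      rw [Finset.prod_pow_eq_pow_sum, ← h1, Finsupp.degree_eq_sum]

/-- the cofactor of a homogeneous polynomial -/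
lemma hom_cof {P Q : MvPolynomial (Fin 2) ℂ} {u D : ℕ} (hP : P.IsHomogeneous u)
    (hQ : Q.IsHomogeneous D) (hQ0 : Q ≠ 0) (h : P ∣ Q) :
    u ≤ D ∧ ∃ B : MvPolynomial (Fin 2) ℂ, B.IsHomogeneous (D - u) ∧ Q = P * B := by
  obtain ⟨B, hB⟩ := h
  have h1 : MvPolynomial.homogeneousComponent D Q = Q :=
    MvPolynomial.homogeneousComponent_eq_self hQ
  have h2 : MvPolynomial.homogeneousComponent D Q =
      ∑ i ∈ Finset.range (B.totalDegree + 1),
        if u + i = D then P * MvPolynomial.homogeneousComponent i B else 0 := by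
    rw [hB]
    conv_lhs => rw [← MvPolynomial.sum_homogeneousComponent B]
    rw [Finset.mul_sum, map_sum]
    refine Finset.sum_congr rfl fun i _ => ?_
    rw [MvPolynomial.homogeneousComponent_of_mem
      (hP.mul (MvPolynomial.homogeneousComponent_isHomogeneous i B))]
    by_cases hi : u + i = D
    · rw [if_pos hi, if_pos hi.symm]
    · rw [if_neg hi, if_neg (fun h => hi h.symm)]
  have huD : u ≤ D := by
    by_contra hcon
    have h3 : MvPolynomial.homogeneousComponent D Q = 0 := by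
      rw [h2]
      refine Finset.sum_eq_zero fun i _ => if_neg ?_
      omega
    exact hQ0 (h1.symm.trans h3)
  refine ⟨huD, MvPolynomial.homogeneousComponent (D - u) B,
    MvPolynomial.homogeneousComponent_isHomogeneous _ _, ?_⟩
  rw [← h1, h2]
  by_cases hmem : D - u ∈ Finset.range (B.totalDegree + 1)
  · rw [Finset.sum_eq_single_of_mem _ hmem, if_pos (by omega)]
    intro i _ hi
    rw [if_neg]
    omega
  · have h3 : MvPolynomial.homogeneousComponent (D - u) B = 0 :=
      MvPolynomial.homogeneousComponent_eq_zero _ _ (by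
        rw [Finset.mem_range, not_lt] at hmem
        omega)
    rw [h3, mul_zero]
    refine Finset.sum_eq_zero fun i hi => if_neg ?_
    intro h4
    apply hmem
    have : D - u = i := by omega
    rw [this]
    exact hi

end Pool.Agent.KS6_81.HP
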