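import Pool.Agent.KS6_81.HP.Two
import Pool.Agent.KS6_81.HP.Hol

set_option autoImplicit false

/-! # The regularized integral is holomorphic -/

namespace Pool.Agent.KS6_81.HP

open Set Filter Topology Metric MeasureTheory
open scoped ContDiff
open Pool.Agent.H628R4.TP (weylS IsBFunction)

/-- the analytic data at a point of high multiplicity -/
structure Heavy (k d : ℕ) (f : MvPolynomial (Fin 3) ℂ) (A : EE → ℂ) (Y : EE → ℝ) : Prop where
  hk : 0 < k
  hd : 3 * k < d
  cA : Continuous A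
  mY : Measurable Y
  root : ∀ t, A t ≠ 0 → ∃ r : Fin k → ℂ,
    (∀ x, ff f (x, t) = A t * ∏ i, (x - r i)) ∧ ∀ i, ‖r i‖ ≤ Y t
  ae : ∀ᵐ t, A t ≠ 0
  I1 : ∀ s : ℝ, -(1 / d) < s → s < 0 → LI fun t => ‖A t‖ ^ (2 * s)
  I2 : ∀ s : ℝ, -(3 / d) < s → s < 0 → LI fun t => ‖A t‖ ^ (2 * s) * Y t ^ (2 - 6 * k / d : ℝ)

variable {k d : ℕ} {f : MvPolynomial (Fin 3) ℂ} {A : EE → ℂ} {Y : EE → ℝ}

/-- the inner integral -/
noncomputable def inn (f : MvPolynomial (Fin 3) ℂ) (k : ℕ) (c : ℂ) (t : EE) : ℂ :=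
  ∫ x, ((‖ff f (x, t)‖ : ℝ) : ℂ) ^ (2 * c) * th k c x

lemma inn_eq {t : EE} {r : Fin k → ℂ} (hr : ∀ x, ff f (x, t) = A t * ∏ i, (x - r i)) (c : ℂ) :
    inn f k c t = ((‖A t‖ : ℝ) : ℂ) ^ (2 * c) * Ic r c := by
  unfold inn Ic
  rw [← integral_const_mul]
  refine integral_congr_ae (Eventually.of_forall fun x => ?_)
  simp only
  have h1 : ‖ff f (x, t)‖ = ‖A t‖ * ∏ i, ‖x - r i‖ := by
    rw [hr, norm_mul, norm_prod]
  rw [h1, Complex.ofReal_mul, Complex.mul_cpow_ofReal_nonneg (norm_nonneg _)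
    (Finset.prod_nonneg fun i _ => norm_nonneg _)]
  ring

/-- the strip -/
def UU (σ : ℝ) : Set ℂ := {c | σ < c.re ∧ c.re < 0 ∧ ‖c‖ < 1}

lemma UU_open (σ : ℝ) : IsOpen (UU σ) := by
  unfold UU
  refine (isOpen_lt continuous_const Complex.continuous_re).inter ?_
  exact (isOpen_lt Complex.continuous_re continuous_const).inter
    (isOpen_lt continuous_norm continuous_const)

lemma meas_F (f : MvPolynomial (Fin 3) ℂ) (k : ℕ) (c : ℂ) :
    Measurable fun z : ℂ × EE => ((‖ff f z‖ : ℝ) : ℂ) ^ (2 * c) * th k c z.1 :=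
  ((Complex.measurable_ofReal.comp (ff_cont f).measurable.norm).pow_const _).mul
    ((th_meas k c).comp measurable_fst)

lemma inn_meas (f : MvPolynomial (Fin 3) ℂ) (k : ℕ) (c : ℂ) :
    StronglyMeasurable (inn f k c) := by
  unfold inn
  have h1 : StronglyMeasurable fun p : EE × ℂ =>
      ((‖ff f (p.2, p.1)‖ : ℝ) : ℂ) ^ (2 * c) * th k c p.2 :=
    ((meas_F f k c).comp measurable_swap).stronglyMeasurable
  exact h1.integral_prod_right

lemma cpow_diff (y : ℝ) {U : Set ℂ} (hU : ∀ c ∈ U, c ≠ 0) :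
    DifferentiableOn ℂ (fun c : ℂ => (y : ℂ) ^ (2 * c)) U := by
  by_cases hy : y = 0
  · refine DifferentiableOn.congr (differentiableOn_const (0 : ℂ)) fun c hc => ?_
    rw [hy, Complex.ofReal_zero, Complex.zero_cpow]
    exact mul_ne_zero two_ne_zero (hU c hc)
  · have h1 : Differentiable ℂ (fun c : ℂ => (y : ℂ) ^ (2 * c)) := by
      have h2 : (y : ℂ) ≠ 0 := by exact_mod_cast hy
      intro c
      exact (DifferentiableAt.const_cpow (by fun_prop) (Or.inl h2))
    exact h1.differentiableOn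

lemma th_diff (k : ℕ) (x : ℂ) : Differentiable ℂ (fun c : ℂ => th k c x) := by
  unfold th
  intro c
  refine DifferentiableAt.sub (differentiableAt_const _) ?_
  refine DifferentiableAt.mul ?_ (differentiableAt_const _)
  exact DifferentiableAt.const_cpow (by fun_prop) (Or.inl two_ne_zero)

/-- the inner integral is holomorphic -/
lemma inn_diff (hk : 0 < k) {σ : ℝ} (hσ : -2 < 2 * k * σ) {t : EE} (hA : A t ≠ 0)
    {r : Fin k → ℂ} (hr : ∀ x, ff f (x, t) = A t * ∏ i, (x - r i)) :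
    DifferentiableOn ℂ (fun c => inn f k c t) (UU σ) := by
  have hkR : (0 : ℝ) < k := by exact_mod_cast hk
  set a : ℝ := ‖A t‖ with ha
  have ha0 : 0 < a := norm_pos_iff.2 hA
  set B : ℂ → ℝ := fun x => 5 * (a ^ (2 * σ) + 1) *
    ((1 / (k : ℝ)) * ∑ i, (‖x - r i‖ ^ (2 * k * σ) + 1)) with hB
  have iB : IntegrableOn B (closedBall 0 4) := by
    refine Integrable.const_mul (Integrable.const_mul ?_ _) _
    refine integrable_finsetSum _ fun i _ => ?_
    exact (int_ball hσ (r i) 4).add (integrableOn_const (measure_closedBall_lt_top).ne)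
  have hBnn : ∀ x, 0 ≤ B x := fun x => by
    rw [hB]
    refine mul_nonneg (by positivity) (mul_nonneg (by positivity) ?_)
    exact Finset.sum_nonneg fun i _ => by positivity
  refine diffOn_int (UU_open σ) volume
    (fun c x => ((‖ff f (x, t)‖ : ℝ) : ℂ) ^ (2 * c) * th k c x)
    ((closedBall (0 : ℂ) 4).indicator B)
    ((integrable_indicator_iff measurableSet_closedBall).2 iB) ?_ ?_ ?_
  · intro c _
    exact ((meas_F f k c).comp (measurable_id.prodMk measurable_const)).aestronglyMeasurable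
  · refine Eventually.of_forall fun x => ?_
    exact (cpow_diff _ fun c hc => fun h0 => by
      rw [h0] at hc
      exact absurd hc.2.1 (by simp)).mul (th_diff k x).differentiableOn
  · refine Eventually.of_forall fun x c hc => ?_
    obtain ⟨h1, h2, h3⟩ := hc
    by_cases hx : x ∈ closedBall (0 : ℂ) 4
    · rw [indicator_of_mem hx, norm_mul, norm_pw (norm_nonneg _) (by rw [re_2c]; linarith), re_2c]
      have e1 : ‖ff f (x, t)‖ = a * ∏ i, ‖x - r i‖ := by
        rw [hr, norm_mul, norm_prod]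
      rw [e1, Real.mul_rpow ha0.le (Finset.prod_nonneg fun i _ => norm_nonneg _)]
      have e2 : a ^ (2 * c.re) ≤ a ^ (2 * σ) + 1 := pw_le ha0.le (by linarith) (by linarith)
      have e3 : (∏ i, ‖x - r i‖) ^ (2 * c.re) ≤
          (1 / (k : ℝ)) * ∑ i, (‖x - r i‖ ^ (2 * k * σ) + 1) := by
        refine (amgm hk r c.re x).trans ?_
        refine mul_le_mul_of_nonneg_left ?_ (by positivity)
        refine Finset.sum_le_sum fun i _ => pw_le (norm_nonneg _) ?_ ?_
        · exact mul_le_mul_of_nonneg_left h1.le (by positivity)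
        · exact mul_nonpos_of_nonneg_of_nonpos (by positivity) h2.le
      have e4 : 0 ≤ (∏ i, ‖x - r i‖) ^ (2 * c.re) :=
        Real.rpow_nonneg (Finset.prod_nonneg fun i _ => norm_nonneg _) _
      calc a ^ (2 * c.re) * (∏ i, ‖x - r i‖) ^ (2 * c.re) * ‖th k c x‖ ≤
          ((a ^ (2 * σ) + 1) * ((1 / (k : ℝ)) * ∑ i, (‖x - r i‖ ^ (2 * k * σ) + 1))) * 5 := by
            refine mul_le_mul (mul_le_mul e2 e3 e4 (by positivity)) (th_bd k h2 x)
              (norm_nonneg _) ?_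
            exact mul_nonneg (by positivity) (e4.trans e3)
        _ = B x := by rw [hB]; ring
    · rw [indicator_of_notMem hx]
      rw [mem_closedBall_zero_iff, not_le] at hx
      rw [th_zero k c hx.le, mul_zero, norm_zero]

/-- the bump function in the plane -/
noncomputable def rh0 : ContDiffBump (0 : EE) := ⟨1, 2, one_pos, one_lt_two⟩

/-- the regularized integral -/
noncomputable def ZZ (f : MvPolynomial (Fin 3) ℂ) (k : ℕ) (c : ℂ) : ℂ :=
  ∫ t, ((rh0 t : ℝ) : ℂ) * inn f k c t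

lemma Heavy.dpos (H : Heavy k d f A Y) : (0 : ℝ) < d := by
  have := H.hd
  exact_mod_cast (by omega : 0 < d)

lemma Heavy.kd (H : Heavy k d f A Y) : 6 * (k : ℝ) / d < 2 := by
  rw [div_lt_iff₀ H.dpos]
  have : (3 : ℝ) * k < d := by exact_mod_cast H.hd
  linarith

lemma A_bd (H : Heavy k d f A Y) (R : ℝ) : ∃ M : ℝ, 1 ≤ M ∧ ∀ t ∈ closedBall (0 : EE) R,
    ‖A t‖ ≤ M := by
  obtain ⟨M, hM⟩ := (isCompact_closedBall (0 : EE) R).exists_bound_of_continuousOn
    H.cA.continuousOn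
  exact ⟨max M 1, le_max_right _ _, fun t ht => (hM t ht).trans (le_max_left _ _)⟩

/-- comparison of the powers -/
lemma pw_cmp {y M σ τ : ℝ} (hy : 0 < y) (hM : 1 ≤ M) (hyM : y ≤ M) (h1 : σ ≤ τ) (h2 : τ ≤ σ + 1) :
    y ^ (2 * τ) ≤ M ^ (2 : ℝ) * y ^ (2 * σ) := by
  have e1 : y ^ (2 * τ) = y ^ (2 * (τ - σ)) * y ^ (2 * σ) := by
    rw [← Real.rpow_add hy]
    congr 1
    ring
  rw [e1]
  refine mul_le_mul_of_nonneg_right ?_ (by positivity)
  calc y ^ (2 * (τ - σ)) ≤ M ^ (2 * (τ - σ)) := Real.rpow_le_rpow hy.le hyM (by linarith)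
    _ ≤ M ^ (2 : ℝ) := Real.rpow_le_rpow_of_exponent_le hM (by linarith)

/-- the domination -/
theorem rinn_dom (H : Heavy k d f A Y) {σ : ℝ} (hσ : -(3 / d : ℝ) < σ) (hσ0 : σ < 0) :
    ∃ g : EE → ℝ, Integrable g ∧ ∀ᵐ t, ∀ c ∈ UU σ, ‖((rh0 t : ℝ) : ℂ) * inn f k c t‖ ≤ g t := by
  have hkR : (0 : ℝ) < k := by exact_mod_cast H.hk
  have hdR := H.dpos
  have hkd := H.kd
  set q : ℝ := 2 - 6 * k / d with hq
  have hq0 : 0 ≤ q := by rw [hq]; linarith
  have hq2 : q ≤ 2 := by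
    have : 0 ≤ 6 * (k : ℝ) / d := by positivity
    rw [hq]
    linarith
  set β : ℝ := 2 * k * σ - q with hβd
  have e0 : 2 * (k : ℝ) * -(3 / d) = -(6 * k / d) := by
    field_simp
    ring
  have hks : -(6 * (k : ℝ) / d) < 2 * k * σ := by
    rw [← e0]
    exact mul_lt_mul_of_pos_left hσ (by positivity)
  have hβ : -2 < β := by
    rw [hβd, hq]
    linarith
  have hks0 : 2 * (k : ℝ) * σ < 0 := mul_neg_of_pos_of_neg (by positivity) hσ0
  have hβ0 : β ≤ 0 := by linarith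
  obtain ⟨C, hC0, hC⟩ := upper (k := k) H.hk hβ hβ0 1
  obtain ⟨M, hM1, hM⟩ := A_bd H 2
  have hd1 : -(1 : ℝ) ≤ σ := by
    have h1 : 3 / (d : ℝ) ≤ 1 := by
      rw [div_le_one hdR]
      have := H.hd
      have h2 := H.hk
      exact_mod_cast (by omega : 3 ≤ d)
    linarith
  set g : EE → ℝ := fun t => C * M ^ (2 : ℝ) * (‖A t‖ ^ (2 * σ) * Y t ^ q) with hg
  have ig : IntegrableOn g (closedBall 0 2) := (H.I2 σ hσ hσ0 2).const_mul _
  refine ⟨(closedBall (0 : EE) 2).indicator g,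
    (integrable_indicator_iff measurableSet_closedBall).2 ig, ?_⟩
  filter_upwards [H.ae] with t ht c hc
  obtain ⟨r, hr, hrY⟩ := H.root t ht
  obtain ⟨h1, h2, h3⟩ := hc
  by_cases ht2 : t ∈ closedBall (0 : EE) 2
  · rw [indicator_of_mem ht2, norm_mul, Complex.norm_real, Real.norm_eq_abs,
      abs_of_nonneg rh0.nonneg, inn_eq hr, norm_mul, norm_pw (norm_nonneg _)
      (by rw [re_2c]; linarith), re_2c]
    have hA0 : 0 < ‖A t‖ := norm_pos_iff.2 ht
    have e1 : ‖A t‖ ^ (2 * c.re) ≤ M ^ (2 : ℝ) * ‖A t‖ ^ (2 * σ) :=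
      pw_cmp hA0 hM1 (hM t ht2) h1.le (by linarith)
    have hmono : 2 * (k : ℝ) * σ ≤ 2 * k * c.re := mul_le_mul_of_nonneg_left h1.le (by positivity)
    have e2 : ‖Ic r c‖ ≤ C * Y t ^ q :=
      hC c h2 (by linarith) h3.le q hq0 hq2 (by linarith) r (Y t) hrY
    calc rh0 t * (‖A t‖ ^ (2 * c.re) * ‖Ic r c‖) ≤
        1 * ((M ^ (2 : ℝ) * ‖A t‖ ^ (2 * σ)) * (C * Y t ^ q)) := by
          refine mul_le_mul rh0.le_one ?_ (by positivity) zero_le_one
          exact mul_le_mul e1 e2 (norm_nonneg _) (by positivity)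
      _ = g t := by rw [hg]; ring
  · rw [indicator_of_notMem ht2]
    rw [mem_closedBall_zero_iff, not_le] at ht2
    have h4 : rh0 t = 0 := rh0.zero_of_le_dist (by rw [dist_zero_right]; exact ht2.le)
    rw [h4]
    simp

lemma rinn_meas (f : MvPolynomial (Fin 3) ℂ) (k : ℕ) (c : ℂ) :
    AEStronglyMeasurable (fun t : EE => ((rh0 t : ℝ) : ℂ) * inn f k c t) :=
  ((Complex.measurable_ofReal.comp rh0.continuous.measurable).aestronglyMeasurable).mul
    (inn_meas f k c).aestronglyMeasurable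

lemma rinn_int (H : Heavy k d f A Y) {σ : ℝ} (hσ : -(3 / d : ℝ) < σ) (hσ0 : σ < 0) {c : ℂ}
    (hc : c ∈ UU σ) : Integrable (fun t : EE => ((rh0 t : ℝ) : ℂ) * inn f k c t) := by
  obtain ⟨g, hg, hg2⟩ := rinn_dom H hσ hσ0
  refine Integrable.mono' hg (rinn_meas f k c) ?_
  filter_upwards [hg2] with t ht
  exact ht c hc

/-- **The regularized integral is holomorphic.** -/
theorem ZZ_diff (H : Heavy k d f A Y) {σ : ℝ} (hσ : -(3 / d : ℝ) < σ) (hσ0 : σ < 0) :
    DifferentiableOn ℂ (ZZ f k) (UU σ) := by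
  obtain ⟨g, hg, hg2⟩ := rinn_dom H hσ hσ0
  have hkR : (0 : ℝ) < k := by exact_mod_cast H.hk
  have hdR := H.dpos
  have hkd := H.kd
  have e0 : 2 * (k : ℝ) * -(3 / d) = -(6 * k / d) := by
    field_simp
    ring
  have hks : -(6 * (k : ℝ) / d) < 2 * k * σ := by
    rw [← e0]
    exact mul_lt_mul_of_pos_left hσ (by positivity)
  refine diffOn_int (UU_open σ) volume (fun c t => ((rh0 t : ℝ) : ℂ) * inn f k c t) g hg
    (fun c _ => rinn_meas f k c) ?_ hg2
  filter_upwards [H.ae] with t ht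
  obtain ⟨r, hr, -⟩ := H.root t ht
  refine (differentiableOn_const _).mul ?_
  exact inn_diff H.hk (by linarith) ht hr

/-- the regularized integral is real analytic -/
lemma ZZ_ana (H : Heavy k d f A Y) {σ : ℝ} (hσ : -(3 / d : ℝ) < σ) (hσ0 : σ < 0) :
    AnalyticOnNhd ℝ (fun c : ℝ => ZZ f k (c : ℂ)) (Ioo σ 0) := by
  intro c hc
  have hdR := H.dpos
  have hd1 : -(1 : ℝ) ≤ σ := by
    have h1 : 3 / (d : ℝ) ≤ 1 := by
      rw [div_le_one hdR]
      have := H.hd
      have h2 := H.hk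
      exact_mod_cast (by omega : 3 ≤ d)
    linarith
  have hcU : (c : ℂ) ∈ UU σ := by
    refine ⟨by rw [Complex.ofReal_re]; exact hc.1, by rw [Complex.ofReal_re]; exact hc.2, ?_⟩
    rw [Complex.norm_real, Real.norm_eq_abs, abs_of_neg hc.2]
    linarith [hc.1]
  have h1 : AnalyticAt ℂ (ZZ f k) (c : ℂ) :=
    (ZZ_diff H hσ hσ0).analyticAt ((UU_open σ).mem_nhds hcU)
  have h2 := h1.restrictScalars (𝕜 := ℝ)
  exact h2.comp (Complex.ofRealCLM.analyticAt c)

/-- local integrability -/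
lemma loc_int (H : Heavy k d f A Y) {s : ℝ} (hs : -(1 / d : ℝ) < s) (hs0 : s < 0) (r : ℝ) :
    IntegrableOn (fun z : VV => ‖ff f z‖ ^ (2 * s)) (closedBall 0 r) := by
  have hkR : (0 : ℝ) < k := by exact_mod_cast H.hk
  have hdR := H.dpos
  have hβ : -2 < 2 * (k : ℝ) * s := by
    have h1 : (3 : ℝ) * k < d := by exact_mod_cast H.hd
    have h2 : 2 * (k : ℝ) * -(1 / d) = -(2 * k / d) := by
      field_simp
    have h3 : 2 * (k : ℝ) / d < 2 := by
      rw [div_lt_iff₀ hdR]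
      linarith
    have h4 : 2 * (k : ℝ) * -(1 / d) < 2 * k * s := mul_lt_mul_of_pos_left hs (by positivity)
    linarith
  have hβ0 : 2 * (k : ℝ) * s ≤ 0 := mul_nonpos_of_nonneg_of_nonpos (by positivity) hs0.le
  obtain ⟨C2, hC20, hC2⟩ := Gint hβ hβ0 r
  have hme : Measurable fun z : VV => ‖ff f z‖ ^ (2 * s) :=
    (ff_cont f).measurable.norm.pow_const _
  have hfib : ∀ t, A t ≠ 0 → IntegrableOn (fun x => ‖ff f (x, t)‖ ^ (2 * s)) (closedBall 0 r) ∧
      ∫ x in closedBall (0 : ℂ) r, ‖ff f (x, t)‖ ^ (2 * s) ≤ C2 * ‖A t‖ ^ (2 * s) := by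
    intro t ht
    obtain ⟨ρ, hρ, -⟩ := H.root t ht
    have hpt : ∀ x, ‖ff f (x, t)‖ ^ (2 * s) ≤
        ‖A t‖ ^ (2 * s) * ((1 / (k : ℝ)) * ∑ i, (‖x - ρ i‖ ^ (2 * k * s) + 1)) := by
      intro x
      rw [hρ, norm_mul, norm_prod,
        Real.mul_rpow (norm_nonneg _) (Finset.prod_nonneg fun i _ => norm_nonneg _)]
      refine mul_le_mul_of_nonneg_left ?_ (by positivity)
      refine (amgm H.hk ρ s x).trans ?_
      refine mul_le_mul_of_nonneg_left ?_ (by positivity)
      exact Finset.sum_le_sum fun i _ => by linarith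
    have hI : IntegrableOn (fun x : ℂ => ‖A t‖ ^ (2 * s) * ((1 / (k : ℝ)) *
        ∑ i, (‖x - ρ i‖ ^ (2 * k * s) + 1))) (closedBall 0 r) := by
      refine Integrable.const_mul (Integrable.const_mul ?_ _) _
      exact integrable_finsetSum _ fun i _ => (hC2 (ρ i)).1
    have hI2 : IntegrableOn (fun x => ‖ff f (x, t)‖ ^ (2 * s)) (closedBall 0 r) := by
      refine Integrable.mono' hI ?_ (Eventually.of_forall fun x => ?_)
      · exact (hme.comp (measurable_id.prodMk measurable_const)).aestronglyMeasurable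
      · rw [Real.norm_eq_abs, abs_of_nonneg (by positivity)]
        exact hpt x
    refine ⟨hI2, (setIntegral_mono hI2 hI hpt).trans ?_⟩
    rw [integral_const_mul, integral_const_mul, integral_finsetSum _ fun i _ => (hC2 (ρ i)).1]
    have h8 : ∑ i, ∫ x in closedBall (0 : ℂ) r, (‖x - ρ i‖ ^ (2 * k * s) + 1) ≤ k * C2 := by
      refine (Finset.sum_le_sum fun i _ => (hC2 (ρ i)).2).trans ?_
      rw [Finset.sum_const, Finset.card_univ, Fintype.card_fin, nsmul_eq_mul]
    have h9 : 1 / (k : ℝ) * ∑ i, ∫ x in closedBall (0 : ℂ) r, (‖x - ρ i‖ ^ (2 * k * s) + 1) ≤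
        C2 := by
      calc _ ≤ 1 / (k : ℝ) * (k * C2) := mul_le_mul_of_nonneg_left h8 (by positivity)
        _ = C2 := by field_simp
    have h10 : 0 ≤ ‖A t‖ ^ (2 * s) := by positivity
    calc _ ≤ ‖A t‖ ^ (2 * s) * C2 := mul_le_mul_of_nonneg_left h9 h10
      _ = _ := by ring
  have hprod : IntegrableOn (fun z : VV => ‖ff f z‖ ^ (2 * s))
      (closedBall (0 : ℂ) r ×ˢ closedBall (0 : EE) r) := by
    unfold IntegrableOn
    rw [Measure.volume_eq_prod, ← Measure.prod_restrict]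
    rw [integrable_prod_iff' hme.aestronglyMeasurable]
    refine ⟨?_, ?_⟩
    · refine ae_restrict_of_ae ?_
      filter_upwards [H.ae] with t ht
      exact (hfib t ht).1
    · have h1 : IntegrableOn (fun t => C2 * ‖A t‖ ^ (2 * s)) (closedBall (0 : EE) r) :=
        (H.I1 s hs hs0 r).const_mul _
      refine Integrable.mono' h1 ?_ ?_
      · have h2 : StronglyMeasurable fun p : EE × ℂ => ‖‖ff f (p.2, p.1)‖ ^ (2 * s)‖ :=
          ((hme.comp measurable_swap).norm).stronglyMeasurable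
        exact (h2.integral_prod_right (ν := volume.restrict (closedBall (0 : ℂ) r))).aestronglyMeasurable
      · refine ae_restrict_of_ae ?_
        filter_upwards [H.ae] with t ht
        rw [Real.norm_eq_abs, abs_of_nonneg (integral_nonneg fun x => norm_nonneg _)]
        have h3 := (hfib t ht).2
        refine le_trans (le_of_eq ?_) h3
        refine integral_congr_ae (Eventually.of_forall fun x => ?_)
        simp only
        rw [Real.norm_eq_abs, abs_of_nonneg (by positivity)]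
  refine hprod.mono_set ?_
  intro z hz
  rw [mem_closedBall_zero_iff] at hz
  refine ⟨?_, ?_⟩
  · rw [mem_closedBall_zero_iff]
    exact (norm_fst_le z).trans hz
  · rw [mem_closedBall_zero_iff]
    exact (norm_snd_le z).trans hz

end Pool.Agent.KS6_81.HP
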