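import Pool.Agent.KS6_81.HP.Lift

set_option autoImplicit false

/-! # The analytic continuation of `∫ |f|^(2 c) ψ` -/

namespace Pool.Agent.KS6_81.HP

open MvPolynomial MeasureTheory Set Filter Topology Metric
open scoped ContDiff
open Pool.Agent.H628R4.TP (weylS IsBFunction)
open Pool.Agent.T6.H16.RA
open Pool.Agent.T6.H26.RW

/-- the space of the variables -/
abbrev VV := ℂ × (Fin 2 → ℂ)

/-- the value of the polynomial -/
noncomputable def ff (f : MvPolynomial (Fin 3) ℂ) (z : VV) : ℂ :=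
  eval (Fin.cons z.1 z.2 : Fin 3 → ℂ) f

/-- the coordinates -/
noncomputable def LL : (Fin (3 + 3) → ℝ) →ₗ[ℝ] VV where
  toFun x := (zz (n := 3) x 0, fun i => zz (n := 3) x i.succ)
  map_add' x y := by
    ext i
    · simp only [zz, Pi.add_apply, Prod.fst_add]
      push_cast
      ring
    · simp only [zz, Pi.add_apply, Prod.snd_add]
      push_cast
      ring
  map_smul' c x := by
    ext i
    · simp only [zz, Pi.smul_apply, Prod.smul_fst, smul_eq_mul, RingHom.id_apply,
        Complex.real_smul]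
      push_cast
      ring
    · simp only [zz, Pi.smul_apply, Prod.smul_snd, smul_eq_mul, RingHom.id_apply,
        Complex.real_smul]
      push_cast
      ring

lemma LL_inj : Function.Injective LL := by
  rw [injective_iff_map_eq_zero]
  intro x hx
  have h1 : ∀ i : Fin 3, zz (n := 3) x i = 0 := by
    intro i
    refine Fin.cases ?_ (fun i => ?_) i
    · exact congrArg Prod.fst hx
    · exact congrFun (congrArg Prod.snd hx) i
  funext j
  refine Fin.addCases (m := 3) (n := 3) (fun i => ?_) (fun i => ?_) j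
  · have h2 := congrArg Complex.re (h1 i)
    simpa [zz] using h2
  · have h2 := congrArg Complex.im (h1 i)
    simpa [zz] using h2

lemma finrank_VV : Module.finrank ℝ VV = 6 := by
  rw [Module.finrank_prod, Module.finrank_pi_fintype]
  simp [Complex.finrank_real_complex]

/-- the coordinates -/
noncomputable def Le : (Fin (3 + 3) → ℝ) ≃L[ℝ] VV :=
  (LinearEquiv.ofInjectiveOfFinrankEq LL LL_inj (by
    rw [finrank_VV, Module.finrank_fin_fun])).toContinuousLinearEquiv

lemma Le_apply (x : Fin (3 + 3) → ℝ) : Le x = (zz (n := 3) x 0, fun i => zz (n := 3) x i.succ) :=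
  rfl

lemma ff_Le (f : MvPolynomial (Fin 3) ℂ) (x : Fin (3 + 3) → ℝ) :
    ff f (Le x) = eval (zz (n := 3) x) f := by
  unfold ff
  rw [Le_apply]
  congr 2
  funext i
  refine Fin.cases ?_ (fun i => ?_) i
  · rfl
  · rfl

instance haarC2 : (volume : Measure (Fin 2 → ℂ)).IsAddHaarMeasure := by infer_instance

instance haarVV : (volume : Measure VV).IsAddHaarMeasure := by
  show (volume : Measure (ℂ × (Fin 2 → ℂ))).IsAddHaarMeasure
  rw [Measure.volume_eq_prod]
  infer_instance

/-- change of variables -/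
lemma exists_haar : ∃ C : ENNReal, C ≠ 0 ∧ C ≠ ⊤ ∧
    (volume : Measure (Fin (3 + 3) → ℝ)).map Le = C • (volume : Measure VV) := by
  have h1 : ((volume : Measure (Fin (3 + 3) → ℝ)).map Le).IsAddHaarMeasure :=
    Le.isAddHaarMeasure_map _
  refine ⟨(Measure.addHaarScalarFactor ((volume : Measure (Fin (3 + 3) → ℝ)).map Le)
    (volume : Measure VV) : ENNReal), ?_, ENNReal.coe_ne_top,
    Measure.isAddLeftInvariant_eq_smul _ _⟩
  exact ENNReal.coe_ne_zero.2 (Measure.addHaarScalarFactor_pos_of_isAddHaarMeasure _ _).ne'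

lemma int_Le {C : ENNReal} (hC : (volume : Measure (Fin (3 + 3) → ℝ)).map Le =
    C • (volume : Measure VV)) (F : VV → ℂ) : ∫ x, F (Le x) = (C.toReal : ℂ) * ∫ z, F z := by
  have h1 : ∫ x, F (Le x) = ∫ z, F z ∂((volume : Measure (Fin (3 + 3) → ℝ)).map Le) :=
    (Le.toHomeomorph.measurableEmbedding.integral_map F).symm
  rw [h1, hC, integral_smul_measure]
  simp

lemma ff_cont (f : MvPolynomial (Fin 3) ℂ) : Continuous (ff f) := by
  unfold ff
  have h : Continuous fun z : VV => (Fin.cons z.1 z.2 : Fin 3 → ℂ) := by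
    refine continuous_pi fun i => ?_
    refine Fin.cases ?_ (fun i => ?_) i
    · simp only [Fin.cons_zero]
      exact continuous_fst
    · simp only [Fin.cons_succ]
      exact (continuous_apply i).comp continuous_snd
  exact (MvPolynomial.continuous_eval f).comp h

/-- **The analytic continuation.** -/
theorem crit (f : MvPolynomial (Fin 3) ℂ) (hf : f ≠ 0) (b : Polynomial ℂ)
    (hb : IsBFunction f b) {ε : ℝ} (hε : 0 < ε) (hε1 : ε ≤ 1)
    (hloc : ∀ s : ℝ, -ε < s → s < 0 → ∀ r : ℝ,
      IntegrableOn (fun z : VV => ‖ff f z‖ ^ (2 * s)) (closedBall 0 r))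
    (ψ : VV → ℂ) (hψ : ContDiff ℝ ∞ ψ) (hψc : HasCompactSupport ψ) :
    ∃ R : ℝ → ℂ, AnalyticOnNhd ℝ R (Ioi (-1)) ∧ ∀ c : ℝ, -ε < c → c < 0 →
      (b.eval (c : ℂ) * (b.map (starRingEnd ℂ)).eval (c : ℂ)) *
        (∫ z, ((‖ff f z‖ ^ (2 * c) : ℝ) : ℂ) * ψ z) = R c := by
  obtain ⟨g, hgb, hg0, hgv⟩ := exists_sq f b hb hf
  obtain ⟨C, hC0, hCt, hC⟩ := exists_haar
  set B : Polynomial ℂ := b * b.map (starRingEnd ℂ) with hB
  set U : Set (Fin (3 + 3) → ℝ) := {x | 0 < rv g x} with hU
  have hnn : ∀ x, 0 ≤ rv g x := fun x => by rw [hgv x]; positivity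
  have hreg : Reg g U := by
    refine ⟨isOpen_lt continuous_const (rv_cont g), fun x hx => hx, fun x _ hx => ?_⟩
    exact le_antisymm (not_lt.1 hx) (hnn x)
  -- the test function
  set φ : (Fin (3 + 3) → ℝ) → ℂ := fun x => ψ (Le x) with hφ
  have hφc : HasCompactSupport φ := hψc.comp_homeomorph Le.toHomeomorph
  obtain ⟨r, hr⟩ := hφc.isCompact.isBounded.subset_closedBall 0
  set K : Set (Fin (3 + 3) → ℝ) := closedBall 0 r with hK'
  have hK : IsCompact K := isCompact_closedBall 0 r
  have hT : IsT K φ := ⟨hψ.comp Le.contDiff, hr⟩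
  obtain ⟨M, hM, hit⟩ := iter_eq hreg hK hg0 hgb
  obtain ⟨R, hR1, hR2⟩ := hit 1 φ hT
  -- powers
  have hpow : ∀ (x : Fin (3 + 3) → ℝ) (s : ℝ), rv g x ^ s = ‖ff f (Le x)‖ ^ (2 * s) := by
    intro x s
    rw [hgv x, ff_Le, ← Real.rpow_natCast, ← Real.rpow_mul (norm_nonneg _)]
    norm_num
  -- integrability
  have hint : ∀ s, -ε < s → IntegrableOn (fun x => rv g x ^ s) (U ∩ K) := by
    intro s hs
    rcases lt_or_ge s 0 with h0 | h0
    · refine IntegrableOn.mono_set ?_ inter_subset_right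
      -- K is contained in the preimage of a ball
      have hLK : IsCompact (Le '' K) := hK.image Le.continuous
      obtain ⟨r', hr'⟩ := hLK.isBounded.subset_closedBall 0
      have h1 : IntegrableOn (fun x : Fin (3 + 3) → ℝ => ‖ff f (Le x)‖ ^ (2 * s))
          (Le ⁻¹' closedBall 0 r') := by
        have h2 := hloc s hs h0 r'
        have h3 : IntegrableOn (fun z : VV => ‖ff f z‖ ^ (2 * s)) (closedBall 0 r')
            ((volume : Measure (Fin (3 + 3) → ℝ)).map Le) := by
          rw [hC]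
          unfold IntegrableOn at h2 ⊢
          rw [Measure.restrict_smul]
          exact h2.smul_measure hCt
        exact (Le.toHomeomorph.measurableEmbedding.integrableOn_map_iff).1 h3
      simp only [hpow]
      exact h1.mono_set fun x hx => hr' ⟨x, hx, rfl⟩
    · have hc : Continuous fun x => rv g x ^ s :=
        (rv_cont g).rpow_const fun x => Or.inr h0
      exact (hc.continuousOn.integrableOn_compact hK).mono_set inter_subset_right
  have hTa : AnalyticOnNhd ℝ (TT g U φ) (Ioi (-ε)) := ana hreg hK hint hT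
  -- analyticity of the polynomial
  have hBa : AnalyticOnNhd ℝ (fun t : ℝ => B.eval (t : ℂ)) univ := by
    intro t _
    have h1 : AnalyticAt ℝ (fun z : ℂ => B.eval z) (t : ℂ) := by
      have h2 : AnalyticAt ℂ (fun z : ℂ => Polynomial.aeval z B) (t : ℂ) :=
        AnalyticAt.aeval_polynomial analyticAt_id _
      have h3 := h2.restrictScalars (𝕜 := ℝ)
      refine h3.congr (Eventually.of_forall fun z => ?_)
      simp only [Polynomial.coe_aeval_eq_eval]
    exact h1.comp (Complex.ofRealCLM.analyticAt t)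
  simp only [Finset.range_one, Finset.prod_singleton, Nat.cast_zero, add_zero, Nat.cast_one]
    at hR1 hR2
  have hfe : EqOn (fun t : ℝ => B.eval (t : ℂ) * TT g U φ t - R t) 0 (Ioi (-ε)) := by
    refine AnalyticOnNhd.eqOn_zero_of_preconnected_of_eventuallyEq_zero (𝕜 := ℝ) ?_
      isPreconnected_Ioi (z₀ := M + 1) ?_ ?_
    · exact ((hBa.mono (subset_univ _)).mul hTa).sub
        (hR1.mono (Ioi_subset_Ioi (by linarith)))
    · simp only [mem_Ioi]
      linarith
    · have h1 : Ioi M ∈ 𝓝 (M + 1) := Ioi_mem_nhds (by linarith)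
      filter_upwards [h1] with t ht
      simp only [Pi.zero_apply]
      rw [hR2 t ht, sub_self]
  refine ⟨fun c => (C.toReal : ℂ)⁻¹ * R c, ?_, fun c hc hc0 => ?_⟩
  · exact analyticOnNhd_const.mul hR1
  have h1 := hfe (show c ∈ Ioi (-ε) from hc)
  simp only [Pi.zero_apply] at h1
  have h2 := sub_eq_zero.1 h1
  have h3 : TT g U φ c = (C.toReal : ℂ) * ∫ z, ((‖ff f z‖ ^ (2 * c) : ℝ) : ℂ) * ψ z := by
    rw [← int_Le hC]
    unfold TT
    refine integral_congr_ae (Eventually.of_forall fun x => ?_)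
    simp only [hφ]
    congr 2
    by_cases hx : x ∈ U
    · rw [Fs_in hx, hpow]
    · rw [Fs_out hx]
      have h4 : rv g x = 0 := le_antisymm (not_lt.1 hx) (hnn x)
      rw [← hpow, h4, Real.zero_rpow hc0.ne]
  show _ = (C.toReal : ℂ)⁻¹ * R c
  rw [← h2, h3, hB, Polynomial.eval_mul]
  have h5 : (C.toReal : ℂ) ≠ 0 := by
    rw [Complex.ofReal_ne_zero]
    exact (ENNReal.toReal_pos hC0 hCt).ne'
  field_simp

end Pool.Agent.KS6_81.HP
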