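import Pool.Graph.R_pool_sql_team_seeded_47a924f7.T6.H26.RW.A

set_option autoImplicit false

/-! # The functional equation for the square of the absolute value

If `f ∈ ℂ[z_1, ..., z_n]` satisfies a functional equation with `b(s)`, then the real polynomial
`|f|²` in the `2n` real coordinates satisfies one with `b(s) b̄(s)`. -/

namespace Pool.Agent.KS6_81.HP

open MvPolynomial
open Pool.Agent.H628R4.TP (weylS IsBFunction)
open Pool.Agent.T6.H16.RA

variable {n : ℕ}

/-- substitution `z_i = x_i + I y_i` -/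
noncomputable def Ph (n : ℕ) : MvPolynomial (Fin n) ℂ →ₐ[ℂ] MvPolynomial (Fin (n + n)) ℂ :=
  aeval (fun i => X (Fin.castAdd n i) + C Complex.I * X (Fin.natAdd n i))

/-- conjugation of the coefficients -/
noncomputable def kap {τ : Type} : MvPolynomial τ ℂ →+* MvPolynomial τ ℂ :=
  MvPolynomial.map (starRingEnd ℂ)

lemma kap_kap {τ : Type} (p : MvPolynomial τ ℂ) : kap (kap p) = p := by
  unfold kap
  rw [map_map]
  have : (starRingEnd ℂ).comp (starRingEnd ℂ) = RingHom.id ℂ := by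
    ext x
    simp
  rw [this, map_id]

lemma kap_pderiv {τ : Type} (p : MvPolynomial τ ℂ) (i : τ) :
    kap (pderiv i p) = pderiv i (kap p) := by
  unfold kap
  rw [pderiv_map]

/-- the Wirtinger derivative `∂ / ∂ z_i` -/
noncomputable def DD (i : Fin n) :
    MvPolynomial (Fin (n + n)) ℂ →ₗ[ℂ] MvPolynomial (Fin (n + n)) ℂ :=
  (1 / 2 : ℂ) • (((pderiv (Fin.castAdd n i) : Derivation ℂ _ _) : _ →ₗ[ℂ] _) -
    Complex.I • ((pderiv (Fin.natAdd n i) : Derivation ℂ (MvPolynomial (Fin (n + n)) ℂ) _) :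
      _ →ₗ[ℂ] _))

lemma DD_apply (i : Fin n) (p : MvPolynomial (Fin (n + n)) ℂ) :
    DD i p = (1 / 2 : ℂ) • (pderiv (Fin.castAdd n i) p -
      Complex.I • pderiv (Fin.natAdd n i) p) := rfl

lemma DD_mul (i : Fin n) (p q : MvPolynomial (Fin (n + n)) ℂ) :
    DD i (p * q) = DD i p * q + p * DD i q := by
  simp only [DD_apply, pderiv_mul, smul_add, smul_sub, smul_eq_C_mul]
  ring

lemma Ph_C (c : ℂ) : Ph n (C c) = C c := by
  unfold Ph
  rw [aeval_C]
  rfl

lemma Ph_X (j : Fin n) :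
    Ph n (X j) = X (Fin.castAdd n j) + C Complex.I * X (Fin.natAdd n j) := by
  unfold Ph
  rw [aeval_X]

lemma kPh_X (j : Fin n) :
    kap (Ph n (X j)) = X (Fin.castAdd n j) - C Complex.I * X (Fin.natAdd n j) := by
  rw [Ph_X]
  unfold kap
  simp only [map_add, map_mul, map_X, map_C, Complex.conj_I, C_neg]
  ring

lemma cast_ne_nat (a b : Fin n) : Fin.castAdd n a ≠ Fin.natAdd n b := by
  intro h
  have := congrArg Fin.val h
  simp at this
  omega

lemma pd_C_mul_X {τ : Type} [DecidableEq τ] (c : ℂ) (i j : τ) :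
    pderiv i (C c * X j : MvPolynomial τ ℂ) = if j = i then C c else 0 := by
  rw [pderiv_C_mul]
  by_cases h : j = i
  · subst h
    rw [pderiv_X_self, if_pos rfl, mul_one]
  · rw [pderiv_X_of_ne h, mul_zero, if_neg h]

lemma pd_X {τ : Type} [DecidableEq τ] (i j : τ) :
    pderiv i (X j : MvPolynomial τ ℂ) = if j = i then 1 else 0 := by
  by_cases h : j = i
  · subst h
    rw [pderiv_X_self, if_pos rfl]
  · rw [pderiv_X_of_ne h, if_neg h]

lemma DD_X1 (i j : Fin n) :
    DD i (Ph n (X j)) = if j = i then 1 else 0 := by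
  rw [Ph_X, DD_apply, map_add, map_add, pd_X, pd_X, pd_C_mul_X, pd_C_mul_X]
  rw [if_neg (cast_ne_nat i j).symm, if_neg (cast_ne_nat j i), zero_add, add_zero]
  by_cases h : j = i
  · subst h
    rw [if_pos rfl, if_pos rfl, if_pos rfl, smul_eq_C_mul, smul_eq_C_mul, ← C_mul,
      Complex.I_mul_I, ← C_1, ← C_sub, ← C_mul]
    congr 1
    norm_num
  · rw [if_neg h, if_neg (fun h' => h (Fin.castAdd_injective n n h')),
      if_neg (fun h' => h (Fin.natAdd_injective n n h')), smul_zero, sub_zero, smul_zero]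

lemma DD_X2 (i j : Fin n) : DD i (kap (Ph n (X j))) = 0 := by
  rw [kPh_X, DD_apply, map_sub, map_sub, pd_X, pd_X, pd_C_mul_X, pd_C_mul_X]
  rw [if_neg (cast_ne_nat i j).symm, if_neg (cast_ne_nat j i), sub_zero, zero_sub]
  by_cases h : j = i
  · subst h
    rw [if_pos rfl, if_pos rfl, smul_neg, smul_eq_C_mul (a := Complex.I), ← C_mul,
      Complex.I_mul_I, C_neg, C_1, neg_neg, sub_self, smul_zero]
  · rw [if_neg (fun h' => h (Fin.castAdd_injective n n h')),
      if_neg (fun h' => h (Fin.natAdd_injective n n h')), neg_zero, smul_zero, sub_zero, smul_zero]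

lemma DD_C (i : Fin n) (c : ℂ) : DD i (C c) = 0 := by
  rw [DD_apply, pderiv_C, pderiv_C, smul_zero, sub_zero, smul_zero]

lemma DD_Ph (i : Fin n) (a : MvPolynomial (Fin n) ℂ) : DD i (Ph n a) = Ph n (pderiv i a) := by
  induction a using MvPolynomial.induction_on with
  | C c => rw [Ph_C, DD_C, pderiv_C, map_zero]
  | add p q hp hq => rw [map_add, map_add, hp, hq, map_add, map_add]
  | mul_X p j hp =>
    rw [map_mul, DD_mul, hp, pderiv_mul, map_add, map_mul, map_mul, DD_X1, pd_X]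
    congr 2
    by_cases h : j = i
    · rw [if_pos h, if_pos h, map_one]
    · rw [if_neg h, if_neg h, map_zero]

lemma kap_C {τ : Type} (c : ℂ) : kap (C c : MvPolynomial τ ℂ) = C (starRingEnd ℂ c) := by
  unfold kap
  rw [map_C]

lemma DD_kPh (i : Fin n) (a : MvPolynomial (Fin n) ℂ) : DD i (kap (Ph n a)) = 0 := by
  induction a using MvPolynomial.induction_on with
  | C c => rw [Ph_C, kap_C, DD_C]
  | add p q hp hq => rw [map_add, map_add, map_add, hp, hq, add_zero]
  | mul_X p j hp => rw [map_mul, map_mul, DD_mul, hp, zero_mul, zero_add, DD_X2, mul_zero]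

lemma weylS_X {τ : Type} (i : τ) : LinearMap.mulLeft ℂ (X i : MvPolynomial τ ℂ) ∈ weylS τ :=
  Algebra.subset_adjoin (Or.inl ⟨i, rfl⟩)

lemma weylS_D {τ : Type} (i : τ) : ((pderiv i : Derivation ℂ (MvPolynomial τ ℂ)
    (MvPolynomial τ ℂ)) : MvPolynomial τ ℂ →ₗ[ℂ] MvPolynomial τ ℂ) ∈ weylS τ :=
  Algebra.subset_adjoin (Or.inr ⟨i, rfl⟩)

lemma weylS_DD (i : Fin n) : (DD i : Module.End ℂ _) ∈ weylS (Fin (n + n)) := by
  unfold DD
  refine (weylS _).smul_mem ?_ _
  exact (weylS _).sub_mem (weylS_D _) ((weylS _).smul_mem (weylS_D _) _)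

/-- the lift of an operator to the holomorphic part -/
lemma lift_op (Q : Module.End ℂ (MvPolynomial (Fin n) ℂ)) (hQ : Q ∈ weylS (Fin n)) :
    ∃ Q' ∈ weylS (Fin (n + n)), ∀ (a b : MvPolynomial (Fin n) ℂ),
      Q' (Ph n a * kap (Ph n b)) = Ph n (Q a) * kap (Ph n b) := by
  unfold weylS at hQ
  induction hQ using Algebra.adjoin_induction with
  | mem Q hQ =>
    rcases hQ with ⟨i, rfl⟩ | ⟨i, rfl⟩
    · refine ⟨LinearMap.mulLeft ℂ (X (Fin.castAdd n i)) +
        Complex.I • LinearMap.mulLeft ℂ (X (Fin.natAdd n i)),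
        (weylS _).add_mem (weylS_X _) ((weylS _).smul_mem (weylS_X _) _), fun a b => ?_⟩
      rw [LinearMap.add_apply, LinearMap.smul_apply, LinearMap.mulLeft_apply,
        LinearMap.mulLeft_apply, LinearMap.mulLeft_apply, map_mul]
      rw [Ph_X, smul_eq_C_mul]
      ring
    · refine ⟨DD i, weylS_DD i, fun a b => ?_⟩
      rw [DD_mul, DD_kPh, DD_Ph, mul_zero, add_zero]
      rfl
  | algebraMap c =>
    refine ⟨algebraMap ℂ _ c, (weylS _).algebraMap_mem c, fun a b => ?_⟩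
    rw [Module.algebraMap_end_apply, Module.algebraMap_end_apply, map_smul, smul_mul_assoc]
  | add Q R _ _ hQ hR =>
    obtain ⟨Q', hQ', hQ2⟩ := hQ
    obtain ⟨R', hR', hR2⟩ := hR
    refine ⟨Q' + R', (weylS _).add_mem hQ' hR', fun a b => ?_⟩
    rw [LinearMap.add_apply, LinearMap.add_apply, hQ2, hR2, map_add, add_mul]
  | mul Q R _ _ hQ hR =>
    obtain ⟨Q', hQ', hQ2⟩ := hQ
    obtain ⟨R', hR', hR2⟩ := hR
    refine ⟨Q' * R', (weylS _).mul_mem hQ' hR', fun a b => ?_⟩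
    rw [Module.End.mul_apply, Module.End.mul_apply, hR2, hQ2]

/-- the conjugate operator -/
lemma conj_op {τ : Type} (Q : Module.End ℂ (MvPolynomial τ ℂ)) (hQ : Q ∈ weylS τ) :
    ∃ Q' ∈ weylS τ, ∀ h, Q' h = kap (Q (kap h)) := by
  unfold weylS at hQ
  induction hQ using Algebra.adjoin_induction with
  | mem Q hQ =>
    rcases hQ with ⟨i, rfl⟩ | ⟨i, rfl⟩
    · refine ⟨_, weylS_X i, fun h => ?_⟩
      rw [LinearMap.mulLeft_apply, LinearMap.mulLeft_apply, map_mul, kap_kap]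
      unfold kap
      rw [map_X]
    · refine ⟨_, weylS_D i, fun h => ?_⟩
      simp only [Derivation.coeFn_coe]
      rw [kap_pderiv, kap_kap]
  | algebraMap c =>
    refine ⟨algebraMap ℂ _ (starRingEnd ℂ c), (weylS _).algebraMap_mem _, fun h => ?_⟩
    rw [Module.algebraMap_end_apply, Module.algebraMap_end_apply, smul_eq_C_mul, smul_eq_C_mul,
      map_mul, kap_kap]
    unfold kap
    rw [map_C]
  | add Q R _ _ hQ hR =>
    obtain ⟨Q', hQ', hQ2⟩ := hQ
    obtain ⟨R', hR', hR2⟩ := hR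
    refine ⟨Q' + R', (weylS _).add_mem hQ' hR', fun h => ?_⟩
    rw [LinearMap.add_apply, LinearMap.add_apply, hQ2, hR2, map_add]
  | mul Q R _ _ hQ hR =>
    obtain ⟨Q', hQ', hQ2⟩ := hQ
    obtain ⟨R', hR', hR2⟩ := hR
    refine ⟨Q' * R', (weylS _).mul_mem hQ' hR', fun h => ?_⟩
    rw [Module.End.mul_apply, Module.End.mul_apply, hR2, hQ2, kap_kap]

/-- the lift of an operator to the antiholomorphic part -/
lemma lift_op' (Q : Module.End ℂ (MvPolynomial (Fin n) ℂ)) (hQ : Q ∈ weylS (Fin n)) :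
    ∃ Q' ∈ weylS (Fin (n + n)), ∀ (a b : MvPolynomial (Fin n) ℂ),
      Q' (Ph n a * kap (Ph n b)) = Ph n a * kap (Ph n (Q b)) := by
  obtain ⟨Q1, hQ1, h1⟩ := lift_op Q hQ
  obtain ⟨Q2, hQ2, h2⟩ := conj_op Q1 hQ1
  refine ⟨Q2, hQ2, fun a b => ?_⟩
  rw [h2, map_mul, kap_kap, mul_comm (kap (Ph n a)), h1, map_mul, kap_kap, mul_comm]

/-- a functional equation with a finite family of operators -/
lemma isB_of_sum {τ ι : Type} (S : Finset ι) (m : ι → ℕ) (Q : ι → Module.End ℂ (MvPolynomial τ ℂ))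
    (hQ : ∀ i, Q i ∈ weylS τ) (f : MvPolynomial τ ℂ) (b : Polynomial ℂ)
    (h : ∀ s : ℕ, C (b.eval (s : ℂ)) * f ^ s = ∑ i ∈ S, ((s : ℂ) ^ m i) • Q i (f ^ (s + 1))) :
    IsBFunction f b := by
  classical
  refine ⟨∑ i ∈ S, Finsupp.single (m i) (⟨Q i, hQ i⟩ : weylS τ), fun s => ?_⟩
  rw [h s, ← Finsupp.sum_finsetSum_index]
  · refine Finset.sum_congr rfl fun i _ => ?_
    rw [Finsupp.sum_single_index]
    simp
  · intro i
    simp
  · intro i Q R
    simp

/-- the functional equation for `|f| ^ 2` -/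
theorem isB_sq (f : MvPolynomial (Fin n) ℂ) (b : Polynomial ℂ) (hb : IsBFunction f b) :
    IsBFunction (Ph n f * kap (Ph n f)) (b * b.map (starRingEnd ℂ)) := by
  classical
  obtain ⟨P, hP⟩ := hb
  choose Q hQ hQ2 using fun m : ℕ => lift_op (n := n) ((P m : weylS (Fin n)) : Module.End ℂ _) (P m).2
  choose R hR hR2 using fun m : ℕ => lift_op' (n := n) ((P m : weylS (Fin n)) : Module.End ℂ _) (P m).2
  refine isB_of_sum (P.support ×ˢ P.support) (fun ij => ij.1 + ij.2)
    (fun ij => R ij.2 * Q ij.1) (fun ij => (weylS _).mul_mem (hR _) (hQ _)) _ _ fun s => ?_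
  have e1 : Ph n (C (b.eval (s : ℂ)) * f ^ s) = C (b.eval (s : ℂ)) * (Ph n f) ^ s := by
    rw [map_mul, map_pow]
    congr 1
    unfold Ph
    rw [aeval_C]
    rfl
  have e2 : Polynomial.eval (s : ℂ) (b.map (starRingEnd ℂ)) = starRingEnd ℂ (b.eval (s : ℂ)) := by
    rw [Polynomial.eval_map, Polynomial.eval, Polynomial.hom_eval₂]
    simp
  have e3 : C ((b * b.map (starRingEnd ℂ)).eval (s : ℂ)) * (Ph n f * kap (Ph n f)) ^ s =
      Ph n (C (b.eval (s : ℂ)) * f ^ s) * kap (Ph n (C (b.eval (s : ℂ)) * f ^ s)) := by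
    rw [e1, map_mul, kap_C, map_pow, Polynomial.eval_mul, e2, C_mul, mul_pow]
    ring
  rw [e3, hP s, Finsupp.sum, map_sum, map_sum, Finset.sum_mul_sum, ← Finset.sum_product']
  refine Finset.sum_congr rfl fun ij _ => ?_
  rw [Module.End.mul_apply, mul_pow, ← map_pow, ← map_pow, ← map_pow, hQ2, hR2, map_smul,
    map_smul, smul_eq_C_mul, smul_eq_C_mul, map_mul, kap_C]
  have e4 : starRingEnd ℂ ((s : ℂ) ^ ij.2) = (s : ℂ) ^ ij.2 := by
    rw [map_pow, Complex.conj_natCast]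
  have e5 : (C ((s : ℂ) ^ (ij.1 + ij.2)) : MvPolynomial (Fin (n + n)) ℂ) =
      C ((s : ℂ) ^ ij.1) * C ((s : ℂ) ^ ij.2) := by rw [pow_add, C_mul]
  rw [e4, smul_eq_C_mul, e5]
  ring

/-- the point -/
noncomputable def zz (x : Fin (n + n) → ℝ) : Fin n → ℂ := fun i =>
  (x (Fin.castAdd n i) : ℂ) + Complex.I * (x (Fin.natAdd n i) : ℂ)

lemma ev_Ph (x : Fin (n + n) → ℝ) (f : MvPolynomial (Fin n) ℂ) :
    ev x (Ph n f) = eval (zz x) f := by
  induction f using MvPolynomial.induction_on with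
  | C c => rw [Ph_C, ev_C, eval_C]
  | add p q hp hq => rw [map_add, map_add, hp, hq, map_add]
  | mul_X p j hp =>
    rw [map_mul, map_mul, hp, map_mul, eval_X]
    congr 1
    unfold Ph
    rw [aeval_X, map_add, map_mul, ev_X, ev_X, ev_C]
    rfl

lemma ev_kap {m : ℕ} (x : Fin m → ℝ) (p : MvPolynomial (Fin m) ℂ) :
    ev x (kap p) = starRingEnd ℂ (ev x p) := by
  induction p using MvPolynomial.induction_on with
  | C c => rw [kap_C, ev_C, ev_C]
  | add p q hp hq => rw [map_add, map_add, hp, hq, map_add, map_add]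
  | mul_X p j hp =>
    rw [map_mul, map_mul, hp, map_mul, map_mul]
    congr 1
    unfold kap
    rw [map_X, ev_X, Complex.conj_ofReal]

/-- a polynomial with real coefficients -/
lemma real_of_kap {m : ℕ} (p : MvPolynomial (Fin m) ℂ) (h : kap p = p) :
    ∃ g : MvPolynomial (Fin m) ℝ, cx g = p := by
  classical
  refine ⟨∑ d ∈ p.support, monomial d (p.coeff d).re, ?_⟩
  unfold cx
  rw [map_sum]
  conv_rhs => rw [p.as_sum]
  refine Finset.sum_congr rfl fun d _ => ?_
  rw [map_monomial]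
  congr 1
  have h1 : starRingEnd ℂ (p.coeff d) = p.coeff d := by
    conv_rhs => rw [← h]
    unfold kap
    rw [coeff_map]
  exact (Complex.conj_eq_iff_re.1 h1)

/-- the real polynomial `|f|²` -/
theorem exists_sq (f : MvPolynomial (Fin n) ℂ) (b : Polynomial ℂ) (hb : IsBFunction f b)
    (hf : f ≠ 0) :
    ∃ g : MvPolynomial (Fin (n + n)) ℝ, IsBFunction (cx g) (b * b.map (starRingEnd ℂ)) ∧
      cx g ≠ 0 ∧ ∀ x, rv g x = ‖eval (zz x) f‖ ^ 2 := by
  obtain ⟨g, hg⟩ := real_of_kap (Ph n f * kap (Ph n f)) (by rw [map_mul, kap_kap, mul_comm])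
  have hv : ∀ x, rv g x = ‖eval (zz x) f‖ ^ 2 := by
    intro x
    have h1 : ((rv g x : ℝ) : ℂ) = ((‖eval (zz x) f‖ ^ 2 : ℝ) : ℂ) := by
      rw [← ev_cx, hg, map_mul, ev_kap, ev_Ph, Complex.mul_conj, Complex.normSq_eq_norm_sq]
    exact_mod_cast h1
  refine ⟨g, by rw [hg]; exact isB_sq f b hb, ?_, hv⟩
  intro h0
  refine hf ?_
  refine MvPolynomial.funext fun z => ?_
  rw [map_zero]
  set x : Fin (n + n) → ℝ := Fin.addCases (fun i => (z i).re) (fun i => (z i).im) with hx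
  have hz : zz x = z := by
    funext i
    unfold zz
    rw [hx]
    simp only [Fin.addCases_left, Fin.addCases_right]
    rw [mul_comm]
    exact Complex.re_add_im _
  have h2 := hv x
  rw [hz] at h2
  have h3 : ((rv g x : ℝ) : ℂ) = 0 := by rw [← ev_cx, h0, map_zero]
  have h4 : rv g x = 0 := by exact_mod_cast h3
  rw [h4] at h2
  exact norm_eq_zero.1 (pow_eq_zero_iff (two_ne_zero) |>.1 h2.symm)

end Pool.Agent.KS6_81.HP
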