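import Pool.Agent.KS6_81.HP.Ident

set_option autoImplicit false

/-! # The regularized integral diverges -/

namespace Pool.Agent.KS6_81.HP

open Set Filter Topology Metric MeasureTheory
open scoped ContDiff Pointwise
open Pool.Agent.H628R4.TP (weylS IsBFunction)

variable {k d : ℕ} {f : MvPolynomial (Fin 3) ℂ} {A : EE → ℂ} {Y : EE → ℝ}

/-- a quantitative inequality of the arithmetic and the geometric mean -/
lemma gap (hk : 0 < k) (z : Fin k → ℝ) (hz : ∀ i, 0 ≤ z i) {a b : Fin k} (hab : a ≠ b) :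
    (∏ i, z i ^ (1 / k : ℝ)) + (1 / k : ℝ) * (Real.sqrt (z a) - Real.sqrt (z b)) ^ 2 ≤
      (1 / k : ℝ) * ∑ i, z i := by
  classical
  have hkR : (0 : ℝ) < k := by exact_mod_cast hk
  set w : ℝ := Real.sqrt (z a) * Real.sqrt (z b) with hw
  have hw0 : 0 ≤ w := by positivity
  set z' : Fin k → ℝ := fun i => if i = a ∨ i = b then w else z i with hz'
  have hz'0 : ∀ i, 0 ≤ z' i := by
    intro i
    rw [hz']
    simp only
    split_ifs
    · exact hw0
    · exact hz i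
  have h := Real.geom_mean_le_arith_mean_weighted (Finset.univ : Finset (Fin k))
    (fun _ => 1 / (k : ℝ)) z' (fun i _ => by positivity)
    (by
      rw [Finset.sum_const, Finset.card_univ, Fintype.card_fin, nsmul_eq_mul]
      field_simp) (fun i _ => hz'0 i)
  rw [← Finset.mul_sum] at h
  have hb : b ∈ Finset.univ.erase a := Finset.mem_erase.2 ⟨hab.symm, Finset.mem_univ _⟩
  have hrest : ∀ i ∈ (Finset.univ.erase a).erase b, z' i = z i := by
    intro i hi
    have h1 := Finset.ne_of_mem_erase hi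
    have h2 := Finset.ne_of_mem_erase (Finset.mem_of_mem_erase hi)
    rw [hz']
    simp only
    rw [if_neg]
    rintro (h3 | h3)
    · exact h2 h3
    · exact h1 h3
  have hza : z' a = w := by rw [hz']; simp
  have hzb : z' b = w := by rw [hz']; simp
  have e1 : ∏ i, z' i ^ (1 / k : ℝ) = ∏ i, z i ^ (1 / k : ℝ) := by
    rw [← Finset.mul_prod_erase _ _ (Finset.mem_univ a), ← Finset.mul_prod_erase _ _ hb,
      ← Finset.mul_prod_erase Finset.univ (fun i => z i ^ (1 / k : ℝ)) (Finset.mem_univ a),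
      ← Finset.mul_prod_erase (Finset.univ.erase a) (fun i => z i ^ (1 / k : ℝ)) hb,
      ← mul_assoc, ← mul_assoc, hza, hzb]
    congr 1
    · rw [← Real.mul_rpow hw0 hw0, ← Real.mul_rpow (hz a) (hz b)]
      congr 1
      rw [hw]
      have h1 := Real.mul_self_sqrt (hz a)
      have h2 := Real.mul_self_sqrt (hz b)
      calc Real.sqrt (z a) * Real.sqrt (z b) * (Real.sqrt (z a) * Real.sqrt (z b)) =
          (Real.sqrt (z a) * Real.sqrt (z a)) * (Real.sqrt (z b) * Real.sqrt (z b)) := by ring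
        _ = z a * z b := by rw [h1, h2]
    · exact Finset.prod_congr rfl fun i hi => by rw [hrest i hi]
  have e2 : ∑ i, z' i = (∑ i, z i) - z a - z b + 2 * w := by
    rw [← Finset.add_sum_erase _ _ (Finset.mem_univ a), ← Finset.add_sum_erase _ _ hb,
      ← Finset.add_sum_erase Finset.univ z (Finset.mem_univ a),
      ← Finset.add_sum_erase (Finset.univ.erase a) z hb, hza, hzb,
      Finset.sum_congr rfl hrest]
    ring
  rw [e1, e2] at h
  have h3 : (Real.sqrt (z a) - Real.sqrt (z b)) ^ 2 = z a + z b - 2 * w := by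
    rw [hw, sub_sq, Real.sq_sqrt (hz a), Real.sq_sqrt (hz b)]
    ring
  rw [h3]
  nlinarith

lemma Dr_low (hk : 0 < k) (r : Fin k → ℂ) (c : ℝ) (x : ℂ) {a b : Fin k} (hab : a ≠ b) :
    (1 / k : ℝ) * (‖x - r a‖ ^ (k * c) - ‖x - r b‖ ^ (k * c)) ^ 2 ≤ Dr r c x := by
  have hkR : (0 : ℝ) < k := by exact_mod_cast hk
  have h := gap hk (fun i => ‖x - r i‖ ^ (2 * k * c)) (fun i => Real.rpow_nonneg (norm_nonneg _) _)
    hab
  have hs : ∀ i, Real.sqrt (‖x - r i‖ ^ (2 * k * c)) = ‖x - r i‖ ^ (k * c) := by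
    intro i
    rw [Real.sqrt_eq_rpow, ← Real.rpow_mul (norm_nonneg _)]
    congr 1
    ring
  have hp : ∏ i, (‖x - r i‖ ^ (2 * k * c)) ^ (1 / k : ℝ) = (∏ i, ‖x - r i‖) ^ (2 * c) := by
    rw [← Real.finsetProd_rpow _ _ fun i _ => norm_nonneg _]
    refine Finset.prod_congr rfl fun i _ => ?_
    rw [← Real.rpow_mul (norm_nonneg _)]
    congr 1
    field_simp
  simp only [hs, hp] at h
  unfold Dr
  linarith

/-- scaling of the gap -/
lemma Dr_scal (hk : 0 < k) (r : Fin k → ℂ) (c : ℝ) {l : ℝ} (hl : 0 < l) (hl1 : l ≤ 1)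
    {β : ℝ} (hβ : -2 < β) (hc : c < 0) (hβ1 : β ≤ 2 * k * c) :
    l ^ (2 * k * c + 2) * (∫ x in closedBall (0 : ℂ) 1, Dr r c x) ≤
      ∫ x in closedBall (0 : ℂ) 1, Dr (fun i => (l : ℂ) * r i) c x := by
  have hkR : (0 : ℝ) < k := by exact_mod_cast hk
  have h1 := Measure.integral_comp_smul (μ := (volume : Measure ℂ))
    ((closedBall (0 : ℂ) 1).indicator (Dr (fun i => (l : ℂ) * r i) c)) l
  rw [Complex.finrank_real_complex, integral_indicator measurableSet_closedBall] at h1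
  have h2 : |(l ^ 2)⁻¹| = (l ^ 2)⁻¹ := abs_of_pos (by positivity)
  rw [h2, smul_eq_mul] at h1
  have h3 : ∀ x : ℂ, Dr (fun i => (l : ℂ) * r i) c (l • x) = l ^ (2 * k * c) * Dr r c x := by
    intro x
    have e1 : ∀ i, ‖l • x - (l : ℂ) * r i‖ = l * ‖x - r i‖ := by
      intro i
      rw [Complex.real_smul, ← mul_sub, norm_mul, Complex.norm_real, Real.norm_eq_abs,
        abs_of_pos hl]
    unfold Dr
    simp only [e1]
    have e2 : ∀ i, (l * ‖x - r i‖) ^ (2 * k * c) = l ^ (2 * k * c) * ‖x - r i‖ ^ (2 * k * c) :=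
      fun i => Real.mul_rpow hl.le (norm_nonneg _)
    have e3 : (∏ i, l * ‖x - r i‖) ^ (2 * c) = l ^ (2 * k * c) * (∏ i, ‖x - r i‖) ^ (2 * c) := by
      rw [Finset.prod_mul_distrib, Finset.prod_const, Finset.card_univ, Fintype.card_fin,
        Real.mul_rpow (by positivity) (Finset.prod_nonneg fun i _ => norm_nonneg _)]
      congr 1
      rw [← Real.rpow_natCast, ← Real.rpow_mul hl.le]
      congr 1
      ring
    simp only [e2]
    rw [e3, ← Finset.mul_sum]
    ring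
  have h4 : (∫ x in closedBall (0 : ℂ) 1, Dr r c x) * l ^ (2 * k * c) ≤
      ∫ x : ℂ, (closedBall (0 : ℂ) 1).indicator (Dr (fun i => (l : ℂ) * r i) c) (l • x) := by
    rw [← integral_indicator measurableSet_closedBall, ← integral_mul_const]
    have i1 := (integrable_indicator_iff (measurableSet_closedBall (x := (0 : ℂ)) (ε := 1))).2
      (Dr_int hk hβ hc hβ1 r 1)
    have i2 := (integrable_indicator_iff (measurableSet_closedBall (x := (0 : ℂ)) (ε := 1))).2
      (Dr_int hk hβ hc hβ1 (fun i => (l : ℂ) * r i) 1)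
    refine integral_mono (i1.mul_const _) (i2.comp_smul hl.ne') fun x => ?_
    simp only
    by_cases hx : x ∈ closedBall (0 : ℂ) 1
    · have hlx : l • x ∈ closedBall (0 : ℂ) 1 := by
        rw [mem_closedBall_zero_iff] at hx ⊢
        rw [norm_smul, Real.norm_eq_abs, abs_of_pos hl]
        calc l * ‖x‖ ≤ 1 * 1 := mul_le_mul hl1 hx (norm_nonneg _) zero_le_one
          _ = 1 := one_mul 1
      rw [indicator_of_mem hx, indicator_of_mem hlx, h3, mul_comm]
    · rw [indicator_of_notMem hx, zero_mul]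
      exact indicator_nonneg (fun y _ => Dr_nonneg hk _ c y) _
  rw [h1] at h4
  have h5 : l ^ (2 * k * c + 2) = l ^ (2 * k * c) * l ^ 2 := by
    rw [Real.rpow_add hl]
    norm_num
  rw [h5]
  calc l ^ (2 * k * c) * l ^ 2 * ∫ x in closedBall (0 : ℂ) 1, Dr r c x =
      l ^ 2 * ((∫ x in closedBall (0 : ℂ) 1, Dr r c x) * l ^ (2 * k * c)) := by ring
    _ ≤ l ^ 2 * ((l ^ 2)⁻¹ * ∫ x in closedBall (0 : ℂ) 1, Dr (fun i => (l : ℂ) * r i) c x) :=
        mul_le_mul_of_nonneg_left h4 (by positivity)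
    _ = _ := by
      rw [← mul_assoc, mul_inv_cancel₀ (by positivity), one_mul]

/-- the full data -/
structure Heavy2 (k d : ℕ) (f : MvPolynomial (Fin 3) ℂ) (A : EE → ℂ) (Y : EE → ℝ) : Prop
    extends Heavy k d f A Y where
  I3 : ∃ q : ℝ, 0 ≤ q ∧ q ≤ 2 ∧ LI fun t => ‖A t‖ ^ (2 * (-(3 / d : ℝ))) * Y t ^ q
  hA : ∀ (l : ℝ) (t : EE), A ((l : ℂ) • t) = (l : ℂ) ^ (d - k) * A t
  hf : ∀ (l : ℝ) (x : ℂ) (t : EE), ff f ((l : ℂ) * x, (l : ℂ) • t) = (l : ℂ) ^ d * ff f (x, t)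
  dist : ∃ (t : EE) (x x' : ℂ), A t ≠ 0 ∧ x ≠ x' ∧ ff f (x, t) = 0 ∧ ff f (x', t) = 0

/-- a small product has a small factor -/
lemma small_factor (r : Fin k → ℂ) (x : ℂ) {δ : ℝ} (hδ : 0 < δ)
    (h : ∏ i, ‖x - r i‖ < δ ^ k) : ∃ i, ‖x - r i‖ < δ := by
  by_contra h0
  push Not at h0
  have h1 : δ ^ k ≤ ∏ i, ‖x - r i‖ := by
    calc δ ^ k = ∏ _i : Fin k, δ := by rw [Finset.prod_const, Finset.card_univ, Fintype.card_fin]
      _ ≤ _ := Finset.prod_le_prod (fun i _ => hδ.le) fun i _ => h0 i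
  linarith

/-- **The uniform lower bound near a line with two different roots.** -/
theorem unif (H : Heavy2 k d f A Y) : ∃ (t0 : EE) (ε η : ℝ), 0 < ε ∧ 0 < η ∧
    ‖t0‖ + ε ≤ 1 ∧ 4 * ε ≤ ‖t0‖ ∧ ∀ u ∈ ball t0 ε, A u ≠ 0 ∧
      ∀ c : ℝ, -(3 / d : ℝ) < c → c ≤ -(3 / d : ℝ) / 2 → ∀ r : Fin k → ℂ,
        (∀ x, ff f (x, u) = A u * ∏ i, (x - r i)) →
          η ≤ ∫ x in closedBall (0 : ℂ) 1, Dr r c x := by
  have hdR := H.toHeavy.dpos
  have hk := H.hk
  have hkR : (0 : ℝ) < k := by exact_mod_cast hk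
  have hkd := H.hd
  obtain ⟨t', x', y', hA', hxy', hx', hy'⟩ := H.dist
  -- scale
  set l : ℝ := 1 / (2 * (1 + ‖t'‖ + ‖x'‖ + ‖y'‖)) with hl
  have hden : 0 < 2 * (1 + ‖t'‖ + ‖x'‖ + ‖y'‖) := by positivity
  have hl0 : 0 < l := by positivity
  have hlC : (l : ℂ) ≠ 0 := by exact_mod_cast hl0.ne'
  have hsm : ∀ v : ℝ, 0 ≤ v → v ≤ 1 + ‖t'‖ + ‖x'‖ + ‖y'‖ → l * v ≤ 1 / 2 := by
    intro v _ hv2
    rw [hl, div_mul_eq_mul_div, one_mul, div_le_iff₀ hden]
    linarith
  set t0 : EE := (l : ℂ) • t' with ht0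
  set x1 : ℂ := (l : ℂ) * x' with hx1
  set x2 : ℂ := (l : ℂ) * y' with hx2
  have nt0 : ‖t0‖ = l * ‖t'‖ := by
    rw [ht0, norm_smul, Complex.norm_real, Real.norm_eq_abs, abs_of_pos hl0]
  have nx1 : ‖x1‖ ≤ 1 / 2 := by
    rw [hx1, norm_mul, Complex.norm_real, Real.norm_eq_abs, abs_of_pos hl0]
    refine hsm _ (norm_nonneg _) ?_
    have := norm_nonneg t'
    have := norm_nonneg y'
    linarith
  have hA0 : A t0 ≠ 0 := by
    rw [ht0, H.hA]
    exact mul_ne_zero (pow_ne_zero _ hlC) hA'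
  have hf1 : ff f (x1, t0) = 0 := by
    rw [hx1, ht0, H.hf, hx', mul_zero]
  have hf2 : ff f (x2, t0) = 0 := by
    rw [hx2, ht0, H.hf, hy', mul_zero]
  have hx12 : x1 ≠ x2 := by
    intro h
    exact hxy' (mul_left_cancel₀ hlC h)
  have hD : 0 < ‖x1 - x2‖ := norm_pos_iff.2 (sub_ne_zero.2 hx12)
  have hD1 : ‖x1 - x2‖ ≤ 1 := by
    have nx2 : ‖x2‖ ≤ 1 / 2 := by
      rw [hx2, norm_mul, Complex.norm_real, Real.norm_eq_abs, abs_of_pos hl0]
      refine hsm _ (norm_nonneg _) ?_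
      have := norm_nonneg t'
      have := norm_nonneg x'
      linarith
    have := norm_sub_le x1 x2
    linarith
  set δ : ℝ := ‖x1 - x2‖ / 16 with hδ
  have hδ0 : 0 < δ := by positivity
  have hδ1 : δ ≤ 1 / 16 := by rw [hδ]; linarith
  -- `t0 ≠ 0`
  have ht00 : 0 < ‖t0‖ := by
    rw [norm_pos_iff]
    intro h0
    refine hA0 ?_
    have h1 := H.hA 0 t0
    rw [Complex.ofReal_zero, zero_smul, zero_pow (by omega), zero_mul] at h1
    rw [h0]
    exact h1
  -- the neighbourhood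
  have cA := H.cA
  have cG : ∀ x : ℂ, Continuous fun u : EE => ff f (x, u) := fun x =>
    (ff_cont f).comp (continuous_const.prodMk continuous_id)
  have ev1 : ∀ᶠ u in 𝓝 t0, A u ≠ 0 := cA.continuousAt.eventually_ne hA0
  have ev2 : ∀ x : ℂ, ff f (x, t0) = 0 → ∀ᶠ u in 𝓝 t0, ‖ff f (x, u)‖ / ‖A u‖ < δ ^ k := by
    intro x hx
    have h1 : Tendsto (fun u => ‖ff f (x, u)‖ / ‖A u‖) (𝓝 t0) (𝓝 (‖ff f (x, t0)‖ / ‖A t0‖)) :=
      (((cG x).norm.tendsto t0).div (cA.norm.tendsto t0) (norm_ne_zero_iff.2 hA0))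
    rw [hx, norm_zero, zero_div] at h1
    exact h1.eventually (gt_mem_nhds (by positivity))
  obtain ⟨ε', hε', hball⟩ := Metric.eventually_nhds_iff_ball.1
    (ev1.and ((ev2 x1 hf1).and (ev2 x2 hf2)))
  set ε : ℝ := min ε' (‖t0‖ / 4) with hε
  have hε0 : 0 < ε := lt_min hε' (by positivity)
  -- the constant
  set θ : ℝ := 1 - (7 : ℝ) ^ (k * (-(3 / d : ℝ) / 2)) with hθ
  have hθ0 : 0 < θ := by
    have : (7 : ℝ) ^ (k * (-(3 / d : ℝ) / 2)) < 1 := by
      refine Real.rpow_lt_one_of_one_lt_of_neg (by norm_num) ?_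
      refine mul_neg_of_pos_of_neg hkR ?_
      have : 0 < 3 / (d : ℝ) := by positivity
      linarith
    rw [hθ]
    linarith
  set V : ℝ := (volume : Measure ℂ).real (ball x1 δ) with hV
  have hV0 : 0 < V := by
    rw [hV, Measure.real, ENNReal.toReal_pos_iff]
    exact ⟨measure_ball_pos _ _ hδ0, measure_ball_lt_top⟩
  refine ⟨t0, ε, (1 / k : ℝ) * θ ^ 2 * V, hε0, by positivity, ?_, ?_, ?_⟩
  · have h1 : ‖t0‖ ≤ 1 / 2 := by
      rw [nt0]
      refine hsm _ (norm_nonneg _) ?_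
      have := norm_nonneg x'
      have := norm_nonneg y'
      linarith
    have h2 : ε ≤ ‖t0‖ / 4 := min_le_right _ _
    linarith
  · have h2 : ε ≤ ‖t0‖ / 4 := min_le_right _ _
    linarith
  intro u hu
  obtain ⟨g1, g2, g3⟩ := hball u (ball_subset_ball (min_le_left _ _) hu)
  refine ⟨g1, fun c hc1 hc2 r hr => ?_⟩
  have hAu : 0 < ‖A u‖ := norm_pos_iff.2 g1
  have hprod : ∀ x, ‖ff f (x, u)‖ / ‖A u‖ = ∏ i, ‖x - r i‖ := by
    intro x
    rw [hr, norm_mul, norm_prod, mul_div_cancel_left₀ _ hAu.ne']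
  rw [hprod] at g2 g3
  obtain ⟨a, ha⟩ := small_factor r x1 hδ0 g2
  obtain ⟨b, hb⟩ := small_factor r x2 hδ0 g3
  have hx16 : ‖x1 - x2‖ = 16 * δ := by rw [hδ]; ring
  have hab : a ≠ b := by
    intro h
    rw [← h] at hb
    have h1 := norm_sub_le_norm_sub_add_norm_sub x1 (r a) x2
    rw [norm_sub_rev (r a) x2] at h1
    linarith
  have hc0 : c < 0 := by
    have : 0 < 3 / (d : ℝ) := by positivity
    linarith
  have hβ : -2 < 2 * (k : ℝ) * -(3 / d) := by
    have h1 := H.toHeavy.kd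
    have h2 : 2 * (k : ℝ) * -(3 / d) = -(6 * k / d) := by
      field_simp
      ring
    linarith
  have hβ1 : 2 * (k : ℝ) * -(3 / d) ≤ 2 * k * c := mul_le_mul_of_nonneg_left hc1.le (by positivity)
  have hI := Dr_int hk hβ hc0 hβ1 r 1
  have hsub : ball x1 δ ⊆ closedBall (0 : ℂ) 1 := by
    intro x hx
    rw [mem_ball, dist_eq_norm] at hx
    rw [mem_closedBall_zero_iff]
    have h1 := norm_add_le (x - x1) x1
    rw [sub_add_cancel] at h1
    linarith
  have h1 : ∫ x in ball x1 δ, Dr r c x ≤ ∫ x in closedBall (0 : ℂ) 1, Dr r c x :=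
    setIntegral_mono_set hI (Eventually.of_forall fun x => Dr_nonneg hk r c x)
      (LE.le.eventuallyLE hsub)
  refine le_trans ?_ h1
  have h2 : ∫ _x in ball x1 δ, (1 / k : ℝ) * θ ^ 2 ≤ ∫ x in ball x1 δ, Dr r c x := by
    refine setIntegral_mono_on_ae (integrableOn_const measure_ball_lt_top.ne) (hI.mono_set hsub)
      measurableSet_ball ?_
    have hae : ∀ᵐ x : ℂ, x ≠ r a := by
      have : (volume : Measure ℂ) {r a} = 0 := measure_singleton _
      exact compl_mem_ae_iff.2 this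
    filter_upwards [hae] with x hxa hx
    refine le_trans ?_ (Dr_low hk r c x hab)
    refine mul_le_mul_of_nonneg_left ?_ (by positivity)
    rw [mem_ball, dist_eq_norm] at hx
    have e1 : ‖x - r a‖ < 2 * δ := by
      have := norm_sub_le_norm_sub_add_norm_sub x x1 (r a)
      linarith
    have e2 : 14 * δ < ‖x - r b‖ := by
      have h3 := norm_sub_le_norm_sub_add_norm_sub x1 x x2
      have h4 := norm_sub_le_norm_sub_add_norm_sub x (r b) x2
      rw [norm_sub_rev x1 x] at h3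
      rw [norm_sub_rev (r b) x2] at h4
      linarith
    have p1 : 0 < ‖x - r a‖ := norm_pos_iff.2 (sub_ne_zero.2 hxa)
    have hkc : k * c ≤ 0 := mul_nonpos_of_nonneg_of_nonpos hkR.le hc0.le
    have e3 : (2 * δ) ^ (k * c) ≤ ‖x - r a‖ ^ (k * c) :=
      Real.rpow_le_rpow_of_nonpos p1 e1.le hkc
    have e4 : ‖x - r b‖ ^ (k * c) ≤ (14 * δ) ^ (k * c) :=
      Real.rpow_le_rpow_of_nonpos (by positivity) e2.le hkc
    have e5 : (14 * δ) ^ (k * c) = 7 ^ (k * c) * (2 * δ) ^ (k * c) := by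
      rw [← Real.mul_rpow (by norm_num) (by positivity)]
      congr 1
      ring
    have e6 : 1 ≤ (2 * δ) ^ (k * c) :=
      Real.one_le_rpow_of_pos_of_le_one_of_nonpos (by positivity) (by linarith) hkc
    have e7 : (7 : ℝ) ^ (k * c) ≤ 7 ^ (k * (-(3 / d : ℝ) / 2)) :=
      Real.rpow_le_rpow_of_exponent_le (by norm_num) (mul_le_mul_of_nonneg_left hc2 hkR.le)
    have e8 : θ ≤ ‖x - r a‖ ^ (k * c) - ‖x - r b‖ ^ (k * c) := by
      have : θ * 1 ≤ (1 - 7 ^ (k * c)) * (2 * δ) ^ (k * c) := by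
        refine mul_le_mul ?_ e6 zero_le_one ?_
        · rw [hθ]
          linarith
        · have : (7 : ℝ) ^ (k * (-(3 / d : ℝ) / 2)) < 1 := by
            rw [hθ] at hθ0
            linarith
          linarith
      rw [e5] at e4
      nlinarith
    exact pow_le_pow_left₀ hθ0.le e8 2
  refine le_trans (le_of_eq ?_) h2
  rw [setIntegral_const, smul_eq_mul, mul_comm]

end Pool.Agent.KS6_81.HP
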