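import Mathlib

set_option autoImplicit false

/-! # Pointwise estimates for the gap between the arithmetic and the geometric mean -/

namespace Pool.Agent.KS6_81.HP

open Set Filter Topology Metric MeasureTheory Finset

/-- a complex power of a positive number -/
lemma cpw {y : ℝ} (hy : 0 < y) (z : ℂ) : (y : ℂ) ^ z = Complex.exp ((Real.log y : ℂ) * z) := by
  rw [Complex.cpow_def_of_ne_zero (by exact_mod_cast hy.ne'), Complex.ofReal_log hy.le]

lemma exp_two (z : ℂ) : ‖Complex.exp z - 1 - z‖ ≤ ‖z‖ ^ 2 * Real.exp ‖z‖ := by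
  have h := Complex.norm_exp_sub_sum_le_norm_mul_exp z 2
  simp only [Finset.sum_range_succ, Finset.sum_range_zero, pow_zero, pow_one, Nat.factorial_zero,
    Nat.factorial_one, Nat.cast_one, div_one, zero_add] at h
  rwa [← sub_sub] at h

lemma log_bd {w : ℂ} {W : ℝ} (h1 : ‖w‖ ≤ W) (h2 : W ≤ 1 / 2) :
    |Real.log ‖1 - w‖| ≤ 2 * W := by
  have h0 : ‖-w‖ < 1 := by rw [norm_neg]; linarith
  have h := Complex.norm_log_one_add_sub_self_le h0
  rw [norm_neg] at h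
  have hw0 := norm_nonneg w
  have h3 : ‖w‖ ^ 2 * (1 - ‖w‖)⁻¹ / 2 ≤ ‖w‖ := by
    have h4 : (1 - ‖w‖)⁻¹ ≤ 2 := by
      rw [inv_le_comm₀ (by linarith) (by norm_num)]
      linarith
    have h5 : 0 ≤ (1 - ‖w‖)⁻¹ := inv_nonneg.2 (by linarith)
    nlinarith
  have h4 : ‖Complex.log (1 + -w)‖ ≤ 2 * W := by
    have h5 : ‖Complex.log (1 + -w)‖ ≤ ‖Complex.log (1 + -w) - -w‖ + ‖-w‖ := by
      have := norm_add_le (Complex.log (1 + -w) - -w) (-w)
      simpa using this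
    rw [norm_neg] at h5
    linarith
  have h6 := Complex.abs_re_le_norm (Complex.log (1 + -w))
  rw [Complex.log_re] at h6
  rw [sub_eq_add_neg]
  linarith

variable {k : ℕ}

/-- the gap -/
noncomputable def Dc (r : Fin k → ℂ) (c : ℂ) (x : ℂ) : ℂ :=
  (1 / (k : ℂ)) * ∑ i, ((‖x - r i‖ : ℝ) : ℂ) ^ (2 * k * c) -
    ((∏ i, ‖x - r i‖ : ℝ) : ℂ) ^ (2 * c)

/-- the estimate far from the roots -/
lemma far (hk : 0 < k) (r : Fin k → ℂ) (c : ℂ) {x : ℂ} (hx : x ≠ 0) {Y : ℝ}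
    (hY : ∀ i, ‖r i‖ ≤ Y) (hYx : 2 * Y ≤ ‖x‖) :
    ‖Dc r c x‖ ≤ 2 * (4 * k * ‖c‖) ^ 2 * Real.exp (4 * k * ‖c‖) * ‖x‖ ^ (2 * k * c.re) *
      (Y / ‖x‖) ^ 2 := by
  have hx0 : 0 < ‖x‖ := norm_pos_iff.2 hx
  have hkR : (0 : ℝ) < k := by exact_mod_cast hk
  have hkC : (k : ℂ) ≠ 0 := by exact_mod_cast hk.ne'
  have hY0 : 0 ≤ Y := (norm_nonneg _).trans (hY ⟨0, hk⟩)
  set W : ℝ := Y / ‖x‖ with hW
  have hW0 : 0 ≤ W := by positivity
  have hW1 : W ≤ 1 / 2 := by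
    rw [hW, div_le_iff₀ hx0]
    linarith
  set B : ℝ := 4 * k * ‖c‖ with hB
  have hB0 : 0 ≤ B := by positivity
  set L : Fin k → ℝ := fun i => Real.log ‖1 - r i / x‖ with hL
  have hwi : ∀ i, ‖r i / x‖ ≤ W := by
    intro i
    rw [norm_div, hW]
    exact div_le_div_of_nonneg_right (hY i) hx0.le
  have hLi : ∀ i, |L i| ≤ 2 * W := fun i => log_bd (hwi i) hW1
  have hne : ∀ i, 0 < ‖1 - r i / x‖ := by
    intro i
    rw [norm_pos_iff]
    intro h0
    have h1 : r i / x = 1 := (sub_eq_zero.1 h0).symm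
    have h2 := hwi i
    rw [h1, norm_one] at h2
    linarith
  have hfac : ∀ i, ‖x - r i‖ = ‖x‖ * ‖1 - r i / x‖ := by
    intro i
    rw [← norm_mul]
    congr 1
    field_simp
  have hpos : ∀ i, 0 < ‖x - r i‖ := by
    intro i
    rw [hfac i]
    exact mul_pos hx0 (hne i)
  set l : ℝ := Real.log ‖x‖ with hl
  have hlog : ∀ i, Real.log ‖x - r i‖ = l + L i := by
    intro i
    rw [hfac i, Real.log_mul hx0.ne' (hne i).ne']
  set z : Fin k → ℂ := fun i => 2 * k * c * L i with hz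
  set S : ℂ := 2 * c * ∑ i, (L i : ℂ) with hS
  have hSz : S = (1 / (k : ℂ)) * ∑ i, z i := by
    rw [hS, hz, ← Finset.mul_sum]
    field_simp
  have e1 : ∀ i, ((‖x - r i‖ : ℝ) : ℂ) ^ (2 * k * c) =
      Complex.exp (l * (2 * k * c)) * Complex.exp (z i) := by
    intro i
    rw [cpw (hpos i), hlog i, ← Complex.exp_add]
    congr 1
    rw [hz]
    push_cast
    ring
  have e2 : ((∏ i, ‖x - r i‖ : ℝ) : ℂ) ^ (2 * c) =
      Complex.exp (l * (2 * k * c)) * Complex.exp S := by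
    rw [cpw (Finset.prod_pos fun i _ => hpos i), Real.log_prod (fun i _ => (hpos i).ne'),
      ← Complex.exp_add]
    congr 1
    simp only [hlog]
    rw [Finset.sum_add_distrib, Finset.sum_const, Finset.card_univ, Fintype.card_fin, hS]
    push_cast
    simp only [nsmul_eq_mul]
    ring
  have e3 : Dc r c x = Complex.exp (l * (2 * k * c)) *
      ((1 / (k : ℂ)) * ∑ i, (Complex.exp (z i) - 1 - z i) - (Complex.exp S - 1 - S)) := by
    unfold Dc
    rw [e2]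
    simp only [e1]
    rw [← Finset.mul_sum]
    simp only [Finset.sum_sub_distrib]
    rw [Finset.sum_const, Finset.card_univ, Fintype.card_fin, mul_sub, mul_sub, ← hSz]
    simp only [nsmul_eq_mul, mul_one]
    have h9 : (1 / (k : ℂ)) * k = 1 := by field_simp
    linear_combination Complex.exp (l * (2 * k * c)) * h9
  have hzi : ∀ i, ‖z i‖ ≤ B * W := by
    intro i
    have : ‖z i‖ = 2 * k * ‖c‖ * |L i| := by
      simp [hz]
    rw [this, hB]
    have h1 := hLi i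
    have h2 : 0 ≤ 2 * k * ‖c‖ := by positivity
    nlinarith [mul_le_mul_of_nonneg_left h1 h2]
  have hS1 : ‖S‖ ≤ B * W := by
    rw [hSz, norm_mul]
    have h1 : ‖∑ i, z i‖ ≤ k * (B * W) := by
      refine (norm_sum_le _ _).trans ?_
      refine (Finset.sum_le_sum fun i _ => hzi i).trans ?_
      rw [Finset.sum_const, Finset.card_univ, Fintype.card_fin, nsmul_eq_mul]
    have h2 : ‖(1 / (k : ℂ))‖ = 1 / k := by
      rw [norm_div, norm_one, Complex.norm_natCast]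
    rw [h2]
    calc 1 / (k : ℝ) * ‖∑ i, z i‖ ≤ 1 / k * (k * (B * W)) :=
          mul_le_mul_of_nonneg_left h1 (by positivity)
      _ = B * W := by field_simp
  have hBW : B * W ≤ B := by nlinarith
  have hgen : ∀ y : ℂ, ‖y‖ ≤ B * W → ‖Complex.exp y - 1 - y‖ ≤ (B * W) ^ 2 * Real.exp B := by
    intro y hy
    refine (exp_two y).trans ?_
    refine mul_le_mul (pow_le_pow_left₀ (norm_nonneg _) hy 2)
      (Real.exp_le_exp.2 (hy.trans hBW)) (Real.exp_pos _).le (by positivity)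
  have hbr : ‖(1 / (k : ℂ)) * ∑ i, (Complex.exp (z i) - 1 - z i) - (Complex.exp S - 1 - S)‖ ≤
      2 * ((B * W) ^ 2 * Real.exp B) := by
    refine (norm_sub_le _ _).trans ?_
    rw [norm_mul]
    have h1 : ‖∑ i, (Complex.exp (z i) - 1 - z i)‖ ≤ k * ((B * W) ^ 2 * Real.exp B) := by
      refine (norm_sum_le _ _).trans ?_
      refine (Finset.sum_le_sum fun i _ => hgen _ (hzi i)).trans ?_
      rw [Finset.sum_const, Finset.card_univ, Fintype.card_fin, nsmul_eq_mul]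
    have h2 : ‖(1 / (k : ℂ))‖ = 1 / k := by
      rw [norm_div, norm_one, Complex.norm_natCast]
    rw [h2]
    have h3 := hgen S hS1
    have h4 : 1 / (k : ℝ) * ‖∑ i, (Complex.exp (z i) - 1 - z i)‖ ≤
        (B * W) ^ 2 * Real.exp B := by
      calc 1 / (k : ℝ) * ‖∑ i, (Complex.exp (z i) - 1 - z i)‖
          ≤ 1 / k * (k * ((B * W) ^ 2 * Real.exp B)) :=
            mul_le_mul_of_nonneg_left h1 (by positivity)
        _ = (B * W) ^ 2 * Real.exp B := by field_simp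
    linarith
  have hX : ‖Complex.exp (l * (2 * k * c))‖ = ‖x‖ ^ (2 * k * c.re) := by
    rw [Complex.norm_exp, Real.rpow_def_of_pos hx0]
    congr 1
    rw [Complex.re_ofReal_mul]
    congr 1
    simp
  rw [e3, norm_mul, hX]
  have h5 : 0 ≤ ‖x‖ ^ (2 * k * c.re) := Real.rpow_nonneg hx0.le _
  calc ‖x‖ ^ (2 * k * c.re) * _ ≤ ‖x‖ ^ (2 * k * c.re) * (2 * ((B * W) ^ 2 * Real.exp B)) :=
        mul_le_mul_of_nonneg_left hbr h5
    _ = _ := by ring

lemma re_2kc (c : ℂ) : (2 * k * c).re = 2 * k * c.re := by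
  simp

lemma re_2c (c : ℂ) : (2 * c).re = 2 * c.re := by
  simp

/-- the inequality of the arithmetic and the geometric mean -/
lemma amgm (hk : 0 < k) (r : Fin k → ℂ) (s : ℝ) (x : ℂ) :
    (∏ i, ‖x - r i‖) ^ (2 * s) ≤ (1 / (k : ℝ)) * ∑ i, ‖x - r i‖ ^ (2 * k * s) := by
  have hkR : (0 : ℝ) < k := by exact_mod_cast hk
  have h := Real.geom_mean_le_arith_mean_weighted (Finset.univ : Finset (Fin k))
    (fun _ => 1 / (k : ℝ)) (fun i => ‖x - r i‖ ^ (2 * k * s)) (fun i _ => by positivity)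
    (by
      rw [Finset.sum_const, Finset.card_univ, Fintype.card_fin, nsmul_eq_mul]
      field_simp) (fun i _ => Real.rpow_nonneg (norm_nonneg _) _)
  rw [← Real.finsetProd_rpow _ _ fun i _ => norm_nonneg _]
  rw [← Finset.mul_sum] at h
  refine le_trans (le_of_eq ?_) h
  refine Finset.prod_congr rfl fun i _ => ?_
  rw [← Real.rpow_mul (norm_nonneg _)]
  congr 1
  field_simp

lemma norm_pw {y : ℝ} (hy : 0 ≤ y) {z : ℂ} (hz : z.re ≠ 0) : ‖(y : ℂ) ^ z‖ = y ^ z.re :=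
  Complex.norm_cpow_eq_rpow_re_of_nonneg hy hz

/-- the estimate near the roots -/
lemma near (hk : 0 < k) (r : Fin k → ℂ) {c : ℂ} (hc : c.re < 0) (x : ℂ) :
    ‖Dc r c x‖ ≤ 2 * ((1 / (k : ℝ)) * ∑ i, ‖x - r i‖ ^ (2 * k * c.re)) := by
  have hkR : (0 : ℝ) < k := by exact_mod_cast hk
  have hne1 : (2 * k * c).re ≠ 0 := by
    rw [re_2kc]
    have : 2 * (k : ℝ) * c.re < 0 := mul_neg_of_pos_of_neg (by positivity) hc
    exact this.ne
  have hne2 : (2 * c).re ≠ 0 := by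
    rw [re_2c]
    linarith
  unfold Dc
  refine (norm_sub_le _ _).trans ?_
  have h1 : ‖(1 / (k : ℂ)) * ∑ i, ((‖x - r i‖ : ℝ) : ℂ) ^ (2 * k * c)‖ ≤
      (1 / (k : ℝ)) * ∑ i, ‖x - r i‖ ^ (2 * k * c.re) := by
    rw [norm_mul, norm_div, norm_one, Complex.norm_natCast]
    refine mul_le_mul_of_nonneg_left ?_ (by positivity)
    refine (norm_sum_le _ _).trans (le_of_eq ?_)
    refine Finset.sum_congr rfl fun i _ => ?_
    rw [norm_pw (norm_nonneg _) hne1, re_2kc]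
  have h2 : ‖((∏ i, ‖x - r i‖ : ℝ) : ℂ) ^ (2 * c)‖ ≤
      (1 / (k : ℝ)) * ∑ i, ‖x - r i‖ ^ (2 * k * c.re) := by
    rw [norm_pw (Finset.prod_nonneg fun i _ => norm_nonneg _) hne2, re_2c]
    exact amgm hk r c.re x
  linarith

/-- the pointwise estimate -/
lemma ptw (hk : 0 < k) (r : Fin k → ℂ) {c : ℂ} (hc : c.re < 0) {M : ℝ} (hM : ‖c‖ ≤ M) {x : ℂ}
    (hx : x ≠ 0) {Y : ℝ} (hY : ∀ i, ‖r i‖ ≤ Y) {q : ℝ} (hq0 : 0 ≤ q) (hq2 : q ≤ 2) :
    ‖Dc r c x‖ ≤ (2 * (4 * k * M) ^ 2 * Real.exp (4 * k * M) + 18) * Y ^ q *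
      (‖x‖ ^ (2 * k * c.re - q) + (1 / (k : ℝ)) * ∑ i, ‖x - r i‖ ^ (2 * k * c.re - q)) := by
  have hx0 : 0 < ‖x‖ := norm_pos_iff.2 hx
  have hkR : (0 : ℝ) < k := by exact_mod_cast hk
  have hY0 : 0 ≤ Y := (norm_nonneg _).trans (hY ⟨0, hk⟩)
  have hM0 : 0 ≤ M := (norm_nonneg _).trans hM
  have hYq : 0 ≤ Y ^ q := Real.rpow_nonneg hY0 _
  set C1 : ℝ := 2 * (4 * k * M) ^ 2 * Real.exp (4 * k * M) with hC1
  have hC10 : 0 ≤ C1 := by positivity
  have hs0 : 0 ≤ (1 / (k : ℝ)) * ∑ i, ‖x - r i‖ ^ (2 * k * c.re - q) :=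
    mul_nonneg (by positivity) (Finset.sum_nonneg fun i _ => Real.rpow_nonneg (norm_nonneg _) _)
  have hx1 : 0 ≤ ‖x‖ ^ (2 * k * c.re - q) := Real.rpow_nonneg hx0.le _
  rcases le_or_gt (2 * Y) ‖x‖ with h | h
  · have h1 := far hk r c hx hY h
    have h2 : 2 * (4 * k * ‖c‖) ^ 2 * Real.exp (4 * k * ‖c‖) ≤ C1 := by
      rw [hC1]
      have h3 : 4 * (k : ℝ) * ‖c‖ ≤ 4 * k * M := mul_le_mul_of_nonneg_left hM (by positivity)
      have h4 : (4 * (k : ℝ) * ‖c‖) ^ 2 ≤ (4 * k * M) ^ 2 :=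
        pow_le_pow_left₀ (by positivity) h3 2
      exact mul_le_mul (by linarith) (Real.exp_le_exp.2 h3) (Real.exp_pos _).le (by positivity)
    have h3 : (Y / ‖x‖) ^ 2 ≤ Y ^ q * ‖x‖ ^ (-q) := by
      have h4 : (Y / ‖x‖) ^ (2 : ℝ) ≤ (Y / ‖x‖) ^ q := by
        rcases hY0.eq_or_lt with h0 | h0
        · rw [← h0, zero_div, Real.zero_rpow (by norm_num)]
          exact Real.rpow_nonneg le_rfl _
        · refine Real.rpow_le_rpow_of_exponent_ge (by positivity) ?_ hq2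
          rw [div_le_one hx0]
          linarith
      rw [Real.rpow_two, Real.div_rpow hY0 hx0.le] at h4
      rw [Real.rpow_neg hx0.le, ← div_eq_mul_inv]
      exact h4
    have h4 : ‖x‖ ^ (2 * k * c.re) * (Y / ‖x‖) ^ 2 ≤ Y ^ q * ‖x‖ ^ (2 * k * c.re - q) := by
      calc ‖x‖ ^ (2 * k * c.re) * (Y / ‖x‖) ^ 2 ≤
          ‖x‖ ^ (2 * k * c.re) * (Y ^ q * ‖x‖ ^ (-q)) :=
            mul_le_mul_of_nonneg_left h3 (Real.rpow_nonneg hx0.le _)
        _ = Y ^ q * (‖x‖ ^ (2 * k * c.re) * ‖x‖ ^ (-q)) := by ring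
        _ = Y ^ q * ‖x‖ ^ (2 * k * c.re - q) := by
          rw [← Real.rpow_add hx0, sub_eq_add_neg]
    have h5 : 0 ≤ ‖x‖ ^ (2 * k * c.re) * (Y / ‖x‖) ^ 2 := by positivity
    calc ‖Dc r c x‖ ≤ 2 * (4 * k * ‖c‖) ^ 2 * Real.exp (4 * k * ‖c‖) *
          (‖x‖ ^ (2 * k * c.re) * (Y / ‖x‖) ^ 2) := by rw [← mul_assoc]; exact h1
      _ ≤ C1 * (‖x‖ ^ (2 * k * c.re) * (Y / ‖x‖) ^ 2) := mul_le_mul_of_nonneg_right h2 h5
      _ ≤ C1 * (Y ^ q * ‖x‖ ^ (2 * k * c.re - q)) := mul_le_mul_of_nonneg_left h4 hC10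
      _ = C1 * Y ^ q * ‖x‖ ^ (2 * k * c.re - q) := by ring
      _ ≤ (C1 + 18) * Y ^ q * (‖x‖ ^ (2 * k * c.re - q) +
          (1 / (k : ℝ)) * ∑ i, ‖x - r i‖ ^ (2 * k * c.re - q)) := by
        refine mul_le_mul ?_ (by linarith) hx1 (by positivity)
        exact mul_le_mul_of_nonneg_right (by linarith) hYq
  · have hYp : 0 < Y := by linarith
    have h1 := near hk r hc x
    have h2 : ∀ i, ‖x - r i‖ ^ (2 * k * c.re) ≤ 9 * Y ^ q * ‖x - r i‖ ^ (2 * k * c.re - q) := by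
      intro i
      rcases (norm_nonneg (x - r i)).eq_or_lt with h0 | h0
      · rw [← h0, Real.zero_rpow (mul_neg_of_pos_of_neg (by positivity) hc).ne]
        exact mul_nonneg (by positivity) (Real.rpow_nonneg le_rfl _)
      · have h3 : ‖x - r i‖ ≤ 3 * Y := by
          have := norm_sub_le x (r i)
          have := hY i
          linarith
        have h4 : ‖x - r i‖ ^ q ≤ 9 * Y ^ q := by
          calc ‖x - r i‖ ^ q ≤ (3 * Y) ^ q := Real.rpow_le_rpow h0.le h3 hq0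
            _ = 3 ^ q * Y ^ q := Real.mul_rpow (by norm_num) hY0
            _ ≤ 9 * Y ^ q := by
              refine mul_le_mul_of_nonneg_right ?_ hYq
              calc (3 : ℝ) ^ q ≤ 3 ^ (2 : ℝ) :=
                    Real.rpow_le_rpow_of_exponent_le (by norm_num) hq2
                _ = 9 := by norm_num
        have h5 : ‖x - r i‖ ^ (2 * k * c.re) =
            ‖x - r i‖ ^ q * ‖x - r i‖ ^ (2 * k * c.re - q) := by
          rw [← Real.rpow_add h0]
          congr 1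
          ring
        rw [h5]
        exact mul_le_mul_of_nonneg_right h4 (Real.rpow_nonneg h0.le _)
    have h3 : (1 / (k : ℝ)) * ∑ i, ‖x - r i‖ ^ (2 * k * c.re) ≤
        9 * Y ^ q * ((1 / (k : ℝ)) * ∑ i, ‖x - r i‖ ^ (2 * k * c.re - q)) := by
      calc (1 / (k : ℝ)) * ∑ i, ‖x - r i‖ ^ (2 * k * c.re) ≤
          (1 / (k : ℝ)) * ∑ i, 9 * Y ^ q * ‖x - r i‖ ^ (2 * k * c.re - q) :=
            mul_le_mul_of_nonneg_left (Finset.sum_le_sum fun i _ => h2 i) (by positivity)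
        _ = _ := by rw [← Finset.mul_sum]; ring
    calc ‖Dc r c x‖ ≤ 18 * Y ^ q * ((1 / (k : ℝ)) * ∑ i, ‖x - r i‖ ^ (2 * k * c.re - q)) := by
          linarith
      _ ≤ (C1 + 18) * Y ^ q * (‖x‖ ^ (2 * k * c.re - q) +
          (1 / (k : ℝ)) * ∑ i, ‖x - r i‖ ^ (2 * k * c.re - q)) := by
        refine mul_le_mul ?_ (by linarith) hs0 (by positivity)
        exact mul_le_mul_of_nonneg_right (by linarith) hYq

end Pool.Agent.KS6_81.HP
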