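import Pool.Agent.KS6_81.HP.One1

set_option autoImplicit false

/-! # Integrals over the lines -/

namespace Pool.Agent.KS6_81.HP

open Set Filter Topology Metric MeasureTheory

/-- the bump function -/
noncomputable def th0 : ContDiffBump (0 : ℂ) := ⟨1, 2, one_pos, one_lt_two⟩

lemma th0_neg (x : ℂ) : th0 (-x) = th0 x := th0.neg x

lemma th0_one {x : ℂ} (hx : ‖x‖ ≤ 1) : th0 x = 1 :=
  th0.one_of_mem_closedBall (mem_closedBall_zero_iff.2 hx)

lemma th0_zero {x : ℂ} (hx : 2 ≤ ‖x‖) : th0 x = 0 :=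
  th0.zero_of_le_dist (by rw [dist_zero_right]; exact hx)

lemma pw_le {y β α : ℝ} (hy : 0 ≤ y) (h1 : β ≤ α) (h2 : α ≤ 0) : y ^ α ≤ y ^ β + 1 := by
  have hb : 0 ≤ y ^ β := Real.rpow_nonneg hy _
  rcases hy.eq_or_lt with h0 | h0
  · rcases h2.eq_or_lt with h3 | h3
    · rw [h3, Real.rpow_zero]
      linarith
    · rw [← h0, Real.zero_rpow h3.ne]
      rw [← h0] at hb
      linarith
  · rcases le_or_gt y 1 with h3 | h3
    · have := Real.rpow_le_rpow_of_exponent_ge h0 h3 h1
      linarith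
    · have := Real.rpow_le_one_of_one_le_of_nonpos h3.le h2
      linarith

lemma locint {β : ℝ} (hβ : -2 < β) : LocallyIntegrable (fun y : ℂ => ‖y‖ ^ β) := by
  refine locallyIntegrable_of_norm_le_rpow (C := 1) (α := -β) ?_ ?_ ?_ ?_
  · rw [Complex.finrank_real_complex]
    norm_num
  · rw [Complex.finrank_real_complex]
    push_cast
    linarith
  · refine Eventually.of_forall fun x => ?_
    rw [Real.norm_eq_abs, abs_of_nonneg (Real.rpow_nonneg (norm_nonneg _) _), neg_neg, one_mul]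
  · exact (measurable_norm.pow_const β).aestronglyMeasurable

lemma int_ball {β : ℝ} (hβ : -2 < β) (a : ℂ) (R : ℝ) :
    IntegrableOn (fun x : ℂ => ‖x - a‖ ^ β) (closedBall 0 R) := by
  have h1 : IntegrableOn (fun y : ℂ => ‖y‖ ^ β) (closedBall (-a) R) :=
    (locint hβ).integrableOn_isCompact (isCompact_closedBall _ _)
  have h2 : MeasurePreserving (fun x : ℂ => x - a) volume volume := measurePreserving_sub_right _ a
  have h3 := (h2.integrableOn_comp_preimage (measurableEmbedding_subRight a)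
    (f := fun y : ℂ => ‖y‖ ^ β) (s := closedBall (-a) R)).2 h1
  refine IntegrableOn.mono_set h3 ?_
  intro x hx
  rw [mem_preimage, mem_closedBall, dist_eq_norm]
  rw [mem_closedBall_zero_iff] at hx
  simpa using hx

/-- uniform bound of the integrals -/
lemma Gint {β : ℝ} (hβ : -2 < β) (hβ0 : β ≤ 0) (R : ℝ) : ∃ C : ℝ, 0 ≤ C ∧ ∀ a : ℂ,
    IntegrableOn (fun x : ℂ => ‖x - a‖ ^ β + 1) (closedBall 0 R) ∧
    ∫ x in closedBall (0 : ℂ) R, (‖x - a‖ ^ β + 1) ≤ C := by
  have hI : IntegrableOn (fun y : ℂ => ‖y‖ ^ β) (closedBall 0 1) := by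
    have := int_ball hβ 0 1
    simpa using this
  have hJ : Integrable ((closedBall (0 : ℂ) 1).indicator fun y : ℂ => ‖y‖ ^ β) :=
    (integrable_indicator_iff measurableSet_closedBall).2 hI
  have hc : ∀ c : ℝ, IntegrableOn (fun _ : ℂ => c) (closedBall (0 : ℂ) R) := fun c =>
    integrableOn_const (measure_closedBall_lt_top).ne
  refine ⟨(∫ y, (closedBall (0 : ℂ) 1).indicator (fun y : ℂ => ‖y‖ ^ β) y) +
    ∫ x in closedBall (0 : ℂ) R, (2 : ℝ), ?_, fun a => ⟨?_, ?_⟩⟩
  · refine add_nonneg (integral_nonneg fun y => ?_) (integral_nonneg fun y => by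
      show (0 : ℝ) ≤ 2
      norm_num)
    exact indicator_nonneg (fun y _ => Real.rpow_nonneg (norm_nonneg _) _) y
  · exact (int_ball hβ a R).add (hc 1)
  · have hJa : Integrable fun x : ℂ => (closedBall (0 : ℂ) 1).indicator (fun y : ℂ => ‖y‖ ^ β)
        (x - a) := hJ.comp_sub_right a
    have h1 : ∫ x in closedBall (0 : ℂ) R, (‖x - a‖ ^ β + 1) ≤
        ∫ x in closedBall (0 : ℂ) R, ((closedBall (0 : ℂ) 1).indicator (fun y : ℂ => ‖y‖ ^ β)
          (x - a) + 2) := by
      refine integral_mono ((int_ball hβ a R).add (hc 1)) (hJa.integrableOn.add (hc 2)) ?_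
      intro x
      show ‖x - a‖ ^ β + 1 ≤ _ + 2
      by_cases hx : x - a ∈ closedBall (0 : ℂ) 1
      · rw [indicator_of_mem hx]
        linarith
      · rw [indicator_of_notMem hx]
        rw [mem_closedBall_zero_iff, not_le] at hx
        have := Real.rpow_le_one_of_one_le_of_nonpos hx.le hβ0
        linarith
    refine h1.trans ?_
    rw [integral_add hJa.integrableOn (hc 2)]
    have h2 : ∫ x in closedBall (0 : ℂ) R, (closedBall (0 : ℂ) 1).indicator
        (fun y : ℂ => ‖y‖ ^ β) (x - a) ≤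
        ∫ x, (closedBall (0 : ℂ) 1).indicator (fun y : ℂ => ‖y‖ ^ β) (x - a) := by
      refine setIntegral_le_integral hJa (Eventually.of_forall fun x => ?_)
      exact indicator_nonneg (fun y _ => Real.rpow_nonneg (norm_nonneg _) _) (x - a)
    have h3 := integral_sub_right_eq_self (μ := (volume : Measure ℂ))
      (fun y => (closedBall (0 : ℂ) 1).indicator (fun y : ℂ => ‖y‖ ^ β) y) a
    linarith

/-- the second difference of the bump function -/
lemma sd : ∃ L : ℝ, 0 ≤ L ∧ ∀ y a : ℂ, |th0 (y + a) + th0 (y - a) - 2 * th0 y| ≤ L * ‖a‖ ^ 2 := by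
  have hsm : ContDiff ℝ 2 (fun x : ℂ => th0 x) := th0.contDiff
  have hcs : HasCompactSupport (fun x : ℂ => th0 x) := th0.hasCompactSupport
  have h1 : ContDiff ℝ 1 (fderiv ℝ (fun x : ℂ => th0 x)) := hsm.fderiv_right (by norm_num)
  obtain ⟨K, hK⟩ := ContDiff.lipschitzWith_of_hasCompactSupport (hcs.fderiv (𝕜 := ℝ)) h1
    one_ne_zero
  refine ⟨2 * K, by positivity, fun y a => ?_⟩
  set f : ℂ → ℝ := fun x => th0 x with hf
  have hd : ∀ x, HasFDerivAt f (fderiv ℝ f x) x := fun x =>
    (hsm.differentiable (by norm_num)).differentiableAt.hasFDerivAt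
  set g : ℝ → ℝ := fun s => f (y + s • a) + f (y - s • a) with hg
  have hg1 : ∀ s, HasDerivAt g (fderiv ℝ f (y + s • a) a - fderiv ℝ f (y - s • a) a) s := by
    intro s
    have e1 : HasDerivAt (fun s : ℝ => y + s • a) a s := by
      have := ((hasDerivAt_id s).smul_const a).const_add y
      simpa using this
    have e2 : HasDerivAt (fun s : ℝ => y - s • a) (-a) s := by
      have := ((hasDerivAt_id s).smul_const a).const_sub y
      simpa using this
    have e3 := (hd (y + s • a)).comp_hasDerivAt s e1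
    have e4 := (hd (y - s • a)).comp_hasDerivAt s e2
    have e5 := e3.add e4
    rw [map_neg, ← sub_eq_add_neg] at e5
    exact e5
  have hb : ∀ s ∈ Ico (0 : ℝ) 1, ‖fderiv ℝ f (y + s • a) a - fderiv ℝ f (y - s • a) a‖ ≤
      2 * K * ‖a‖ ^ 2 := by
    intro s hs
    rw [← sub_apply]
    refine (ContinuousLinearMap.le_opNorm _ _).trans ?_
    have e1 := hK.dist_le_mul (y + s • a) (y - s • a)
    rw [dist_eq_norm, dist_eq_norm] at e1
    have e2 : y + s • a - (y - s • a) = (2 * s) • a := by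
      rw [mul_smul, two_smul]
      abel
    rw [e2, norm_smul, Real.norm_eq_abs, abs_of_nonneg (by linarith [hs.1])] at e1
    have e3 : (K : ℝ) * (2 * s * ‖a‖) ≤ 2 * K * ‖a‖ := by
      have : s * ‖a‖ ≤ 1 * ‖a‖ := mul_le_mul_of_nonneg_right hs.2.le (norm_nonneg _)
      have hK0 : (0 : ℝ) ≤ K := K.2
      nlinarith
    calc _ ≤ 2 * K * ‖a‖ * ‖a‖ := mul_le_mul_of_nonneg_right (e1.trans e3) (norm_nonneg _)
      _ = _ := by ring
  have h2 := norm_image_sub_le_of_norm_deriv_le_segment_01' (f := g)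
    (fun s _ => (hg1 s).hasDerivWithinAt) hb
  rw [Real.norm_eq_abs] at h2
  have e1 : g 1 - g 0 = th0 (y + a) + th0 (y - a) - 2 * th0 y := by
    rw [hg]
    simp only [one_smul, zero_smul, add_zero, sub_zero, hf]
    ring
  rw [← e1]
  exact h2

/-- the kernels -/
structure Ker (β : ℝ) (K : ℂ → ℂ) : Prop where
  me : Measurable K
  ev : ∀ y, K (-y) = K y
  bd : ∀ y, ‖K y‖ ≤ ‖y‖ ^ β + 1

/-- the convolution -/
noncomputable def HH (K : ℂ → ℂ) (a : ℂ) : ℂ := ∫ x, K (x - a) * (th0 x : ℂ)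

lemma th0_meas : Measurable fun x : ℂ => ((th0 x : ℝ) : ℂ) :=
  Complex.measurable_ofReal.comp th0.continuous.measurable

/-- functions which vanish outside of a ball -/
lemma int_of_bd {β : ℝ} (hβ : -2 < β) {F : ℂ → ℂ} (hF : Measurable F) {R C : ℝ}
    {a : ℂ} (h1 : ∀ x, ‖x‖ ≤ R → ‖F x‖ ≤ C * (‖x - a‖ ^ β + 1)) (h2 : ∀ x, R < ‖x‖ → F x = 0) :
    Integrable F := by
  have h3 : IntegrableOn (fun x : ℂ => C * (‖x - a‖ ^ β + 1)) (closedBall 0 R) := by
    refine Integrable.const_mul ?_ C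
    exact (int_ball hβ a R).add (integrableOn_const (measure_closedBall_lt_top).ne)
  have h4 := (integrable_indicator_iff measurableSet_closedBall).2 h3
  refine Integrable.mono' h4 hF.aestronglyMeasurable (Eventually.of_forall fun x => ?_)
  by_cases hx : x ∈ closedBall (0 : ℂ) R
  · rw [indicator_of_mem hx]
    exact h1 x (mem_closedBall_zero_iff.1 hx)
  · rw [indicator_of_notMem hx]
    rw [mem_closedBall_zero_iff, not_le] at hx
    rw [h2 x hx, norm_zero]

lemma HH_int {β : ℝ} (hβ : -2 < β) {K : ℂ → ℂ} (hK : Ker β K) (a b : ℂ) :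
    Integrable fun x => K (x - a) * (th0 (x - b) : ℂ) := by
  refine int_of_bd hβ (R := ‖b‖ + 2) (C := 1) (a := a) ?_ ?_ ?_
  · exact (hK.me.comp (measurable_id.sub_const a)).mul
      (th0_meas.comp (measurable_id.sub_const b))
  · intro x _
    rw [norm_mul, Complex.norm_real, Real.norm_eq_abs, abs_of_nonneg th0.nonneg, one_mul]
    refine (mul_le_of_le_one_right (norm_nonneg _) th0.le_one).trans (hK.bd _)
  · intro x hx
    have h1 : 2 ≤ ‖x - b‖ := by
      have := norm_sub_norm_le x b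
      linarith
    rw [th0_zero h1]
    simp

lemma HH_eq {β : ℝ} (hβ : -2 < β) {K : ℂ → ℂ} (hK : Ker β K) (a : ℂ) :
    2 * HH K a = ∫ y, K y * ((th0 (y + a) + th0 (y - a) : ℝ) : ℂ) := by
  have e1 : HH K a = ∫ y, K y * (th0 (y + a) : ℂ) := by
    unfold HH
    rw [← integral_add_right_eq_self (fun x => K (x - a) * (th0 x : ℂ)) a]
    simp
  have e2 : HH K a = ∫ y, K y * (th0 (y - a) : ℂ) := by
    rw [e1, ← integral_neg_eq_self]
    refine integral_congr_ae (Eventually.of_forall fun y => ?_)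
    simp only
    rw [hK.ev, ← th0_neg, neg_add, neg_neg, sub_eq_add_neg]
  have i1 : Integrable fun y => K y * (th0 (y + a) : ℂ) := by
    have := HH_int hβ hK 0 (-a)
    simpa using this
  have i2 : Integrable fun y => K y * (th0 (y - a) : ℂ) := by
    have := HH_int hβ hK 0 a
    simpa using this
  rw [two_mul]
  nth_rewrite 1 [e1]
  rw [e2, ← integral_add i1 i2]
  refine integral_congr_ae (Eventually.of_forall fun y => ?_)
  simp only
  push_cast
  ring

/-- the estimate of the convolution -/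
lemma HH_main {β : ℝ} (hβ : -2 < β) (hβ0 : β ≤ 0) : ∃ C : ℝ, 0 ≤ C ∧ ∀ K : ℂ → ℂ, Ker β K →
    ∀ a : ℂ, ∀ q : ℝ, 0 ≤ q → q ≤ 2 → ‖HH K a - HH K 0‖ ≤ C * ‖a‖ ^ q := by
  obtain ⟨C1, hC10, hC1⟩ := Gint hβ hβ0 3
  obtain ⟨L, hL0, hL⟩ := sd
  have hbd : ∀ K : ℂ → ℂ, Ker β K → ∀ a : ℂ, ‖HH K a‖ ≤ C1 := by
    intro K hK a
    unfold HH
    refine (norm_integral_le_integral_norm _).trans ?_
    have h1 : (∫ x in closedBall (0 : ℂ) 3, (‖x - a‖ ^ β + 1)) =
        ∫ x, (closedBall (0 : ℂ) 3).indicator (fun x => ‖x - a‖ ^ β + 1) x :=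
      (integral_indicator measurableSet_closedBall).symm
    refine le_trans ?_ (hC1 a).2
    rw [h1]
    refine integral_mono_of_nonneg (Eventually.of_forall fun x => norm_nonneg _)
      ((integrable_indicator_iff measurableSet_closedBall).2 (hC1 a).1)
      (Eventually.of_forall fun x => ?_)
    show ‖K (x - a) * (th0 x : ℂ)‖ ≤ _
    by_cases hx : x ∈ closedBall (0 : ℂ) 3
    · rw [indicator_of_mem hx, norm_mul, Complex.norm_real, Real.norm_eq_abs,
        abs_of_nonneg th0.nonneg]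
      exact (mul_le_of_le_one_right (norm_nonneg _) th0.le_one).trans (hK.bd _)
    · rw [indicator_of_notMem hx]
      rw [mem_closedBall_zero_iff, not_le] at hx
      rw [th0_zero (by linarith)]
      simp
  refine ⟨L * C1 + 2 * C1, by positivity, fun K hK a q hq0 hq2 => ?_⟩
  rcases le_or_gt ‖a‖ 1 with ha | ha
  · have h1 : 2 * (HH K a - HH K 0) =
        ∫ y, K y * ((th0 (y + a) + th0 (y - a) - 2 * th0 y : ℝ) : ℂ) := by
      rw [mul_sub, HH_eq hβ hK, HH_eq hβ hK]
      have i1 : Integrable fun y => K y * ((th0 (y + a) + th0 (y - a) : ℝ) : ℂ) := by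
        have j1 := HH_int hβ hK 0 (-a)
        have j2 := HH_int hβ hK 0 a
        refine (j1.add j2).congr (Eventually.of_forall fun y => ?_)
        simp only [Pi.add_apply, sub_zero, sub_neg_eq_add]
        push_cast
        ring
      have i2 : Integrable fun y => K y * ((th0 (y + 0) + th0 (y - 0) : ℝ) : ℂ) := by
        have j1 := HH_int hβ hK 0 0
        refine (j1.add j1).congr (Eventually.of_forall fun y => ?_)
        simp only [Pi.add_apply, sub_zero, add_zero]
        push_cast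
        ring
      rw [← integral_sub i1 i2]
      refine integral_congr_ae (Eventually.of_forall fun y => ?_)
      simp only [add_zero, sub_zero]
      push_cast
      ring
    have h2 : ‖∫ y, K y * ((th0 (y + a) + th0 (y - a) - 2 * th0 y : ℝ) : ℂ)‖ ≤
        L * ‖a‖ ^ 2 * C1 := by
      refine (norm_integral_le_integral_norm _).trans ?_
      have h3 : L * ‖a‖ ^ 2 * (∫ x in closedBall (0 : ℂ) 3, (‖x - 0‖ ^ β + 1)) =
          ∫ x, (closedBall (0 : ℂ) 3).indicator (fun x => L * ‖a‖ ^ 2 * (‖x - 0‖ ^ β + 1)) x := by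
        rw [integral_indicator measurableSet_closedBall, integral_const_mul]
      refine le_trans ?_ (mul_le_mul_of_nonneg_left (hC1 0).2 (by positivity))
      rw [h3]
      refine integral_mono_of_nonneg (Eventually.of_forall fun x => norm_nonneg _)
        ((integrable_indicator_iff measurableSet_closedBall).2 ((hC1 0).1.const_mul _))
        (Eventually.of_forall fun y => ?_)
      show ‖K y * ((th0 (y + a) + th0 (y - a) - 2 * th0 y : ℝ) : ℂ)‖ ≤ _
      by_cases hx : y ∈ closedBall (0 : ℂ) 3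
      · rw [indicator_of_mem hx, norm_mul, Complex.norm_real, Real.norm_eq_abs, sub_zero,
          mul_comm]
        exact mul_le_mul (hL y a) (hK.bd y) (norm_nonneg _) (by positivity)
      · rw [indicator_of_notMem hx]
        rw [mem_closedBall_zero_iff, not_le] at hx
        have e1 : 2 ≤ ‖y + a‖ := by
          have := norm_sub_norm_le y (-a)
          rw [norm_neg, sub_neg_eq_add] at this
          linarith
        have e2 : 2 ≤ ‖y - a‖ := by
          have := norm_sub_norm_le y a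
          linarith
        rw [th0_zero e1, th0_zero e2, th0_zero (by linarith)]
        simp
    have h3 : 2 * ‖HH K a - HH K 0‖ ≤ L * ‖a‖ ^ 2 * C1 := by
      have : ‖2 * (HH K a - HH K 0)‖ = 2 * ‖HH K a - HH K 0‖ := by
        rw [norm_mul]
        norm_num
      rw [← this, h1]
      exact h2
    have h4 : ‖a‖ ^ 2 ≤ ‖a‖ ^ q := by
      rcases (norm_nonneg a).eq_or_lt with h0 | h0
      · rw [← h0]
        simp only [ne_eq, OfNat.ofNat_ne_zero, not_false_eq_true, zero_pow]
        exact Real.rpow_nonneg le_rfl _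
      · rw [← Real.rpow_two]
        exact Real.rpow_le_rpow_of_exponent_ge h0 ha hq2
    have h5 : L * ‖a‖ ^ 2 * C1 ≤ L * ‖a‖ ^ q * C1 :=
      mul_le_mul_of_nonneg_right (mul_le_mul_of_nonneg_left h4 hL0) hC10
    have h6 : 0 ≤ ‖a‖ ^ q := Real.rpow_nonneg (norm_nonneg _) _
    have h7 : 0 ≤ L * ‖a‖ ^ q * C1 := by positivity
    nlinarith [mul_nonneg hC10 h6]
  · have h1 : ‖HH K a - HH K 0‖ ≤ 2 * C1 := by
      refine (norm_sub_le _ _).trans ?_
      have := hbd K hK a
      have := hbd K hK 0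
      linarith
    have h2 : 1 ≤ ‖a‖ ^ q := Real.one_le_rpow ha.le hq0
    have h3 : 0 ≤ L * C1 := by positivity
    nlinarith [mul_nonneg hC10 (by linarith : (0 : ℝ) ≤ ‖a‖ ^ q - 1),
      mul_nonneg h3 (by linarith : (0 : ℝ) ≤ ‖a‖ ^ q)]

end Pool.Agent.KS6_81.HP
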