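import Pool.Agent.KS6_81.HP.One2

set_option autoImplicit false

/-! # The integral over a line: upper and lower estimate -/

namespace Pool.Agent.KS6_81.HP

open Set Filter Topology Metric MeasureTheory

/-- the power of the absolute value -/
noncomputable def Kc (k : ℕ) (c : ℂ) (y : ℂ) : ℂ := ((‖y‖ : ℝ) : ℂ) ^ (2 * k * c)

/-- the test function on the line -/
noncomputable def th (k : ℕ) (c : ℂ) (x : ℂ) : ℂ :=
  ((th0 (x / 2) : ℝ) : ℂ) - (2 : ℂ) ^ (2 * k * c + 2) * ((th0 x : ℝ) : ℂ)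

lemma Kc_ker {k : ℕ} (hk : 0 < k) {c : ℂ} (hc : c.re < 0) {β : ℝ} (hβ : β ≤ 2 * k * c.re) :
    Ker β (Kc k c) where
  me := (Complex.measurable_ofReal.comp measurable_norm).pow_const _
  ev y := by
    unfold Kc
    rw [norm_neg]
  bd y := by
    unfold Kc
    have hkR : (0 : ℝ) < k := by exact_mod_cast hk
    have h1 : 2 * (k : ℝ) * c.re < 0 := mul_neg_of_pos_of_neg (by positivity) hc
    rw [norm_pw (norm_nonneg _) (by rw [re_2kc]; exact h1.ne), re_2kc]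
    exact pw_le (norm_nonneg _) hβ h1.le

lemma two_pw (k : ℕ) {c : ℂ} (hc : c.re < 0) : ‖(2 : ℂ) ^ (2 * k * c + 2)‖ ≤ 4 := by
  have h1 : (2 : ℂ) = ((2 : ℝ) : ℂ) := by norm_num
  rw [h1, Complex.norm_cpow_eq_rpow_re_of_pos (by norm_num)]
  have h2 : (((2 : ℝ) : ℂ) * k * c + ((2 : ℝ) : ℂ)).re = 2 * k * c.re + 2 := by
    simp
  rw [h2]
  have h3 : 2 * (k : ℝ) * c.re + 2 ≤ 2 := by
    have : 0 ≤ 2 * (k : ℝ) := by positivity
    nlinarith
  calc (2 : ℝ) ^ (2 * (k : ℝ) * c.re + 2) ≤ 2 ^ (2 : ℝ) :=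
        Real.rpow_le_rpow_of_exponent_le (by norm_num) h3
    _ = 4 := by norm_num

lemma th_bd (k : ℕ) {c : ℂ} (hc : c.re < 0) (x : ℂ) : ‖th k c x‖ ≤ 5 := by
  unfold th
  refine (norm_sub_le _ _).trans ?_
  rw [norm_mul, Complex.norm_real, Complex.norm_real, Real.norm_eq_abs, Real.norm_eq_abs,
    abs_of_nonneg th0.nonneg, abs_of_nonneg th0.nonneg]
  have h1 := th0.le_one (x := x / 2)
  have h2 := th0.le_one (x := x)
  have h3 := two_pw k hc
  have h4 : ‖(2 : ℂ) ^ (2 * k * c + 2)‖ * th0 x ≤ 4 * 1 :=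
    mul_le_mul h3 h2 th0.nonneg (by norm_num)
  linarith

lemma th_zero (k : ℕ) (c : ℂ) {x : ℂ} (hx : 4 ≤ ‖x‖) : th k c x = 0 := by
  unfold th
  have h1 : 2 ≤ ‖x / 2‖ := by
    rw [norm_div]
    norm_num
    linarith
  rw [th0_zero h1, th0_zero (by linarith)]
  simp

lemma th_meas (k : ℕ) (c : ℂ) : Measurable (th k c) := by
  unfold th
  exact (th0_meas.comp (measurable_id.div_const 2)).sub (measurable_const.mul th0_meas)

/-- the scaling identity -/
lemma scal (k : ℕ) (c a : ℂ) :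
    ∫ x, Kc k c (x - a) * ((th0 (x / 2) : ℝ) : ℂ) =
      (2 : ℂ) ^ (2 * k * c + 2) * HH (Kc k c) (a / 2) := by
  have h1 := Measure.integral_comp_smul (μ := (volume : Measure ℂ))
    (fun x : ℂ => Kc k c (x - a) * ((th0 (x / 2) : ℝ) : ℂ)) (2 : ℝ)
  rw [Complex.finrank_real_complex] at h1
  have h2 : |((2 : ℝ) ^ 2)⁻¹| = 1 / 4 := by norm_num
  rw [h2] at h1
  have h3 : ∀ x : ℂ, Kc k c ((2 : ℝ) • x - a) * ((th0 (((2 : ℝ) • x) / 2) : ℝ) : ℂ) =
      (2 : ℂ) ^ (2 * k * c) * (Kc k c (x - a / 2) * ((th0 x : ℝ) : ℂ)) := by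
    intro x
    have e1 : ((2 : ℝ) • x) / 2 = x := by
      rw [Complex.real_smul]
      push_cast
      field_simp
    have e2 : (2 : ℝ) • x - a = 2 * (x - a / 2) := by
      rw [Complex.real_smul]
      push_cast
      ring
    have e3 : Kc k c (2 * (x - a / 2)) = (2 : ℂ) ^ (2 * k * c) * Kc k c (x - a / 2) := by
      unfold Kc
      rw [norm_mul]
      have : ‖(2 : ℂ)‖ = 2 := by norm_num
      rw [this, Complex.ofReal_mul, Complex.mul_cpow_ofReal_nonneg (by norm_num) (norm_nonneg _)]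
      norm_num
    rw [e1, e2, e3]
    ring
  simp only [h3] at h1
  rw [integral_const_mul] at h1
  have h4 : (2 : ℂ) ^ (2 * k * c + 2) = 4 * (2 : ℂ) ^ (2 * k * c) := by
    rw [Complex.cpow_add _ _ two_ne_zero]
    have : (2 : ℂ) ^ (2 : ℂ) = 4 := by
      rw [show (2 : ℂ) = ((2 : ℕ) : ℂ) by norm_num, Complex.cpow_natCast]
      norm_num
    rw [this]
    ring
  unfold HH
  rw [h4, mul_assoc, h1, Complex.real_smul]
  push_cast
  ring

/-- the main term -/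
noncomputable def hc (k : ℕ) (c a : ℂ) : ℂ := ∫ x, Kc k c (x - a) * th k c x

/-- the general estimate of integrability -/
lemma int_th {k : ℕ} {c : ℂ} (hc : c.re < 0) {β : ℝ} (hβ : -2 < β) {F : ℂ → ℂ}
    (hF : Measurable F) {C : ℝ} (a : ℂ) (h1 : ∀ x, ‖F x‖ ≤ C * (‖x - a‖ ^ β + 1)) :
    Integrable fun x => F x * th k c x := by
  refine int_of_bd hβ (hF.mul (th_meas k c)) (R := 4) (C := 5 * C) (a := a) ?_ ?_
  · intro x _
    rw [norm_mul]
    calc ‖F x‖ * ‖th k c x‖ ≤ (C * (‖x - a‖ ^ β + 1)) * 5 :=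
          mul_le_mul (h1 x) (th_bd k hc x) (norm_nonneg _) ((norm_nonneg _).trans (h1 x))
      _ = _ := by ring
  · intro x hx
    rw [th_zero k c hx.le, mul_zero]

lemma hc_eq {k : ℕ} (hk : 0 < k) {c : ℂ} (hcr : c.re < 0) {β : ℝ} (hβ : -2 < β)
    (hβ1 : β ≤ 2 * k * c.re) (a : ℂ) :
    hc k c a = (2 : ℂ) ^ (2 * k * c + 2) * (HH (Kc k c) (a / 2) - HH (Kc k c) a) := by
  have hK := Kc_ker hk hcr hβ1
  have e1 : ∀ x, Kc k c (x - a) * th k c x = Kc k c (x - a) * ((th0 (x / 2) : ℝ) : ℂ) -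
      (2 : ℂ) ^ (2 * k * c + 2) * (Kc k c (x - a) * ((th0 x : ℝ) : ℂ)) := by
    intro x
    unfold th
    ring
  have i2 : Integrable fun x => Kc k c (x - a) * ((th0 x : ℝ) : ℂ) := by
    have := HH_int hβ hK a 0
    simpa using this
  have i1 : Integrable fun x => Kc k c (x - a) * ((th0 (x / 2) : ℝ) : ℂ) := by
    refine int_of_bd hβ (R := 4) (C := 1) (a := a) ?_ ?_ ?_
    · exact (hK.me.comp (measurable_id.sub_const a)).mul
        (th0_meas.comp (measurable_id.div_const 2))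
    · intro x _
      rw [norm_mul, Complex.norm_real, Real.norm_eq_abs, abs_of_nonneg th0.nonneg, one_mul]
      exact (mul_le_of_le_one_right (norm_nonneg _) th0.le_one).trans (hK.bd _)
    · intro x hx
      have h1 : 2 ≤ ‖x / 2‖ := by
        rw [norm_div]
        norm_num
        linarith
      rw [th0_zero h1]
      simp
  unfold hc
  simp only [e1]
  rw [integral_sub i1 (i2.const_mul _), integral_const_mul, scal]
  unfold HH
  ring

/-- the estimate of the main term -/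
lemma hc_bd {k : ℕ} (hk : 0 < k) {β : ℝ} (hβ : -2 < β) (hβ0 : β ≤ 0) : ∃ C : ℝ, 0 ≤ C ∧
    ∀ c : ℂ, c.re < 0 → β ≤ 2 * k * c.re → ∀ a : ℂ, ∀ q : ℝ, 0 ≤ q → q ≤ 2 →
      ‖hc k c a‖ ≤ C * ‖a‖ ^ q := by
  obtain ⟨C, hC0, hC⟩ := HH_main hβ hβ0
  refine ⟨8 * C, by positivity, fun c hcr hβ1 a q hq0 hq2 => ?_⟩
  have hK := Kc_ker hk hcr hβ1
  rw [hc_eq hk hcr hβ hβ1, norm_mul]
  have h1 := hC _ hK (a / 2) q hq0 hq2
  have h2 := hC _ hK a q hq0 hq2
  have h3 : ‖a / 2‖ ^ q ≤ ‖a‖ ^ q := by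
    refine Real.rpow_le_rpow (norm_nonneg _) ?_ hq0
    rw [norm_div]
    have h0 := norm_nonneg a
    have h1 : ‖(2 : ℂ)‖ = 2 := by norm_num
    rw [h1]
    linarith
  have h4 : ‖HH (Kc k c) (a / 2) - HH (Kc k c) a‖ ≤ 2 * (C * ‖a‖ ^ q) := by
    have e : HH (Kc k c) (a / 2) - HH (Kc k c) a =
        (HH (Kc k c) (a / 2) - HH (Kc k c) 0) - (HH (Kc k c) a - HH (Kc k c) 0) := by ring
    rw [e]
    refine (norm_sub_le _ _).trans ?_
    have := mul_le_mul_of_nonneg_left h3 hC0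
    linarith
  calc ‖(2 : ℂ) ^ (2 * k * c + 2)‖ * ‖HH (Kc k c) (a / 2) - HH (Kc k c) a‖ ≤
      4 * (2 * (C * ‖a‖ ^ q)) := mul_le_mul (two_pw k hcr) h4 (norm_nonneg _) (by norm_num)
    _ = 8 * C * ‖a‖ ^ q := by ring

variable {k : ℕ}

/-- the integral over the line -/
noncomputable def Ic (r : Fin k → ℂ) (c : ℂ) : ℂ :=
  ∫ x, ((∏ i, ‖x - r i‖ : ℝ) : ℂ) ^ (2 * c) * th k c x

lemma prod_meas (r : Fin k → ℂ) : Measurable fun x : ℂ => ∏ i, ‖x - r i‖ :=
  Finset.measurable_prod _ fun _ _ => (measurable_id.sub_const _).norm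

lemma Dc_meas (r : Fin k → ℂ) (c : ℂ) : Measurable (Dc r c) := by
  unfold Dc
  refine (measurable_const.mul (Finset.measurable_sum _ fun i _ => ?_)).sub ?_
  · exact (Complex.measurable_ofReal.comp (measurable_id.sub_const _).norm).pow_const _
  · exact (Complex.measurable_ofReal.comp (prod_meas r)).pow_const _

/-- integrability of a function bounded by a sum of kernels -/
lemma int_sum {β : ℝ} (hβ : -2 < β) {F : ℂ → ℂ} (hF : Measurable F) {R C : ℝ} (r : Fin k → ℂ)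
    (h1 : ∀ x, ‖x‖ ≤ R → ‖F x‖ ≤ C * ∑ i : Fin k, (‖x - r i‖ ^ β + 1)) (h2 : ∀ x, R < ‖x‖ → F x = 0) :
    Integrable F := by
  have h3 : IntegrableOn (fun x : ℂ => C * ∑ i, (‖x - r i‖ ^ β + 1)) (closedBall 0 R) := by
    refine Integrable.const_mul ?_ C
    refine integrable_finsetSum _ fun i _ => ?_
    exact (int_ball hβ (r i) R).add (integrableOn_const (measure_closedBall_lt_top).ne)
  have h4 := (integrable_indicator_iff measurableSet_closedBall).2 h3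
  refine Integrable.mono' h4 hF.aestronglyMeasurable (Eventually.of_forall fun x => ?_)
  by_cases hx : x ∈ closedBall (0 : ℂ) R
  · rw [indicator_of_mem hx]
    exact h1 x (mem_closedBall_zero_iff.1 hx)
  · rw [indicator_of_notMem hx]
    rw [mem_closedBall_zero_iff, not_le] at hx
    rw [h2 x hx, norm_zero]

lemma Dc_th_int (hk : 0 < k) {β : ℝ} (hβ : -2 < β) {c : ℂ} (hcr : c.re < 0)
    (hβ1 : β ≤ 2 * k * c.re) (r : Fin k → ℂ) : Integrable fun x => Dc r c x * th k c x := by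
  have hkR : (0 : ℝ) < k := by exact_mod_cast hk
  have hneg : 2 * (k : ℝ) * c.re < 0 := mul_neg_of_pos_of_neg (by positivity) hcr
  refine int_sum hβ ((Dc_meas r c).mul (th_meas k c)) (R := 4) (C := 10 * (1 / k)) r ?_ ?_
  · intro x _
    rw [norm_mul]
    have h1 := near hk r hcr x
    have h2 : ∑ i, ‖x - r i‖ ^ (2 * k * c.re) ≤ ∑ i, (‖x - r i‖ ^ β + 1) :=
      Finset.sum_le_sum fun i _ => pw_le (norm_nonneg _) hβ1 hneg.le
    have h3 : ‖Dc r c x‖ ≤ 2 * (1 / k) * ∑ i, (‖x - r i‖ ^ β + 1) := by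
      refine h1.trans ?_
      have h4 : 1 / (k : ℝ) * ∑ i, ‖x - r i‖ ^ (2 * k * c.re) ≤
          1 / (k : ℝ) * ∑ i, (‖x - r i‖ ^ β + 1) := mul_le_mul_of_nonneg_left h2 (by positivity)
      linarith
    calc ‖Dc r c x‖ * ‖th k c x‖ ≤ (2 * (1 / k) * ∑ i, (‖x - r i‖ ^ β + 1)) * 5 :=
          mul_le_mul h3 (th_bd k hcr x) (norm_nonneg _) ((norm_nonneg _).trans h3)
      _ = _ := by ring
  · intro x hx
    rw [th_zero k c hx.le, mul_zero]

lemma Kc_th_int (hk : 0 < k) {β : ℝ} (hβ : -2 < β) {c : ℂ} (hcr : c.re < 0)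
    (hβ1 : β ≤ 2 * k * c.re) (a : ℂ) : Integrable fun x => Kc k c (x - a) * th k c x := by
  have hK := Kc_ker hk hcr hβ1
  refine int_th hcr hβ (hK.me.comp (measurable_id.sub_const a)) (C := 1) a fun x => ?_
  rw [one_mul]
  exact hK.bd _

/-- the decomposition -/
lemma Ic_eq (hk : 0 < k) {β : ℝ} (hβ : -2 < β) {c : ℂ} (hcr : c.re < 0)
    (hβ1 : β ≤ 2 * k * c.re) (r : Fin k → ℂ) :
    Ic r c = (1 / (k : ℂ)) * ∑ i, hc k c (r i) - ∫ x, Dc r c x * th k c x := by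
  have i1 : Integrable fun x => (1 / (k : ℂ)) * ∑ i, Kc k c (x - r i) * th k c x :=
    (integrable_finsetSum _ fun i _ => Kc_th_int hk hβ hcr hβ1 (r i)).const_mul _
  have i2 := Dc_th_int hk hβ hcr hβ1 r
  have e1 : (1 / (k : ℂ)) * ∑ i, hc k c (r i) =
      ∫ x, (1 / (k : ℂ)) * ∑ i, Kc k c (x - r i) * th k c x := by
    rw [integral_const_mul, integral_finsetSum _ fun i _ => Kc_th_int hk hβ hcr hβ1 (r i)]
    rfl
  rw [e1, ← integral_sub i1 i2]
  unfold Ic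
  refine integral_congr_ae (Eventually.of_forall fun x => ?_)
  simp only
  unfold Dc Kc
  rw [← Finset.sum_mul]
  ring

/-- **The upper estimate.** -/
theorem upper (hk : 0 < k) {β : ℝ} (hβ : -2 < β) (hβ0 : β ≤ 0) (M : ℝ) : ∃ C : ℝ, 0 ≤ C ∧
    ∀ c : ℂ, c.re < 0 → β ≤ 2 * k * c.re → ‖c‖ ≤ M → ∀ q : ℝ, 0 ≤ q → q ≤ 2 →
      β ≤ 2 * k * c.re - q → ∀ (r : Fin k → ℂ) (Y : ℝ), (∀ i, ‖r i‖ ≤ Y) →
        ‖Ic r c‖ ≤ C * Y ^ q := by
  obtain ⟨C1, hC10, hC1⟩ := hc_bd hk hβ hβ0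
  obtain ⟨C2, hC20, hC2⟩ := Gint hβ hβ0 4
  have hkR : (0 : ℝ) < k := by exact_mod_cast hk
  set D : ℝ := 2 * (4 * k * M) ^ 2 * Real.exp (4 * k * M) + 18 with hD
  have hD0 : 0 ≤ D := by positivity
  refine ⟨C1 + 10 * D * C2, by positivity, fun c hcr hβ1 hM q hq0 hq2 hβ2 r Y hY => ?_⟩
  have hY0 : 0 ≤ Y := (norm_nonneg _).trans (hY ⟨0, hk⟩)
  have hYq : 0 ≤ Y ^ q := Real.rpow_nonneg hY0 _
  have hneg : 2 * (k : ℝ) * c.re - q ≤ 0 := by
    have : 2 * (k : ℝ) * c.re < 0 := mul_neg_of_pos_of_neg (by positivity) hcr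
    linarith
  rw [Ic_eq hk hβ hcr hβ1]
  refine (norm_sub_le _ _).trans ?_
  have e1 : ‖(1 / (k : ℂ)) * ∑ i, hc k c (r i)‖ ≤ C1 * Y ^ q := by
    rw [norm_mul, norm_div, norm_one, Complex.norm_natCast]
    have h1 : ‖∑ i, hc k c (r i)‖ ≤ k * (C1 * Y ^ q) := by
      refine (norm_sum_le _ _).trans ?_
      have h2 : ∀ i ∈ (Finset.univ : Finset (Fin k)), ‖hc k c (r i)‖ ≤ C1 * Y ^ q := by
        intro i _
        refine (hC1 c hcr hβ1 (r i) q hq0 hq2).trans ?_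
        exact mul_le_mul_of_nonneg_left (Real.rpow_le_rpow (norm_nonneg _) (hY i) hq0) hC10
      refine (Finset.sum_le_sum h2).trans ?_
      rw [Finset.sum_const, Finset.card_univ, Fintype.card_fin, nsmul_eq_mul]
    calc 1 / (k : ℝ) * ‖∑ i, hc k c (r i)‖ ≤ 1 / k * (k * (C1 * Y ^ q)) :=
          mul_le_mul_of_nonneg_left h1 (by positivity)
      _ = C1 * Y ^ q := by field_simp
  have e2 : ‖∫ x, Dc r c x * th k c x‖ ≤ 10 * D * C2 * Y ^ q := by
    refine (norm_integral_le_integral_norm _).trans ?_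
    set G : ℂ → ℝ := fun x => 5 * D * Y ^ q * ((‖x - 0‖ ^ β + 1) +
      (1 / (k : ℝ)) * ∑ i, (‖x - r i‖ ^ β + 1)) with hG
    have iG : IntegrableOn G (closedBall 0 4) := by
      refine Integrable.const_mul ?_ _
      refine Integrable.add (hC2 0).1 (Integrable.const_mul ?_ _)
      exact integrable_finsetSum _ fun i _ => (hC2 (r i)).1
    have h1 : ∫ x, ‖Dc r c x * th k c x‖ ≤ ∫ x in closedBall (0 : ℂ) 4, G x := by
      rw [← integral_indicator measurableSet_closedBall]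
      have hae : ∀ᵐ x : ℂ, x ≠ 0 := by
        have : (volume : Measure ℂ) {0} = 0 := measure_singleton 0
        exact compl_mem_ae_iff.2 this
      refine integral_mono_of_nonneg (Eventually.of_forall fun x => norm_nonneg _)
        ((integrable_indicator_iff measurableSet_closedBall).2 iG) ?_
      filter_upwards [hae] with x hx
      by_cases hx4 : x ∈ closedBall (0 : ℂ) 4
      · rw [indicator_of_mem hx4, norm_mul]
        have h2 := ptw hk r hcr hM hx hY hq0 hq2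
        have h3 : ‖x‖ ^ (2 * k * c.re - q) ≤ ‖x - 0‖ ^ β + 1 := by
          rw [sub_zero]
          exact pw_le (norm_nonneg _) hβ2 hneg
        have h4 : ∑ i, ‖x - r i‖ ^ (2 * k * c.re - q) ≤ ∑ i, (‖x - r i‖ ^ β + 1) :=
          Finset.sum_le_sum fun i _ => pw_le (norm_nonneg _) hβ2 hneg
        have h5 : ‖x‖ ^ (2 * k * c.re - q) +
            (1 / (k : ℝ)) * ∑ i, ‖x - r i‖ ^ (2 * k * c.re - q) ≤
            (‖x - 0‖ ^ β + 1) + (1 / (k : ℝ)) * ∑ i, (‖x - r i‖ ^ β + 1) :=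
          add_le_add h3 (mul_le_mul_of_nonneg_left h4 (by positivity))
        have h6 : ‖Dc r c x‖ ≤ D * Y ^ q * ((‖x - 0‖ ^ β + 1) +
            (1 / (k : ℝ)) * ∑ i, (‖x - r i‖ ^ β + 1)) :=
          h2.trans (mul_le_mul_of_nonneg_left h5 (by positivity))
        calc ‖Dc r c x‖ * ‖th k c x‖ ≤ (D * Y ^ q * ((‖x - 0‖ ^ β + 1) +
            (1 / (k : ℝ)) * ∑ i, (‖x - r i‖ ^ β + 1))) * 5 :=
              mul_le_mul h6 (th_bd k hcr x) (norm_nonneg _) ((norm_nonneg _).trans h6)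
          _ = G x := by rw [hG]; ring
      · rw [indicator_of_notMem hx4]
        rw [mem_closedBall_zero_iff, not_le] at hx4
        rw [th_zero k c hx4.le, mul_zero, norm_zero]
    refine h1.trans ?_
    rw [hG, integral_const_mul]
    have h7 : ∫ x in closedBall (0 : ℂ) 4, ((‖x - 0‖ ^ β + 1) +
        (1 / (k : ℝ)) * ∑ i, (‖x - r i‖ ^ β + 1)) ≤ 2 * C2 := by
      rw [integral_add (hC2 0).1 (Integrable.const_mul
        (integrable_finsetSum _ fun i _ => (hC2 (r i)).1) _), integral_const_mul,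
        integral_finsetSum _ fun i _ => (hC2 (r i)).1]
      have h8 : ∑ i, ∫ x in closedBall (0 : ℂ) 4, (‖x - r i‖ ^ β + 1) ≤ k * C2 := by
        refine (Finset.sum_le_sum fun i _ => (hC2 (r i)).2).trans ?_
        rw [Finset.sum_const, Finset.card_univ, Fintype.card_fin, nsmul_eq_mul]
      have h9 : 1 / (k : ℝ) * ∑ i, ∫ x in closedBall (0 : ℂ) 4, (‖x - r i‖ ^ β + 1) ≤ C2 := by
        calc _ ≤ 1 / (k : ℝ) * (k * C2) := mul_le_mul_of_nonneg_left h8 (by positivity)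
          _ = C2 := by field_simp
      have := (hC2 0).2
      linarith
    calc 5 * D * Y ^ q * _ ≤ 5 * D * Y ^ q * (2 * C2) :=
          mul_le_mul_of_nonneg_left h7 (by positivity)
      _ = _ := by ring
  calc _ ≤ C1 * Y ^ q + 10 * D * C2 * Y ^ q := add_le_add e1 e2
    _ = _ := by ring

end Pool.Agent.KS6_81.HP
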