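import Pool.Agent.KS6_81.HP.One3

set_option autoImplicit false

/-! # The integral over a line: lower estimate for real exponents -/

namespace Pool.Agent.KS6_81.HP

open Set Filter Topology Metric MeasureTheory

variable {k : ℕ}

/-- the gap for a real exponent -/
noncomputable def Dr (r : Fin k → ℂ) (c : ℝ) (x : ℂ) : ℝ :=
  (1 / (k : ℝ)) * ∑ i, ‖x - r i‖ ^ (2 * k * c) - (∏ i, ‖x - r i‖) ^ (2 * c)

lemma Dr_nonneg (hk : 0 < k) (r : Fin k → ℂ) (c : ℝ) (x : ℂ) : 0 ≤ Dr r c x := by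
  unfold Dr
  have := amgm hk r c x
  linarith

lemma Dr_eq (r : Fin k → ℂ) (c : ℝ) (x : ℂ) : Dc r (c : ℂ) x = ((Dr r c x : ℝ) : ℂ) := by
  unfold Dc Dr
  push_cast
  congr 1
  · congr 1
    refine Finset.sum_congr rfl fun i _ => ?_
    rw [Complex.ofReal_cpow (norm_nonneg _)]
    push_cast
    rfl
  · have h := Complex.ofReal_cpow (Finset.prod_nonneg fun i _ => norm_nonneg (x - r i)
      : 0 ≤ ∏ i, ‖x - r i‖) (2 * c)
    push_cast at h
    rw [h]

/-- the test function for a real exponent -/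
noncomputable def thr (k : ℕ) (c : ℝ) (x : ℂ) : ℝ :=
  th0 (x / 2) - (2 : ℝ) ^ (2 * k * c + 2) * th0 x

lemma thr_eq (k : ℕ) (c : ℝ) (x : ℂ) : th k (c : ℂ) x = ((thr k c x : ℝ) : ℂ) := by
  unfold th thr
  have h := Complex.ofReal_cpow (by norm_num : (0 : ℝ) ≤ 2) (2 * k * c + 2)
  push_cast at h ⊢
  rw [h]

lemma Dr_meas (r : Fin k → ℂ) (c : ℝ) : Measurable (Dr r c) := by
  unfold Dr
  refine (measurable_const.mul (Finset.measurable_sum _ fun i _ => ?_)).sub ?_
  · exact (measurable_id.sub_const _).norm.pow_const _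
  · exact (prod_meas r).pow_const _

lemma Dr_le (hk : 0 < k) (r : Fin k → ℂ) (c : ℝ) (x : ℂ) :
    Dr r c x ≤ (1 / (k : ℝ)) * ∑ i, ‖x - r i‖ ^ (2 * k * c) := by
  unfold Dr
  have : 0 ≤ (∏ i, ‖x - r i‖) ^ (2 * c) :=
    Real.rpow_nonneg (Finset.prod_nonneg fun i _ => norm_nonneg _) _
  linarith

lemma Dr_int (hk : 0 < k) {β : ℝ} (hβ : -2 < β) {c : ℝ} (hc : c < 0)
    (hβ1 : β ≤ 2 * k * c) (r : Fin k → ℂ) (R : ℝ) : IntegrableOn (Dr r c) (closedBall 0 R) := by
  have hkR : (0 : ℝ) < k := by exact_mod_cast hk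
  have hneg : 2 * (k : ℝ) * c < 0 := mul_neg_of_pos_of_neg (by positivity) hc
  have h3 : IntegrableOn (fun x : ℂ => (1 / (k : ℝ)) * ∑ i, (‖x - r i‖ ^ β + 1))
      (closedBall 0 R) := by
    refine Integrable.const_mul ?_ _
    refine integrable_finsetSum _ fun i _ => ?_
    exact (int_ball hβ (r i) R).add (integrableOn_const (measure_closedBall_lt_top).ne)
  refine Integrable.mono' h3 (Dr_meas r c).aestronglyMeasurable (Eventually.of_forall fun x => ?_)
  rw [Real.norm_eq_abs, abs_of_nonneg (Dr_nonneg hk r c x)]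
  refine (Dr_le hk r c x).trans ?_
  refine mul_le_mul_of_nonneg_left ?_ (by positivity)
  exact Finset.sum_le_sum fun i _ => pw_le (norm_nonneg _) hβ1 hneg.le

/-- **The lower estimate.** -/
theorem lower (hk : 0 < k) {β : ℝ} (hβ : -2 < β) (hβ0 : β ≤ 0) (M : ℝ) : ∃ C : ℝ, 0 ≤ C ∧
    ∀ c : ℝ, c < 0 → β ≤ 2 * k * c → |c| ≤ M → ∀ q : ℝ, 0 ≤ q → q ≤ 2 →
      ∀ (r : Fin k → ℂ) (Y : ℝ), (∀ i, ‖r i‖ ≤ Y) →
        ((2 : ℝ) ^ (2 * k * c + 2) - 1) * (∫ x in closedBall (0 : ℂ) 1, Dr r c x) - C * Y ^ q ≤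
          (Ic r (c : ℂ)).re := by
  obtain ⟨C1, hC10, hC1⟩ := hc_bd hk hβ hβ0
  obtain ⟨C2, hC20, hC2⟩ := Gint hβ hβ0 4
  have hkR : (0 : ℝ) < k := by exact_mod_cast hk
  set D : ℝ := 2 * (4 * k * M) ^ 2 * Real.exp (4 * k * M) with hD
  have hD0 : 0 ≤ D := by positivity
  set V : ℝ := ∫ x in closedBall (0 : ℂ) 4, (1 : ℝ) with hV
  have hV0 : 0 ≤ V := integral_nonneg fun _ => zero_le_one
  have hV1 : IntegrableOn (fun _ : ℂ => (1 : ℝ)) (closedBall (0 : ℂ) 4) :=
    integrableOn_const (measure_closedBall_lt_top).ne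
  refine ⟨C1 + D * V + 4 * C2, by positivity, fun c hc hβ1 hM q hq0 hq2 r Y hY => ?_⟩
  have hcr : ((c : ℝ) : ℂ).re < 0 := by rw [Complex.ofReal_re]; exact hc
  have hβ1' : β ≤ 2 * k * ((c : ℝ) : ℂ).re := by rw [Complex.ofReal_re]; exact hβ1
  have hY0 : 0 ≤ Y := (norm_nonneg _).trans (hY ⟨0, hk⟩)
  have hYq : 0 ≤ Y ^ q := Real.rpow_nonneg hY0 _
  have hneg : 2 * (k : ℝ) * c < 0 := mul_neg_of_pos_of_neg (by positivity) hc
  rw [Ic_eq hk hβ hcr hβ1', Complex.sub_re]
  have e1 : -(C1 * Y ^ q) ≤ ((1 / (k : ℂ)) * ∑ i, Pool.Agent.KS6_81.HP.hc k (c : ℂ) (r i)).re := by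
    have h0 : ‖(1 / (k : ℂ)) * ∑ i, Pool.Agent.KS6_81.HP.hc k (c : ℂ) (r i)‖ ≤ C1 * Y ^ q := by
      rw [norm_mul, norm_div, norm_one, Complex.norm_natCast]
      have h1 : ‖∑ i, Pool.Agent.KS6_81.HP.hc k (c : ℂ) (r i)‖ ≤ k * (C1 * Y ^ q) := by
        refine (norm_sum_le _ _).trans ?_
        have h2 : ∀ i ∈ (Finset.univ : Finset (Fin k)),
            ‖Pool.Agent.KS6_81.HP.hc k (c : ℂ) (r i)‖ ≤ C1 * Y ^ q := by
          intro i _
          refine (hC1 c hcr hβ1' (r i) q hq0 hq2).trans ?_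
          exact mul_le_mul_of_nonneg_left (Real.rpow_le_rpow (norm_nonneg _) (hY i) hq0) hC10
        refine (Finset.sum_le_sum h2).trans ?_
        rw [Finset.sum_const, Finset.card_univ, Fintype.card_fin, nsmul_eq_mul]
      calc 1 / (k : ℝ) * ‖∑ i, Pool.Agent.KS6_81.HP.hc k (c : ℂ) (r i)‖ ≤
            1 / k * (k * (C1 * Y ^ q)) := mul_le_mul_of_nonneg_left h1 (by positivity)
        _ = C1 * Y ^ q := by field_simp
    have h1 := Complex.abs_re_le_norm
      ((1 / (k : ℂ)) * ∑ i, Pool.Agent.KS6_81.HP.hc k (c : ℂ) (r i))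
    have h2 := neg_le_of_abs_le (h1.trans h0)
    exact h2
  have e2 : (∫ x, Dc r (c : ℂ) x * th k (c : ℂ) x).re = ∫ x, Dr r c x * thr k c x := by
    have h1 : ∀ x, Dc r (c : ℂ) x * th k (c : ℂ) x = ((Dr r c x * thr k c x : ℝ) : ℂ) := by
      intro x
      rw [Dr_eq, thr_eq]
      push_cast
      rfl
    simp only [h1]
    rw [integral_complex_ofReal, Complex.ofReal_re]
  rw [e2]
  have i0 : Integrable fun x => Dr r c x * thr k c x := by
    have h1 := (Dc_th_int hk hβ hcr hβ1' r).re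
    refine h1.congr (Eventually.of_forall fun x => ?_)
    show (Dc r (c : ℂ) x * th k (c : ℂ) x).re = _
    rw [Dr_eq, thr_eq, ← Complex.ofReal_mul, Complex.ofReal_re]
  set κ : ℝ := (2 : ℝ) ^ (2 * k * c + 2) - 1 with hκ
  set B1 : Set ℂ := closedBall 0 1 with hB1
  set B4 : Set ℂ := closedBall 0 4 with hB4
  have hB14 : B1 ⊆ B4 := closedBall_subset_closedBall (by norm_num)
  have i1 : IntegrableOn (Dr r c) B1 := Dr_int hk hβ hc hβ1 r 1
  have i4 : IntegrableOn (Dr r c) (B4 \ B1) :=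
    (Dr_int hk hβ hc hβ1 r 4).mono_set sdiff_subset
  have m1 : MeasurableSet B1 := measurableSet_closedBall
  have m4 : MeasurableSet (B4 \ B1) := measurableSet_closedBall.diff m1
  -- pointwise
  have e3 : κ * (∫ x in B1, Dr r c x) - ∫ x in B4 \ B1, Dr r c x ≤
      -∫ x, Dr r c x * thr k c x := by
    rw [← integral_indicator m1, ← integral_indicator m4, ← integral_const_mul, ← integral_neg,
      ← integral_sub (((integrable_indicator_iff m1).2 i1).const_mul κ)
      ((integrable_indicator_iff m4).2 i4)]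
    refine integral_mono ((((integrable_indicator_iff m1).2 i1).const_mul κ).sub
      ((integrable_indicator_iff m4).2 i4)) i0.neg fun x => ?_
    show κ * B1.indicator (Dr r c) x - (B4 \ B1).indicator (Dr r c) x ≤ -(Dr r c x * thr k c x)
    have hD := Dr_nonneg hk r c x
    by_cases hx1 : x ∈ B1
    · rw [indicator_of_mem hx1, indicator_of_notMem (fun h => h.2 hx1)]
      have hx := mem_closedBall_zero_iff.1 hx1
      have h1 : thr k c x = -κ := by
        unfold thr
        rw [th0_one hx, th0_one (by rw [norm_div]; norm_num; linarith), hκ]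
        ring
      rw [h1]
      linarith
    · rw [indicator_of_notMem hx1]
      by_cases hx4 : x ∈ B4
      · rw [indicator_of_mem (show x ∈ B4 \ B1 from ⟨hx4, hx1⟩)]
        have h1 : thr k c x ≤ 1 := by
          unfold thr
          have h2 := th0.le_one (x := x / 2)
          have h3 : 0 ≤ (2 : ℝ) ^ (2 * k * c + 2) * th0 x :=
            mul_nonneg (by positivity) th0.nonneg
          linarith
        nlinarith
      · rw [indicator_of_notMem (fun h => hx4 h.1)]
        rw [hB4, mem_closedBall_zero_iff, not_le] at hx4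
        have h1 : thr k c x = 0 := by
          unfold thr
          have h1 : 2 ≤ ‖x / 2‖ := by
            rw [norm_div]
            norm_num
            linarith
          rw [th0_zero h1, th0_zero (by linarith)]
          ring
        rw [h1]
        simp
  have e4 : ∫ x in B4 \ B1, Dr r c x ≤ (D * V + 4 * C2) * Y ^ q := by
    rcases le_or_gt Y (1 / 2) with hY2 | hY2
    · have h1 : ∀ x ∈ B4 \ B1, Dr r c x ≤ D * Y ^ q := by
        intro x hx
        have hx1 : 1 < ‖x‖ := by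
          have := hx.2
          rw [hB1, mem_closedBall_zero_iff, not_le] at this
          exact this
        have hxne : x ≠ 0 := norm_pos_iff.1 (by linarith)
        have h2 := far hk r (c : ℂ) hxne hY (by linarith)
        rw [Dr_eq, Complex.norm_real, Real.norm_eq_abs, abs_of_nonneg (Dr_nonneg hk r c x),
          Complex.norm_real, Real.norm_eq_abs, Complex.ofReal_re] at h2
        have h3 : 2 * (4 * (k : ℝ) * |c|) ^ 2 * Real.exp (4 * k * |c|) ≤ D := by
          have h4 : 4 * (k : ℝ) * |c| ≤ 4 * k * M := mul_le_mul_of_nonneg_left hM (by positivity)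
          have h5 : (4 * (k : ℝ) * |c|) ^ 2 ≤ (4 * k * M) ^ 2 :=
            pow_le_pow_left₀ (by positivity) h4 2
          exact mul_le_mul (by linarith) (Real.exp_le_exp.2 h4) (Real.exp_pos _).le (by positivity)
        have h4 : ‖x‖ ^ (2 * k * c) ≤ 1 := Real.rpow_le_one_of_one_le_of_nonpos hx1.le hneg.le
        have h5 : (Y / ‖x‖) ^ 2 ≤ Y ^ q := by
          have h6 : Y / ‖x‖ ≤ Y := div_le_self hY0 hx1.le
          have h7 : (Y / ‖x‖) ^ 2 ≤ Y ^ 2 := pow_le_pow_left₀ (by positivity) h6 2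
          have h8 : Y ^ 2 ≤ Y ^ q := by
            rcases hY0.eq_or_lt with h0 | h0
            · rw [← h0]
              simp only [ne_eq, OfNat.ofNat_ne_zero, not_false_eq_true, zero_pow]
              exact Real.rpow_nonneg le_rfl _
            · rw [← Real.rpow_two]
              exact Real.rpow_le_rpow_of_exponent_ge h0 (by linarith) hq2
          exact h7.trans h8
        have h6 : 0 ≤ ‖x‖ ^ (2 * k * c) := Real.rpow_nonneg (norm_nonneg _) _
        have h7 : 0 ≤ (Y / ‖x‖) ^ 2 := by positivity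
        calc Dr r c x ≤ 2 * (4 * (k : ℝ) * |c|) ^ 2 * Real.exp (4 * k * |c|) *
              ‖x‖ ^ (2 * k * c) * (Y / ‖x‖) ^ 2 := h2
          _ ≤ D * 1 * Y ^ q := by
            refine mul_le_mul (mul_le_mul h3 h4 h6 hD0) h5 h7 (by positivity)
          _ = D * Y ^ q := by ring
      have h2 : ∫ x in B4 \ B1, Dr r c x ≤ ∫ x in B4 \ B1, D * Y ^ q :=
        setIntegral_mono_on i4 (integrableOn_const
          ((measure_mono sdiff_subset).trans_lt measure_closedBall_lt_top).ne) m4 h1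
      have h3 : ∫ x in B4 \ B1, D * Y ^ q ≤ ∫ x in B4, D * Y ^ q := by
        refine setIntegral_mono_set (integrableOn_const measure_closedBall_lt_top.ne)
          (Eventually.of_forall fun x => by
            show 0 ≤ D * Y ^ q
            positivity) (LE.le.eventuallyLE sdiff_subset)
      have h4 : ∫ x in B4, D * Y ^ q = D * Y ^ q * V := by
        rw [hV, ← integral_const_mul, mul_one]
      have h5 : 0 ≤ 4 * C2 * Y ^ q := by positivity
      nlinarith
    · have h1 : ∫ x in B4 \ B1, Dr r c x ≤ ∫ x in B4, Dr r c x :=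
        setIntegral_mono_set (Dr_int hk hβ hc hβ1 r 4)
          (Eventually.of_forall fun x => Dr_nonneg hk r c x)
          (LE.le.eventuallyLE sdiff_subset)
      have h2 : ∫ x in B4, Dr r c x ≤ ∫ x in B4, (1 / (k : ℝ)) * ∑ i, (‖x - r i‖ ^ β + 1) := by
        refine setIntegral_mono (Dr_int hk hβ hc hβ1 r 4) ?_ fun x => ?_
        · refine Integrable.const_mul ?_ _
          exact integrable_finsetSum _ fun i _ => (hC2 (r i)).1
        · refine (Dr_le hk r c x).trans ?_
          refine mul_le_mul_of_nonneg_left ?_ (by positivity)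
          exact Finset.sum_le_sum fun i _ => pw_le (norm_nonneg _) hβ1 hneg.le
      have h3 : ∫ x in B4, (1 / (k : ℝ)) * ∑ i, (‖x - r i‖ ^ β + 1) ≤ C2 := by
        rw [integral_const_mul, integral_finsetSum _ fun i _ => (hC2 (r i)).1]
        have h8 : ∑ i, ∫ x in closedBall (0 : ℂ) 4, (‖x - r i‖ ^ β + 1) ≤ k * C2 := by
          refine (Finset.sum_le_sum fun i _ => (hC2 (r i)).2).trans ?_
          rw [Finset.sum_const, Finset.card_univ, Fintype.card_fin, nsmul_eq_mul]
        calc _ ≤ 1 / (k : ℝ) * (k * C2) := mul_le_mul_of_nonneg_left h8 (by positivity)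
          _ = C2 := by field_simp
      have h4 : 1 / 4 ≤ Y ^ q := by
        calc (1 / 4 : ℝ) = (1 / 2) ^ (2 : ℝ) := by norm_num
          _ ≤ (1 / 2) ^ q := Real.rpow_le_rpow_of_exponent_ge (by norm_num) (by norm_num) hq2
          _ ≤ Y ^ q := Real.rpow_le_rpow (by norm_num) hY2.le hq0
      have h5 : 0 ≤ D * V * Y ^ q := by positivity
      nlinarith
  nlinarith

end Pool.Agent.KS6_81.HP
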