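import Pool.Agent.KS6_81.HP.Poly

set_option autoImplicit false

/-! # Forms with a point of high multiplicity: the analytic data -/

namespace Pool.Agent.KS6_81.HP

open Set Filter Topology Metric MeasureTheory
open scoped ContDiff Pointwise
open Pool.Agent.H628R4.TP (weylS IsBFunction)

/-- the algebraic data -/
structure Data (d k N : ℕ) (A : ℕ → MvPolynomial (Fin 2) ℂ) (p : Fin N → Fin 2 → ℂ)
    (e : Fin N → ℕ) (o : ℕ → Fin N → ℕ) (a : ℂ) : Prop where
  hd : 3 * k < d
  hp : ∀ i j, i ≠ j → p i 0 * p j 1 - p i 1 * p j 0 ≠ 0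
  hp0 : ∀ i, p i ≠ 0
  ha : a ≠ 0
  A0 : A 0 = MvPolynomial.C a * ∏ i, lform (p i) ^ e i
  hom : ∀ j, j ≤ k → (A j).IsHomogeneous (d - k + j)
  dvd : ∀ j, 1 ≤ j → j ≤ k → ∏ i, lform (p i) ^ o j i ∣ A j
  cond : ∀ j, 1 ≤ j → j ≤ k → A j ≠ 0 → ∀ i,
    3 * (j : ℤ) * e i + ((d : ℤ) - 3 * k) * ((e i : ℤ) - o j i) < j * d
  dist : ∃ (t : Fin 2 → ℂ) (x x' : ℂ), MvPolynomial.eval t (A 0) ≠ 0 ∧ x ≠ x' ∧
    ff (hform k A) (x, t) = 0 ∧ ff (hform k A) (x', t) = 0

variable {d k N : ℕ} {A : ℕ → MvPolynomial (Fin 2) ℂ} {p : Fin N → Fin 2 → ℂ}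
  {e : Fin N → ℕ} {o : ℕ → Fin N → ℕ} {a : ℂ}

lemma ae_lf {p : EE} (hp : p ≠ 0) : ∀ᵐ t : EE, lf p t ≠ 0 := by
  let L : EE →ₗ[ℝ] ℂ :=
    { toFun := fun t => lf p t
      map_add' := by
        intro x y
        simp [lf]
        ring
      map_smul' := by
        intro c x
        simp [lf]
        ring }
  have h1 : (volume : Measure EE) (LinearMap.ker L : Set EE) = 0 := by
    refine Measure.addHaar_submodule _ _ ?_
    intro h
    apply hp
    have h2 : ∀ t, lf p t = 0 := by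
      intro t
      have h3 : t ∈ LinearMap.ker L := by
        rw [h]
        exact Submodule.mem_top
      exact h3
    ext i
    fin_cases i
    · have := h2 ![1, 0]
      simpa [lf] using this
    · have := h2 ![0, 1]
      simpa [lf] using this
  exact compl_mem_ae_iff.2 h1

lemma lform_hom (p : Fin 2 → ℂ) : (lform p).IsHomogeneous 1 := by
  unfold lform
  have h1 : ∀ (c : ℂ) (i : Fin 2),
      (MvPolynomial.C c * MvPolynomial.X i : MvPolynomial (Fin 2) ℂ).IsHomogeneous 1 := by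
    intro c i
    have := (MvPolynomial.isHomogeneous_C (Fin 2) c).mul (MvPolynomial.isHomogeneous_X ℂ i)
    rwa [zero_add] at this
  exact (h1 _ _).add (h1 _ _)

lemma prod_hom {N : ℕ} (p : Fin N → Fin 2 → ℂ) (o : Fin N → ℕ) :
    (∏ i, lform (p i) ^ o i).IsHomogeneous (∑ i, o i) := by
  refine MvPolynomial.IsHomogeneous.prod _ _ _ fun i _ => ?_
  have := (lform_hom (p i)).pow (o i)
  rwa [one_mul] at this

lemma Data.A0_ne (D : Data d k N A p e o a) : A 0 ≠ 0 := by
  obtain ⟨t, x, x', h, -⟩ := D.dist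
  intro h0
  rw [h0, map_zero] at h
  exact h rfl

lemma Data.sum_e (D : Data d k N A p e o a) : ∑ i, e i = d - k := by
  have h1 := D.hom 0 (Nat.zero_le _)
  have h2 : (A 0).IsHomogeneous (∑ i, e i) := by
    rw [D.A0]
    have := (MvPolynomial.isHomogeneous_C (Fin 2) a).mul (prod_hom p e)
    rwa [zero_add] at this
  have h3 := h2.inj_right h1 D.A0_ne
  rw [h3, add_zero]

lemma Data.kpos (D : Data d k N A p e o a) : 0 < k := by
  by_contra h
  have hk : k = 0 := by omega
  subst hk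
  obtain ⟨t, x, x', h0, -, h1, -⟩ := D.dist
  rw [ff_hform] at h1
  simp at h1
  exact h0 h1

lemma Data.Npos (D : Data d k N A p e o a) : 0 < N := by
  by_contra h
  have hN : N = 0 := by omega
  subst hN
  have h1 := D.sum_e
  have h2 := D.hd
  simp at h1
  omega

/-- the bound for the roots -/
noncomputable def YY (k : ℕ) (A : ℕ → MvPolynomial (Fin 2) ℂ) (t : EE) : ℝ :=
  2 * ∑ j ∈ Finset.Icc 1 k,
    (‖MvPolynomial.eval t (A j)‖ / ‖MvPolynomial.eval t (A 0)‖) ^ (1 / j : ℝ)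

lemma eval_cont (q : MvPolynomial (Fin 2) ℂ) : Continuous fun t : EE => MvPolynomial.eval t q :=
  MvPolynomial.continuous_eval q

lemma eval_A0 (D : Data d k N A p e o a) (t : EE) :
    MvPolynomial.eval t (A 0) = a * ∏ i, lf (p i) t ^ e i := by
  rw [D.A0, map_mul, MvPolynomial.eval_C, map_prod]
  congr 1
  refine Finset.prod_congr rfl fun i _ => ?_
  rw [map_pow, eval_lform]

/-- one term -/
lemma LI_term (D : Data d k N A p e o a) {j : ℕ} (hj1 : 1 ≤ j) (hjk : j ≤ k) {s q : ℝ}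
    (hq : 0 < q) (h : A j ≠ 0 → ∀ i, -2 < 2 * s * e i + (q / j) * ((o j i : ℝ) - e i))
    (ht : -4 < 2 * s * (d - k) + q) :
    LI fun t => ‖MvPolynomial.eval t (A 0)‖ ^ (2 * s) *
      ((‖MvPolynomial.eval t (A j)‖ / ‖MvPolynomial.eval t (A 0)‖) ^ (1 / j : ℝ)) ^ q := by
  have hjR : (0 : ℝ) < j := by exact_mod_cast hj1
  have hm : Measurable fun t : EE => ‖MvPolynomial.eval t (A 0)‖ ^ (2 * s) *
      ((‖MvPolynomial.eval t (A j)‖ / ‖MvPolynomial.eval t (A 0)‖) ^ (1 / j : ℝ)) ^ q := by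
    refine ((eval_cont _).measurable.norm.pow_const _).mul ?_
    exact (((eval_cont _).measurable.norm.div (eval_cont _).measurable.norm).pow_const _).pow_const _
  by_cases hAj : A j = 0
  · intro R
    have h1 : (fun t : EE => ‖MvPolynomial.eval t (A 0)‖ ^ (2 * s) *
      ((‖MvPolynomial.eval t (A j)‖ / ‖MvPolynomial.eval t (A 0)‖) ^ (1 / j : ℝ)) ^ q) =
        fun _ => 0 := by
      funext t
      rw [hAj, map_zero, norm_zero, zero_div, Real.zero_rpow (by positivity),
        Real.zero_rpow hq.ne', mul_zero]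
    rw [h1]
    exact integrableOn_zero
  · obtain ⟨huD, B, hB, hAB⟩ := hom_cof (prod_hom p (o j)) (D.hom j hjk) hAj (D.dvd j hj1 hjk)
    obtain ⟨C, hC0, hC⟩ := hom_bd hB
    set n : ℕ := d - k + j - ∑ i, o j i with hn
    have hkd : k ≤ d := by have := D.hd; omega
    have hnR : (n : ℝ) = d - k + j - ∑ i, (o j i : ℝ) := by
      rw [hn, Nat.cast_sub huD, Nat.cast_add, Nat.cast_sub hkd]
      push_cast
      ring
    have heR : ∑ i, (e i : ℝ) = d - k := by
      rw [← Nat.cast_sub hkd, ← D.sum_e]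
      push_cast
      rfl
    set ex : Fin N → ℝ := fun i => 2 * s * e i + (q / j) * ((o j i : ℝ) - e i) with hex
    have hLI := LI_prod D.Npos p D.hp D.hp0 ex (n * (q / j)) (h hAj) (by
      rw [hex]
      rw [Finset.sum_add_distrib, ← Finset.mul_sum, ← Finset.mul_sum, Finset.sum_sub_distrib, heR,
        hnR]
      have h3 : 2 * s * ((d : ℝ) - k) + q / j * (∑ i, (o j i : ℝ) - (d - k)) +
          (d - k + j - ∑ i, (o j i : ℝ)) * (q / j) = 2 * s * (d - k) + q := by
        field_simp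
        ring
      rw [h3]
      exact ht)
    intro R
    have hLI2 : LI fun t => (‖a‖ ^ (2 * s) * (C / ‖a‖) ^ (q / j)) *
        ((∏ i, ‖lf (p i) t‖ ^ ex i) * ‖t‖ ^ ((n : ℝ) * (q / j))) := fun R' => (hLI R').const_mul _
    refine hLI2.mono hm R ?_
    have hae : ∀ᵐ t : EE, ∀ i, lf (p i) t ≠ 0 := ae_all_iff.2 fun i => ae_lf (D.hp0 i)
    filter_upwards [hae, ae_coord 0] with t htl ht0 _
    have htn : 0 < ‖t‖ := norm_pos_iff.2 fun h => ht0 (by rw [h]; rfl)
    have hlp : ∀ i, 0 < ‖lf (p i) t‖ := fun i => norm_pos_iff.2 (htl i)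
    have hap : 0 < ‖a‖ := norm_pos_iff.2 D.ha
    have eA0 : ‖MvPolynomial.eval t (A 0)‖ = ‖a‖ * ∏ i, ‖lf (p i) t‖ ^ e i := by
      rw [eval_A0 D, norm_mul, norm_prod]
      congr 1
      exact Finset.prod_congr rfl fun i _ => norm_pow _ _
    have eAj : ‖MvPolynomial.eval t (A j)‖ ≤ (∏ i, ‖lf (p i) t‖ ^ o j i) * (C * ‖t‖ ^ n) := by
      rw [hAB, map_mul, map_prod, norm_mul, norm_prod]
      have h4 : ∏ i, ‖MvPolynomial.eval t (lform (p i) ^ o j i)‖ =
          ∏ i, ‖lf (p i) t‖ ^ o j i := by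
        refine Finset.prod_congr rfl fun i _ => ?_
        rw [map_pow, eval_lform, norm_pow]
      rw [h4]
      exact mul_le_mul_of_nonneg_left (hC t) (Finset.prod_nonneg fun i _ => by positivity)
    have hP0 : 0 < ∏ i, ‖lf (p i) t‖ ^ e i := Finset.prod_pos fun i _ => by
      have := hlp i
      positivity
    have e1 : ‖MvPolynomial.eval t (A j)‖ / ‖MvPolynomial.eval t (A 0)‖ ≤
        (C / ‖a‖) * ((∏ i, ‖lf (p i) t‖ ^ ((o j i : ℝ) - e i)) * ‖t‖ ^ (n : ℝ)) := by
      rw [eA0, div_le_iff₀ (by positivity)]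
      refine eAj.trans (le_of_eq ?_)
      have h5 : (∏ i, ‖lf (p i) t‖ ^ ((o j i : ℝ) - e i)) * ∏ i, ‖lf (p i) t‖ ^ e i =
          ∏ i, ‖lf (p i) t‖ ^ o j i := by
        rw [← Finset.prod_mul_distrib]
        refine Finset.prod_congr rfl fun i _ => ?_
        rw [← Real.rpow_natCast _ (e i), ← Real.rpow_add (hlp i), ← Real.rpow_natCast _ (o j i)]
        congr 1
        ring
      rw [← h5, Real.rpow_natCast]
      field_simp
    have e2 : ((‖MvPolynomial.eval t (A j)‖ / ‖MvPolynomial.eval t (A 0)‖) ^ (1 / j : ℝ)) ^ q ≤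
        (C / ‖a‖) ^ (q / j) * ((∏ i, ‖lf (p i) t‖ ^ ((q / j) * ((o j i : ℝ) - e i))) *
          ‖t‖ ^ ((n : ℝ) * (q / j))) := by
      have hL0 : 0 ≤ ∏ i, ‖lf (p i) t‖ ^ ((o j i : ℝ) - e i) :=
        Finset.prod_nonneg fun i _ => by positivity
      rw [← Real.rpow_mul (by positivity)]
      have h6 : (1 / (j : ℝ)) * q = q / j := by ring
      rw [h6]
      refine (Real.rpow_le_rpow (by positivity) e1 (by positivity)).trans (le_of_eq ?_)
      rw [Real.mul_rpow (by positivity) (by positivity), Real.mul_rpow hL0 (by positivity),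
        ← Real.finsetProd_rpow _ _ fun i _ => by positivity, ← Real.rpow_mul htn.le]
      congr 2
      refine Finset.prod_congr rfl fun i _ => ?_
      rw [← Real.rpow_mul (norm_nonneg _), mul_comm]
    have e3 : ‖MvPolynomial.eval t (A 0)‖ ^ (2 * s) =
        ‖a‖ ^ (2 * s) * ∏ i, ‖lf (p i) t‖ ^ (2 * s * e i) := by
      rw [eA0, Real.mul_rpow hap.le hP0.le, ← Real.finsetProd_rpow _ _ fun i _ => by positivity]
      congr 1
      refine Finset.prod_congr rfl fun i _ => ?_
      rw [← Real.rpow_natCast, ← Real.rpow_mul (norm_nonneg _)]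
      congr 1
      ring
    rw [abs_of_nonneg (by positivity)]
    calc ‖MvPolynomial.eval t (A 0)‖ ^ (2 * s) *
        ((‖MvPolynomial.eval t (A j)‖ / ‖MvPolynomial.eval t (A 0)‖) ^ (1 / j : ℝ)) ^ q ≤
        (‖a‖ ^ (2 * s) * ∏ i, ‖lf (p i) t‖ ^ (2 * s * e i)) *
          ((C / ‖a‖) ^ (q / j) * ((∏ i, ‖lf (p i) t‖ ^ ((q / j) * ((o j i : ℝ) - e i))) *
          ‖t‖ ^ ((n : ℝ) * (q / j)))) := by
          rw [e3]
          refine mul_le_mul_of_nonneg_left e2 ?_
          exact mul_nonneg (by positivity) (Finset.prod_nonneg fun i _ => by positivity)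
      _ = (‖a‖ ^ (2 * s) * (C / ‖a‖) ^ (q / j)) *
          ((∏ i, (‖lf (p i) t‖ ^ (2 * s * e i) * ‖lf (p i) t‖ ^ ((q / j) * ((o j i : ℝ) - e i)))) *
            ‖t‖ ^ ((n : ℝ) * (q / j))) := by
          rw [Finset.prod_mul_distrib]
          ring
      _ = _ := by
          congr 2
          refine Finset.prod_congr rfl fun i _ => ?_
          rw [← Real.rpow_add (hlp i)]

/-- the weighted power of the bound -/
lemma LI_Y (D : Data d k N A p e o a) {s q : ℝ} (hq : 0 < q)
    (h : ∀ j, 1 ≤ j → j ≤ k → A j ≠ 0 →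
      ∀ i, -2 < 2 * s * e i + (q / j) * ((o j i : ℝ) - e i))
    (ht : -4 < 2 * s * (d - k) + q) :
    LI fun t => ‖MvPolynomial.eval t (A 0)‖ ^ (2 * s) * YY k A t ^ q := by
  have hk := D.kpos
  have hne : (Finset.Icc 1 k).Nonempty := ⟨1, Finset.mem_Icc.2 ⟨le_rfl, hk⟩⟩
  have hsum : LI fun t => (2 : ℝ) ^ q * ((Finset.Icc 1 k).card : ℝ) ^ q *
      ∑ j ∈ Finset.Icc 1 k, (‖MvPolynomial.eval t (A 0)‖ ^ (2 * s) *
      ((‖MvPolynomial.eval t (A j)‖ / ‖MvPolynomial.eval t (A 0)‖) ^ (1 / j : ℝ)) ^ q) := by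
    intro R
    refine Integrable.const_mul ?_ _
    refine integrable_finsetSum _ fun j hj => ?_
    obtain ⟨hj1, hjk⟩ := Finset.mem_Icc.1 hj
    exact LI_term D hj1 hjk hq (h j hj1 hjk) ht R
  intro R
  refine hsum.mono ?_ R (Eventually.of_forall fun t _ => ?_)
  · refine ((eval_cont _).measurable.norm.pow_const _).mul (Measurable.pow_const ?_ _)
    unfold YY
    refine measurable_const.mul (Finset.measurable_sum _ fun j _ => ?_)
    exact ((eval_cont _).measurable.norm.div (eval_cont _).measurable.norm).pow_const _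
  · have hY : 0 ≤ YY k A t := by
      unfold YY
      exact mul_nonneg (by norm_num) (Finset.sum_nonneg fun j _ => by positivity)
    rw [abs_of_nonneg (by positivity), ← Finset.mul_sum]
    have h1 : YY k A t ^ q ≤ (2 : ℝ) ^ q * (((Finset.Icc 1 k).card : ℝ) ^ q *
        ∑ j ∈ Finset.Icc 1 k,
        ((‖MvPolynomial.eval t (A j)‖ / ‖MvPolynomial.eval t (A 0)‖) ^ (1 / j : ℝ)) ^ q) := by
      unfold YY
      rw [Real.mul_rpow (by norm_num) (Finset.sum_nonneg fun j _ => by positivity)]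
      refine mul_le_mul_of_nonneg_left ?_ (by positivity)
      exact sum_pow_le _ hne _ (fun j => by positivity) hq.le
    calc ‖MvPolynomial.eval t (A 0)‖ ^ (2 * s) * YY k A t ^ q ≤
        ‖MvPolynomial.eval t (A 0)‖ ^ (2 * s) * _ := mul_le_mul_of_nonneg_left h1 (by positivity)
      _ = _ := by ring

/-- **The analytic data of a form with a point of high multiplicity.** -/
theorem Data.heavy (D : Data d k N A p e o a) :
    Heavy2 k d (hform k A) (fun t => MvPolynomial.eval t (A 0)) (YY k A) := by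
  have hk := D.kpos
  have hd := D.hd
  have hdR : (0 : ℝ) < d := by exact_mod_cast (by omega : 0 < d)
  have hkR : (0 : ℝ) < k := by exact_mod_cast hk
  have hkd : k ≤ d := by omega
  have h3k : 3 * (k : ℝ) < d := by exact_mod_cast hd
  have heR : ∑ i, (e i : ℝ) = d - k := by
    rw [← Nat.cast_sub hkd, ← D.sum_e]
    push_cast
    rfl
  set q0 : ℝ := 2 - 6 * k / d with hq0
  have hq0p : 0 < q0 := by
    have : 6 * (k : ℝ) / d < 2 := by
      rw [div_lt_iff₀ hdR]
      linarith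
    rw [hq0]
    linarith
  have hq02 : q0 < 2 := by
    have : 0 < 6 * (k : ℝ) / d := by positivity
    rw [hq0]
    linarith
  -- the conditions at `s0`
  have hcond : ∀ j, 1 ≤ j → j ≤ k → A j ≠ 0 → ∀ i,
      -2 < 2 * (-(3 / d : ℝ)) * e i + (q0 / j) * ((o j i : ℝ) - e i) := by
    intro j hj1 hjk hAj i
    have hjR : (0 : ℝ) < j := by exact_mod_cast hj1
    have h1 := D.cond j hj1 hjk hAj i
    have h2 : 3 * (j : ℝ) * e i + ((d : ℝ) - 3 * k) * ((e i : ℝ) - o j i) < j * d := by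
      exact_mod_cast h1
    have h3 : 2 * (-(3 / d : ℝ)) * e i + (q0 / j) * ((o j i : ℝ) - e i) =
        -(2 * (3 * (j : ℝ) * e i + ((d : ℝ) - 3 * k) * ((e i : ℝ) - o j i)) / (j * d)) := by
      rw [hq0]
      field_simp
      ring
    rw [h3]
    have h4 : 2 * (3 * (j : ℝ) * e i + ((d : ℝ) - 3 * k) * ((e i : ℝ) - o j i)) / (j * d) < 2 := by
      rw [div_lt_iff₀ (by positivity)]
      linarith
    linarith
  have htot : 2 * (-(3 / d : ℝ)) * (d - k) + q0 = -4 := by
    rw [hq0]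
    field_simp
    ring
  refine ⟨⟨hk, hd, eval_cont _, ?_, ?_, ?_, ?_, ?_⟩, ?_, ?_, ?_, ?_⟩
  · unfold YY
    refine measurable_const.mul (Finset.measurable_sum _ fun j _ => ?_)
    exact ((eval_cont _).measurable.norm.div (eval_cont _).measurable.norm).pow_const _
  · intro t ht
    obtain ⟨r, hr1, hr2⟩ := roots_bd (k := k) (fun j => MvPolynomial.eval t (A j)) ht
    exact ⟨r, fun x => by rw [ff_hform]; exact hr1 x, hr2⟩
  · have hae : ∀ᵐ t : EE, ∀ i, lf (p i) t ≠ 0 := ae_all_iff.2 fun i => ae_lf (D.hp0 i)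
    filter_upwards [hae] with t ht
    rw [eval_A0 D]
    exact mul_ne_zero D.ha (Finset.prod_ne_zero_iff.2 fun i _ => pow_ne_zero _ (ht i))
  · intro s hs hs0
    have hsd : -1 < s * d := by
      have := mul_lt_mul_of_pos_right hs hdR
      rwa [neg_mul, one_div, inv_mul_cancel₀ hdR.ne'] at this
    have hex : ∀ i, -2 < 2 * s * (e i : ℝ) := by
      intro i
      have h1 : (e i : ℝ) ≤ d := by
        have h2 : e i ≤ ∑ i, e i :=
          Finset.single_le_sum (f := fun i => e i) (fun _ _ => Nat.zero_le _) (Finset.mem_univ i)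
        rw [D.sum_e] at h2
        exact_mod_cast h2.trans (Nat.sub_le _ _)
      nlinarith
    have h1 := LI_prod D.Npos p D.hp D.hp0 (fun i => 2 * s * e i) 0 hex (by
      rw [← Finset.mul_sum, heR]
      nlinarith)
    intro R
    have h2 : LI fun t => ‖a‖ ^ (2 * s) * ((∏ i, ‖lf (p i) t‖ ^ (2 * s * (e i : ℝ))) *
        ‖t‖ ^ (0 : ℝ)) := fun R' => (h1 R').const_mul _
    refine h2.mono ((eval_cont _).measurable.norm.pow_const _) R (Eventually.of_forall fun t _ => ?_)
    rw [abs_of_nonneg (by positivity), Real.rpow_zero, mul_one]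
    refine le_of_eq ?_
    have eA0 : ‖MvPolynomial.eval t (A 0)‖ = ‖a‖ * ∏ i, ‖lf (p i) t‖ ^ e i := by
      rw [eval_A0 D, norm_mul, norm_prod]
      congr 1
      exact Finset.prod_congr rfl fun i _ => norm_pow _ _
    rw [eA0, Real.mul_rpow (norm_nonneg _) (Finset.prod_nonneg fun i _ => by positivity),
      ← Real.finsetProd_rpow _ _ fun i _ => by positivity]
    congr 1
    refine Finset.prod_congr rfl fun i _ => ?_
    rw [← Real.rpow_natCast, ← Real.rpow_mul (norm_nonneg _)]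
    congr 1
    ring
  · intro s hs hs0
    refine LI_Y D hq0p ?_ ?_
    · intro j hj1 hjk hAj i
      refine lt_of_lt_of_le (hcond j hj1 hjk hAj i) ?_
      have : 2 * (-(3 / d : ℝ)) * e i ≤ 2 * s * e i := by
        have h1 : (0 : ℝ) ≤ e i := by positivity
        nlinarith
      linarith
    · rw [← htot]
      have h1 : (0 : ℝ) < (d : ℝ) - k := by linarith
      have h2 : 2 * (-(3 / d : ℝ)) * (d - k) < 2 * s * (d - k) :=
        mul_lt_mul_of_pos_right (by linarith) h1
      linarith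
  · -- choose `q`
    have hev : ∀ᶠ q : ℝ in 𝓝[>] q0, (∀ j ∈ Finset.Icc 1 k, ∀ i, A j ≠ 0 →
        -2 < 2 * (-(3 / d : ℝ)) * e i + (q / j) * ((o j i : ℝ) - e i)) := by
      refine nhdsWithin_le_nhds ?_
      refine (Finset.eventually_all _).2 fun j hj => ?_
      refine eventually_all.2 fun i => ?_
      by_cases hAj : A j = 0
      · exact Eventually.of_forall fun q h => absurd hAj h
      · obtain ⟨hj1, hjk⟩ := Finset.mem_Icc.1 hj
        have hc : Continuous fun q : ℝ =>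
            2 * (-(3 / d : ℝ)) * e i + (q / j) * ((o j i : ℝ) - e i) := by fun_prop
        filter_upwards [hc.continuousAt.eventually (lt_mem_nhds (hcond j hj1 hjk hAj i))]
          with q hq _
        exact hq
    have hev2 : ∀ᶠ q : ℝ in 𝓝[>] q0, q ≤ 2 := nhdsWithin_le_nhds (Iic_mem_nhds hq02)
    obtain ⟨q, h1, h2, h3⟩ := (hev.and (hev2.and self_mem_nhdsWithin)).exists
    have h3' : q0 < q := h3
    refine ⟨q, by linarith, h2, LI_Y D (by linarith) (fun j hj1 hjk hAj i =>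
      h1 j (Finset.mem_Icc.2 ⟨hj1, hjk⟩) i hAj) ?_⟩
    linarith
  · intro l t
    have h1 := eval_smul_hom (D.hom 0 (Nat.zero_le _)) (l : ℂ) t
    rw [add_zero] at h1
    exact h1
  · intro l x t
    rw [ff_hform, ff_hform, Finset.mul_sum]
    refine Finset.sum_congr rfl fun j hj => ?_
    have hjk : j ≤ k := by
      have := Finset.mem_range.1 hj
      omega
    rw [eval_smul_hom (D.hom j hjk), mul_pow]
    have h1 : (l : ℂ) ^ d = (l : ℂ) ^ (k - j) * (l : ℂ) ^ (d - k + j) := by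
      rw [← pow_add]
      congr 1
      omega
    rw [h1]
    ring
  · exact D.dist

end Pool.Agent.KS6_81.HP
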