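import Pool.Agent.KS6_81.HP.Low

set_option autoImplicit false

/-! # The root `-3/d` -/

namespace Pool.Agent.KS6_81.HP

open Set Filter Topology Metric MeasureTheory
open scoped ContDiff Pointwise
open Pool.Agent.H628R4.TP (weylS IsBFunction)

variable {k d : ℕ} {f : MvPolynomial (Fin 3) ℂ} {A : EE → ℂ} {Y : EE → ℝ}

/-- the roots on a scaled line -/
lemma root_scal (H : Heavy2 k d f A Y) {l : ℝ} (hl : 0 < l) {t u : EE} (htu : t = (l : ℂ) • u)
    {r : Fin k → ℂ} (hr : ∀ x, ff f (x, t) = A t * ∏ i, (x - r i)) (x : ℂ) :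
    ff f (x, u) = A u * ∏ i, (x - (l : ℂ)⁻¹ * r i) := by
  have hlC : (l : ℂ) ≠ 0 := by exact_mod_cast hl.ne'
  have hkd : k ≤ d := by
    have := H.hd
    omega
  have h1 := H.hf l x u
  rw [← htu, hr, htu, H.hA] at h1
  have h2 : ∏ i, ((l : ℂ) * x - r i) = (l : ℂ) ^ k * ∏ i, (x - (l : ℂ)⁻¹ * r i) := by
    have h3 : ∀ i, (l : ℂ) * x - r i = (l : ℂ) * (x - (l : ℂ)⁻¹ * r i) := by
      intro i
      rw [mul_sub, ← mul_assoc, mul_inv_cancel₀ hlC, one_mul]
    simp only [h3]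
    rw [Finset.prod_mul_distrib, Finset.prod_const, Finset.card_univ, Fintype.card_fin]
  rw [h2] at h1
  have h4 : (l : ℂ) ^ d = (l : ℂ) ^ (d - k) * (l : ℂ) ^ k := by
    rw [← pow_add]
    congr 1
    omega
  rw [h4] at h1
  have h5 : (l : ℂ) ^ (d - k) * (l : ℂ) ^ k ≠ 0 := mul_ne_zero (pow_ne_zero _ hlC)
    (pow_ne_zero _ hlC)
  have h6 : (l : ℂ) ^ (d - k) * (l : ℂ) ^ k * ff f (x, u) =
      (l : ℂ) ^ (d - k) * (l : ℂ) ^ k * (A u * ∏ i, (x - (l : ℂ)⁻¹ * r i)) := by
    rw [← h1]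
    ring
  exact mul_left_cancel₀ h5 h6

/-- **The regularized integral diverges.** -/
theorem diverge (H : Heavy2 k d f A Y) : ∃ m C' : ℝ, 0 < m ∧ ∀ N : ℕ, 0 < N → ∀ c : ℝ,
    -(3 / d : ℝ) < c → c ≤ -(3 / d : ℝ) / 2 → c ≤ -(3 / d : ℝ) + 1 / (2 * d * N) →
      N * m - C' ≤ (ZZ f k (c : ℂ)).re := by
  have hdR := H.toHeavy.dpos
  have hk := H.hk
  have hkR : (0 : ℝ) < k := by exact_mod_cast hk
  have hkd := H.hd
  set s0 : ℝ := -(3 / d : ℝ) with hs0
  have hs0n : s0 < 0 := by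
    have : 0 < 3 / (d : ℝ) := by positivity
    rw [hs0]
    linarith
  have hd3 : (3 : ℝ) ≤ d := by exact_mod_cast (by omega : 3 ≤ d)
  have hs01 : -1 ≤ s0 := by
    have : 3 / (d : ℝ) ≤ 1 := by
      rw [div_le_one hdR]
      exact hd3
    rw [hs0]
    linarith
  set β : ℝ := 2 * k * s0 with hβd
  have hβ : -2 < β := by
    have h1 := H.toHeavy.kd
    have h2 : 2 * (k : ℝ) * -(3 / d) = -(6 * k / d) := by
      field_simp
      ring
    rw [hβd, hs0]
    linarith
  have hβ0 : β ≤ 0 := mul_nonpos_of_nonneg_of_nonpos (by positivity) hs0n.le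
  obtain ⟨C, hC0, hC⟩ := lower (k := k) hk hβ hβ0 1
  obtain ⟨t0, ε, η, hε, hη, hsum, h4, hun⟩ := unif H
  obtain ⟨M, hM1, hM⟩ := A_bd H.toHeavy 2
  obtain ⟨q, hq0, hq2, hLI⟩ := H.I3
  rw [← hs0] at hLI
  have hM0 : 0 < M := by linarith
  set κ : ℝ := (2 : ℝ) ^ (2 * k * s0 + 2) - 1 with hκ
  have hκ0 : 0 < κ := by
    have : 1 < (2 : ℝ) ^ (2 * k * s0 + 2) := Real.one_lt_rpow (by norm_num) (by linarith)
    rw [hκ]
    linarith
  set V : ℝ := (volume : Measure EE).real (ball 0 1) with hV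
  have hV0 : 0 < V := by
    rw [hV, Measure.real, ENNReal.toReal_pos_iff]
    exact ⟨measure_ball_pos _ _ one_pos, measure_ball_lt_top⟩
  set m0 : ℝ := κ * η * M ^ (-2 : ℝ) with hm0
  have hm00 : 0 < m0 := by positivity
  set C' : ℝ := C * (M ^ (2 : ℝ) * ∫ t in closedBall (0 : EE) 2, ‖A t‖ ^ (2 * s0) * Y t ^ q) with hC'
  refine ⟨m0 * (ε ^ 4 * V) / 2, C', by positivity, fun N hN c hc hc2 hcN => ?_⟩
  have hc0 : c < 0 := by linarith
  have hc1 : |c| ≤ 1 := by
    rw [abs_of_neg hc0]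
    linarith
  have hNR : (0 : ℝ) < N := by exact_mod_cast hN
  -- the functions
  set P : EE → ℝ := fun t => rh0 t * (inn f k (c : ℂ) t).re with hP
  set Q : EE → ℝ := fun t => rh0 t * (‖A t‖ ^ (2 * c) * Y t ^ q) with hQ
  obtain ⟨σ, hσ1, hσ2⟩ := exists_between hc
  have hcU : (c : ℂ) ∈ UU σ := by
    refine ⟨by rw [Complex.ofReal_re]; exact hσ2, by rw [Complex.ofReal_re]; exact hc0, ?_⟩
    rw [Complex.norm_real, Real.norm_eq_abs, abs_of_neg hc0]
    linarith
  have iP0 := rinn_int H.toHeavy hσ1 (hσ2.trans hc0) hcU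
  have iP : Integrable P := by
    refine iP0.re.congr (Eventually.of_forall fun t => ?_)
    show (((rh0 t : ℝ) : ℂ) * inn f k (c : ℂ) t).re = P t
    rw [Complex.re_ofReal_mul]
  have mQ : Measurable Q :=
    rh0.continuous.measurable.mul ((H.cA.measurable.norm.pow_const _).mul (H.mY.pow_const _))
  have Y0 : ∀ t, A t ≠ 0 → 0 ≤ Y t := by
    intro t ht
    obtain ⟨r, -, hr⟩ := H.root t ht
    exact (norm_nonneg _).trans (hr ⟨0, hk⟩)
  have bQ : ∀ᵐ t, ‖Q t‖ ≤ (closedBall (0 : EE) 2).indicator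
      (fun t => M ^ (2 : ℝ) * (‖A t‖ ^ (2 * s0) * Y t ^ q)) t := by
    filter_upwards [H.ae] with t ht
    have hY := Y0 t ht
    have hA0 : 0 < ‖A t‖ := norm_pos_iff.2 ht
    by_cases ht2 : t ∈ closedBall (0 : EE) 2
    · rw [indicator_of_mem ht2, Real.norm_eq_abs, abs_of_nonneg (by
        rw [hQ]
        exact mul_nonneg rh0.nonneg (by positivity))]
      have e1 : ‖A t‖ ^ (2 * c) ≤ M ^ (2 : ℝ) * ‖A t‖ ^ (2 * s0) :=
        pw_cmp hA0 hM1 (hM t ht2) hc.le (by linarith)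
      calc Q t ≤ 1 * ((M ^ (2 : ℝ) * ‖A t‖ ^ (2 * s0)) * Y t ^ q) := by
            rw [hQ]
            refine mul_le_mul rh0.le_one ?_ (by positivity) zero_le_one
            exact mul_le_mul_of_nonneg_right e1 (by positivity)
        _ = _ := by ring
    · rw [indicator_of_notMem ht2]
      rw [mem_closedBall_zero_iff, not_le] at ht2
      have h4 : rh0 t = 0 := rh0.zero_of_le_dist (by rw [dist_zero_right]; exact ht2.le)
      rw [hQ]
      simp only
      rw [h4, zero_mul, norm_zero]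
  have iE : Integrable ((closedBall (0 : EE) 2).indicator
      (fun t => M ^ (2 : ℝ) * (‖A t‖ ^ (2 * s0) * Y t ^ q))) :=
    (integrable_indicator_iff measurableSet_closedBall).2 ((hLI 2).const_mul _)
  have iQ : Integrable Q := Integrable.mono' iE mQ.aestronglyMeasurable bQ
  have hQint : C * ∫ t, Q t ≤ C' := by
    rw [hC']
    refine mul_le_mul_of_nonneg_left ?_ hC0
    rw [← integral_const_mul, ← integral_indicator measurableSet_closedBall]
    refine integral_mono_ae iQ iE ?_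
    filter_upwards [bQ] with t ht
    exact (le_abs_self _).trans ht
  -- the positive function
  set F : EE → ℝ := fun t => P t + C * Q t with hF
  have iF : Integrable F := iP.add (iQ.const_mul C)
  have hFlow : ∀ t, A t ≠ 0 → ∀ r : Fin k → ℂ, (∀ x, ff f (x, t) = A t * ∏ i, (x - r i)) →
      (∀ i, ‖r i‖ ≤ Y t) →
      rh0 t * (‖A t‖ ^ (2 * c) * (κ * ∫ x in closedBall (0 : ℂ) 1, Dr r c x)) ≤ F t := by
    intro t ht r hr hrY
    have hA0 : 0 < ‖A t‖ := norm_pos_iff.2 ht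
    have e1 : (inn f k (c : ℂ) t).re = ‖A t‖ ^ (2 * c) * (Ic r (c : ℂ)).re := by
      rw [inn_eq hr]
      have : ((‖A t‖ : ℝ) : ℂ) ^ (2 * (c : ℂ)) = ((‖A t‖ ^ (2 * c) : ℝ) : ℂ) := by
        rw [Complex.ofReal_cpow (norm_nonneg _)]
        push_cast
        rfl
      rw [this, Complex.re_ofReal_mul]
    have hmono : 2 * (k : ℝ) * s0 ≤ 2 * k * c := mul_le_mul_of_nonneg_left hc.le (by positivity)
    have e2 := hC c hc0 hmono hc1 q hq0 hq2 r (Y t) hrY
    have e3 : κ ≤ (2 : ℝ) ^ (2 * k * c + 2) - 1 := by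
      have : (2 : ℝ) ^ (2 * k * s0 + 2) ≤ (2 : ℝ) ^ (2 * k * c + 2) :=
        Real.rpow_le_rpow_of_exponent_le (by norm_num) (by linarith)
      rw [hκ]
      linarith
    have e4 : 0 ≤ ∫ x in closedBall (0 : ℂ) 1, Dr r c x :=
      integral_nonneg fun x => Dr_nonneg hk r c x
    have e5 : κ * (∫ x in closedBall (0 : ℂ) 1, Dr r c x) - C * Y t ^ q ≤ (Ic r (c : ℂ)).re := by
      have := mul_le_mul_of_nonneg_right e3 e4
      linarith
    have e6 : 0 ≤ ‖A t‖ ^ (2 * c) := by positivity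
    have e7 := mul_le_mul_of_nonneg_left e5 e6
    have e8 : 0 ≤ rh0 t := rh0.nonneg
    have e9 := mul_le_mul_of_nonneg_left e7 e8
    rw [hF, hP, hQ]
    simp only
    rw [e1]
    nlinarith
  have hF0 : ∀ᵐ t, 0 ≤ F t := by
    filter_upwards [H.ae] with t ht
    obtain ⟨r, hr, hrY⟩ := H.root t ht
    refine le_trans ?_ (hFlow t ht r hr hrY)
    refine mul_nonneg rh0.nonneg (mul_nonneg (by positivity) (mul_nonneg hκ0.le ?_))
    exact integral_nonneg fun x => Dr_nonneg hk r c x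
  -- the sets
  set l : ℕ → ℝ := fun j => (1 / 2 : ℝ) ^ j with hl
  have hl0 : ∀ j, 0 < l j := fun j => by positivity
  have hl1 : ∀ j, l j ≤ 1 := fun j => pow_le_one₀ (by norm_num) (by norm_num)
  set O : ℕ → Set EE := fun j => ball ((l j : ℂ) • t0) (l j * ε) with hO
  have hOn : ∀ j, ∀ t ∈ O j, l j * (‖t0‖ - ε) < ‖t‖ ∧ ‖t‖ < l j * (‖t0‖ + ε) := by
    intro j t ht
    rw [hO, mem_ball, dist_eq_norm] at ht
    have h5 : ‖(l j : ℂ) • t0‖ = l j * ‖t0‖ := by
      rw [norm_smul, Complex.norm_real, Real.norm_eq_abs, abs_of_pos (hl0 j)]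
    have h6 := norm_sub_norm_le ((l j : ℂ) • t0) t
    have h7 := norm_sub_norm_le t ((l j : ℂ) • t0)
    rw [norm_sub_rev] at h6
    rw [h5] at h6 h7
    constructor
    · linarith
    · linarith
  have hdisj : Set.Pairwise (↑(Finset.range N) : Set ℕ) (Function.onFun Disjoint O) := by
    have hlt : ∀ i j, i < j → Disjoint (O i) (O j) := by
      intro i j hij
      rw [Set.disjoint_left]
      intro t hti htj
      have h5 := (hOn i t hti).1
      have h6 := (hOn j t htj).2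
      have h7 : l j ≤ l i * (1 / 2) := by
        rw [hl]
        simp only
        rw [← pow_succ]
        exact pow_le_pow_of_le_one (by norm_num) (by norm_num) hij
      have h8 : 0 ≤ ‖t0‖ + ε := by positivity
      have h9 := mul_le_mul_of_nonneg_right h7 h8
      have h10 : l i * (1 / 2) * (‖t0‖ + ε) ≤ l i * (‖t0‖ - ε) := by
        have : (1 / 2) * (‖t0‖ + ε) ≤ ‖t0‖ - ε := by linarith
        have := mul_le_mul_of_nonneg_left this (hl0 i).le
        linarith
      linarith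
    intro i _ j _ hij
    rcases lt_or_gt_of_ne hij with h | h
    · exact hlt i j h
    · exact (hlt j i h).symm
  have hm : ∀ j, MeasurableSet (O j) := fun j => measurableSet_ball
  have hFO : ∀ j, ∀ t ∈ O j, m0 * l j ^ (2 * c * d + 2) ≤ F t := by
    intro j t ht
    have hlj := hl0 j
    have hljC : (l j : ℂ) ≠ 0 := by exact_mod_cast hlj.ne'
    set u : EE := (l j : ℂ)⁻¹ • t with hu
    have htu : t = (l j : ℂ) • u := by
      rw [hu, smul_smul, mul_inv_cancel₀ hljC, one_smul]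
    have hub : u ∈ ball t0 ε := by
      rw [hO, mem_ball, dist_eq_norm] at ht
      rw [mem_ball, dist_eq_norm]
      rw [htu, ← smul_sub, norm_smul, Complex.norm_real, Real.norm_eq_abs, abs_of_pos hlj] at ht
      exact lt_of_mul_lt_mul_left ht hlj.le
    obtain ⟨hAu, hun2⟩ := hun u hub
    have hAt : A t ≠ 0 := by
      rw [htu, H.hA]
      exact mul_ne_zero (pow_ne_zero _ hljC) hAu
    obtain ⟨r, hr, hrY⟩ := H.root t hAt
    refine le_trans ?_ (hFlow t hAt r hr hrY)
    have ht1 : ‖t‖ ≤ 1 := by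
      have h5 := (hOn j t ht).2
      have h6 := mul_le_mul (hl1 j) hsum (by positivity) zero_le_one
      linarith
    have hrh : rh0 t = 1 := rh0.one_of_mem_closedBall (mem_closedBall_zero_iff.2 ht1)
    rw [hrh, one_mul]
    have h5 := hun2 c hc hc2 (fun i => (l j : ℂ)⁻¹ * r i) (root_scal H hlj htu hr)
    have hmono : 2 * (k : ℝ) * s0 ≤ 2 * k * c := mul_le_mul_of_nonneg_left hc.le (by positivity)
    have h6 := Dr_scal hk (fun i => (l j : ℂ)⁻¹ * r i) c hlj (hl1 j) hβ hc0 hmono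
    have h7 : (fun i => (l j : ℂ) * ((l j : ℂ)⁻¹ * r i)) = r := by
      funext i
      rw [← mul_assoc, mul_inv_cancel₀ hljC, one_mul]
    rw [h7] at h6
    have h8 : l j ^ (2 * k * c + 2) * η ≤ ∫ x in closedBall (0 : ℂ) 1, Dr r c x :=
      le_trans (mul_le_mul_of_nonneg_left h5 (by positivity)) h6
    have hu2 : u ∈ closedBall (0 : EE) 2 := by
      rw [mem_closedBall_zero_iff]
      rw [mem_ball, dist_eq_norm] at hub
      have := norm_sub_norm_le u t0
      linarith
    have h9 : ‖A t‖ = l j ^ (d - k) * ‖A u‖ := by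
      rw [htu, H.hA, norm_mul, norm_pow, Complex.norm_real, Real.norm_eq_abs, abs_of_pos hlj]
    have h10 : l j ^ (2 * c * (d - k)) * M ^ (-2 : ℝ) ≤ ‖A t‖ ^ (2 * c) := by
      rw [h9, Real.mul_rpow (by positivity) (norm_nonneg _)]
      have e1 : (l j ^ (d - k)) ^ (2 * c) = l j ^ (2 * c * (d - k)) := by
        rw [← Real.rpow_natCast, ← Real.rpow_mul hlj.le, Nat.cast_sub (by omega)]
        congr 1
        ring
      rw [e1]
      refine mul_le_mul_of_nonneg_left ?_ (by positivity)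
      calc M ^ (-2 : ℝ) ≤ M ^ (2 * c) := Real.rpow_le_rpow_of_exponent_le hM1 (by linarith)
        _ ≤ ‖A u‖ ^ (2 * c) :=
          Real.rpow_le_rpow_of_nonpos (norm_pos_iff.2 hAu) (hM u hu2) (by linarith)
    have h11 : l j ^ (2 * c * d + 2) = l j ^ (2 * c * (d - k)) * l j ^ (2 * k * c + 2) := by
      rw [← Real.rpow_add hlj]
      congr 1
      ring
    calc m0 * l j ^ (2 * c * d + 2) =
        (l j ^ (2 * c * (d - k)) * M ^ (-2 : ℝ)) * (κ * (l j ^ (2 * k * c + 2) * η)) := by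
          rw [hm0, h11]
          ring
      _ ≤ ‖A t‖ ^ (2 * c) * (κ * ∫ x in closedBall (0 : ℂ) 1, Dr r c x) := by
          refine mul_le_mul h10 (mul_le_mul_of_nonneg_left h8 hκ0.le) (by positivity)
            (by positivity)
  have hvol : ∀ j, (volume : Measure EE).real (O j) = (l j * ε) ^ 4 * V := by
    intro j
    rw [hO]
    simp only
    rw [Measure.real, Measure.addHaar_ball _ _ (by have := hl0 j; positivity), hV, Measure.real,
      ENNReal.toReal_mul, ENNReal.toReal_ofReal (by have := hl0 j; positivity)]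
    congr 2
    rw [Module.finrank_pi_fintype]
    simp [Complex.finrank_real_complex]
  have hsumF : ∑ j ∈ Finset.range N, ∫ t in O j, F t ≤ ∫ t, F t := by
    rw [← integral_biUnion_finset _ (fun j _ => hm j) hdisj fun j _ => iF.integrableOn]
    exact setIntegral_le_integral iF hF0
  have hterm : ∀ j ∈ Finset.range N, m0 * (ε ^ 4 * V) / 2 ≤ ∫ t in O j, F t := by
    intro j hj
    have hlj := hl0 j
    have hjN : j < N := Finset.mem_range.1 hj
    have h5 : ∫ _t in O j, m0 * l j ^ (2 * c * d + 2) ≤ ∫ t in O j, F t :=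
      setIntegral_mono_on (integrableOn_const measure_ball_lt_top.ne) iF.integrableOn (hm j)
        (hFO j)
    refine le_trans ?_ h5
    rw [setIntegral_const, smul_eq_mul, hvol]
    have h6 : (l j * ε) ^ 4 * V * (m0 * l j ^ (2 * c * d + 2)) =
        m0 * (ε ^ 4 * V) * l j ^ (2 * c * d + 6) := by
      have : l j ^ (2 * c * d + 6) = l j ^ (4 : ℕ) * l j ^ (2 * c * d + 2) := by
        rw [← Real.rpow_natCast, ← Real.rpow_add hlj]
        congr 1
        push_cast
        ring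
      rw [this]
      ring
    rw [h6]
    have h7 : 1 / 2 ≤ l j ^ (2 * c * d + 6) := by
      have e1 : 0 ≤ 2 * c * d + 6 := by
        have : -(3 / (d : ℝ)) * d = -3 := by field_simp
        have h8 : s0 * d ≤ c * d := mul_le_mul_of_nonneg_right hc.le hdR.le
        rw [hs0, this] at h8
        linarith
      have e2 : (2 * c * d + 6) * N ≤ 1 := by
        have h8 : c * d ≤ (-(3 / (d : ℝ)) + 1 / (2 * d * N)) * d :=
          mul_le_mul_of_nonneg_right hcN hdR.le
        have h9 : (-(3 / (d : ℝ)) + 1 / (2 * d * N)) * d = -3 + 1 / (2 * N) := by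
          field_simp
        rw [h9] at h8
        have h10 : 2 * c * d + 6 ≤ 1 / N := by
          have : (1 : ℝ) / (2 * N) * 2 = 1 / N := by field_simp
          linarith
        calc (2 * c * d + 6) * N ≤ 1 / N * N := mul_le_mul_of_nonneg_right h10 hNR.le
          _ = 1 := by field_simp
      have e3 : l j ^ (2 * c * d + 6) = (1 / 2 : ℝ) ^ (j * (2 * c * d + 6)) := by
        rw [hl]
        simp only
        rw [← Real.rpow_natCast, ← Real.rpow_mul (by norm_num)]
      rw [e3]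
      have e4 : (j : ℝ) * (2 * c * d + 6) ≤ 1 := by
        have : (j : ℝ) ≤ N := by exact_mod_cast hjN.le
        have := mul_le_mul_of_nonneg_right this e1
        linarith
      calc (1 / 2 : ℝ) = (1 / 2) ^ (1 : ℝ) := by rw [Real.rpow_one]
        _ ≤ (1 / 2 : ℝ) ^ (j * (2 * c * d + 6)) :=
          Real.rpow_le_rpow_of_exponent_ge (by norm_num) (by norm_num) e4
    have h8 : 0 ≤ m0 * (ε ^ 4 * V) := by positivity
    calc m0 * (ε ^ 4 * V) / 2 = m0 * (ε ^ 4 * V) * (1 / 2) := by ring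
      _ ≤ _ := mul_le_mul_of_nonneg_left h7 h8
  have hfin : N * (m0 * (ε ^ 4 * V) / 2) ≤ ∫ t, F t := by
    refine le_trans ?_ hsumF
    refine le_trans (le_of_eq ?_) (Finset.sum_le_sum hterm)
    rw [Finset.sum_const, Finset.card_range, nsmul_eq_mul]
  have hFint : ∫ t, F t = (∫ t, P t) + C * ∫ t, Q t := by
    rw [hF]
    rw [integral_add iP (iQ.const_mul C), integral_const_mul]
  have hZ : (ZZ f k (c : ℂ)).re = ∫ t, P t := by
    unfold ZZ
    have h5 := integral_re iP0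
    have h6 : ∀ t, RCLike.re (((rh0 t : ℝ) : ℂ) * inn f k (c : ℂ) t) = P t := by
      intro t
      show (((rh0 t : ℝ) : ℂ) * inn f k (c : ℂ) t).re = P t
      rw [Complex.re_ofReal_mul]
    simp only [h6] at h5
    exact h5.symm
  rw [hZ]
  linarith

/-- **The root `-3/d`.** -/
theorem root_heavy (H : Heavy2 k d f A Y) (hf : f ≠ 0) {b : Polynomial ℂ}
    (hb : IsBFunction f b) : b.eval (-3 / (d : ℂ)) = 0 := by
  have hdR := H.toHeavy.dpos
  have hkd := H.hd
  have hk := H.hk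
  set s0 : ℝ := -(3 / d : ℝ) with hs0
  have hs0C : (s0 : ℂ) = -3 / (d : ℂ) := by
    rw [hs0]
    push_cast
    ring
  rw [← hs0C]
  by_contra hb0
  obtain ⟨R, hR, hRe⟩ := ZZ_eq H.toHeavy hf hb
  obtain ⟨m, C', hm, hdiv⟩ := diverge H
  have hs0n : s0 < 0 := by
    have : 0 < 3 / (d : ℝ) := by positivity
    rw [hs0]
    linarith
  have hs01 : -1 < s0 := by
    have : 3 / (d : ℝ) < 1 := by
      rw [div_lt_one hdR]
      exact_mod_cast (by omega : 3 < d)
    rw [hs0]
    linarith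
  set B : ℝ → ℂ := fun c => b.eval (c : ℂ) * (b.map (starRingEnd ℂ)).eval (c : ℂ) with hB
  have hBc : Continuous B := by
    rw [hB]
    exact (b.continuous.comp Complex.continuous_ofReal).mul
      ((b.map (starRingEnd ℂ)).continuous.comp Complex.continuous_ofReal)
  have hB0 : B s0 ≠ 0 := by
    rw [hB]
    simp only
    refine mul_ne_zero hb0 ?_
    have h1 : (b.map (starRingEnd ℂ)).eval (s0 : ℂ) = starRingEnd ℂ (b.eval (s0 : ℂ)) := by
      rw [Polynomial.eval_map, Polynomial.eval, Polynomial.hom_eval₂]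
      simp
    rw [h1]
    exact (map_ne_zero _).2 hb0
  have hRc : ContinuousAt R s0 := (hR s0 hs01).continuousAt
  have hlim : Tendsto (fun c => R c / B c) (𝓝[>] s0) (𝓝 (R s0 / B s0)) :=
    (hRc.tendsto.div hBc.continuousAt.tendsto hB0).mono_left nhdsWithin_le_nhds
  have hbd := hlim.norm.eventually (gt_mem_nhds (lt_add_one ‖R s0 / B s0‖))
  set Γ : ℝ := ‖R s0 / B s0‖ + 1 with hΓ
  have hBev : ∀ᶠ c : ℝ in 𝓝[>] s0, B c ≠ 0 :=
    (hBc.continuousAt.eventually_ne hB0).filter_mono nhdsWithin_le_nhds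
  obtain ⟨N, hN⟩ := exists_nat_gt ((Γ + C') / m)
  have hN2 : Γ + C' < (N + 1 : ℕ) * m := by
    rw [div_lt_iff₀ hm] at hN
    push_cast
    linarith
  have h1 : ∀ᶠ c : ℝ in 𝓝[>] s0, c ≤ s0 / 2 :=
    nhdsWithin_le_nhds (Iic_mem_nhds (show s0 < s0 / 2 by linarith))
  have h2 : ∀ᶠ c : ℝ in 𝓝[>] s0, c ≤ s0 + 1 / (2 * d * (N + 1 : ℕ)) := by
    have h3 : s0 < s0 + 1 / (2 * d * ((N + 1 : ℕ) : ℝ)) := by
      have : 0 < 1 / (2 * (d : ℝ) * ((N + 1 : ℕ) : ℝ)) := by positivity
      linarith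
    exact nhdsWithin_le_nhds (Iic_mem_nhds h3)
  obtain ⟨c, hc1, hc2, hc3, hc4, hc5⟩ :=
    (hbd.and (hBev.and (h1.and (h2.and self_mem_nhdsWithin)))).exists
  have hcs : s0 < c := hc5
  have hc0 : c < 0 := by linarith
  have h3 := hRe c hcs hc0
  have h4 : ZZ f k (c : ℂ) = R c / B c := by
    rw [← h3, hB]
    simp only
    rw [mul_div_cancel_left₀ _ hc2]
  have h5 := hdiv (N + 1) (Nat.succ_pos _) c hcs hc3 hc4
  have h6 := Complex.abs_re_le_norm (ZZ f k (c : ℂ))
  have h7 := le_abs_self (ZZ f k (c : ℂ)).re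
  rw [← h4] at hc1
  linarith

end Pool.Agent.KS6_81.HP
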