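import Pool.Agent.KS6_81.HP.Poly2
import Pool.Graph.R_pool_sql_team_seeded_ab47071d.TH26.Cub.Weyl

set_option autoImplicit false

/-! # The root `-3/d` for ternary forms with a point of multiplicity greater than `2d/3` -/

namespace Pool.Agent.KS6_81.HP

open Pool.Agent.H628R4.TP (weylS IsBFunction)

/-- The form `f` of degree `d` has a point of multiplicity `d - k > 2d/3` with a mild tangent cone.

In suitable coordinates (after an automorphism `φ` of `ℂ[x₀, x₁, x₂]`, for instance a linear change of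
coordinates) `f = ∑_{j ≤ k} x₀^(k-j) A_j(x₁, x₂)` with forms `A_j` of degree `d - k + j` and `A_0 ≠ 0`,
`3 k < d`, so that the curve `f = 0` has the multiplicity `d - k` at `P = (1 : 0 : 0)`, and

* `A_0 = a ∏_i ℓ_i ^ e_i` with pairwise non proportional linear forms `ℓ_i` (the tangent cone), and if
  `A_j ≠ 0`, `1 ≤ j ≤ k`, is divisible by `∏_i ℓ_i ^ o_{j,i}`, then
  `3 j e_i + (d - 3 k) (e_i - o_{j,i}) < j d` for all `i`;
* some line through `P`, which is not in the tangent cone, meets the curve in at least two points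
  different from `P`.

There is no condition on the other singularities of the curve, or on multiple components. -/
def HeavyPoint (d : ℕ) (f : MvPolynomial (Fin 3) ℂ) : Prop :=
  ∃ (φ : MvPolynomial (Fin 3) ℂ ≃ₐ[ℂ] MvPolynomial (Fin 3) ℂ) (k N : ℕ)
    (A : ℕ → MvPolynomial (Fin 2) ℂ) (p : Fin N → Fin 2 → ℂ) (e : Fin N → ℕ)
    (o : ℕ → Fin N → ℕ) (a : ℂ), φ f = hform k A ∧ Data d k N A p e o a

lemma HeavyPoint.ne_zero {d : ℕ} {f : MvPolynomial (Fin 3) ℂ} (h : HeavyPoint d f) : f ≠ 0 := by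
  rintro rfl
  obtain ⟨φ, k, N, A, p, e, o, a, hφ, D⟩ := h
  rw [map_zero] at hφ
  obtain ⟨t, x, x', h0, -⟩ := D.dist
  obtain ⟨r, hr, -⟩ := D.heavy.root t h0
  obtain ⟨y, hy⟩ : ∃ y : ℂ, ∀ i, y ≠ r i := by
    have h3 : (Set.range r).Finite := Set.finite_range r
    obtain ⟨y, hy⟩ := h3.infinite_compl.nonempty
    exact ⟨y, fun i hi => hy ⟨i, hi.symm⟩⟩
  have h4 := hr y
  rw [← hφ] at h4
  have h5 : ff (0 : MvPolynomial (Fin 3) ℂ) (y, t) = 0 := by
    unfold ff
    rw [map_zero]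
  rw [h5] at h4
  rcases mul_eq_zero.1 h4.symm with h6 | h6
  · exact h0 h6
  · obtain ⟨i, -, hi⟩ := Finset.prod_eq_zero_iff.1 h6
    exact hy i (sub_eq_zero.1 hi)

lemma HeavyPoint.pos {d : ℕ} {f : MvPolynomial (Fin 3) ℂ} (h : HeavyPoint d f) : 0 < d := by
  obtain ⟨φ, k, N, A, p, e, o, a, hφ, D⟩ := h
  have := D.hd
  omega

/-- **The root `-3/d`.** -/
theorem heavy_root {d : ℕ} {f : MvPolynomial (Fin 3) ℂ} (h : HeavyPoint d f) {b : Polynomial ℂ}
    (hb : IsBFunction f b) : b.eval (-3 / (d : ℂ)) = 0 := by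
  have hf0 := h.ne_zero
  obtain ⟨φ, k, N, A, p, e, o, a, hφ, D⟩ := h
  have hb2 := Pool.Agent.TH26.Cub.isB_of_equiv φ f b hb
  rw [hφ] at hb2
  refine root_heavy D.heavy ?_ hb2
  rw [← hφ]
  intro h1
  exact hf0 (φ.injective (by rw [h1, map_zero]))

/-- For an ordinary point (`d - k` different tangents) the condition on the tangent cone holds. -/
theorem heavy_of_ordinary {d k : ℕ} (hd : 3 * k < d) (A : ℕ → MvPolynomial (Fin 2) ℂ)
    (p : Fin (d - k) → Fin 2 → ℂ) (a : ℂ) (ha : a ≠ 0)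
    (hp : ∀ i j, i ≠ j → p i 0 * p j 1 - p i 1 * p j 0 ≠ 0)
    (A0 : A 0 = MvPolynomial.C a * ∏ i, lform (p i))
    (hom : ∀ j, j ≤ k → (A j).IsHomogeneous (d - k + j))
    (dist : ∃ (t : Fin 2 → ℂ) (x x' : ℂ), MvPolynomial.eval t (A 0) ≠ 0 ∧ x ≠ x' ∧
      ff (hform k A) (x, t) = 0 ∧ ff (hform k A) (x', t) = 0) :
    HeavyPoint d (hform k A) := by
  obtain ⟨t, x, x', h0, hxx, h1, h2⟩ := dist
  have hp0 : ∀ i, p i ≠ 0 := by
    intro i hi
    rw [A0, map_mul, map_prod] at h0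
    apply h0
    rw [Finset.prod_eq_zero (Finset.mem_univ i), mul_zero]
    rw [eval_lform, hi]
    unfold lf
    simp
  have hk2 : 2 ≤ k := by
    by_contra hk
    have hk' : k = 0 ∨ k = 1 := by omega
    rcases hk' with hk' | hk'
    · subst hk'
      rw [ff_hform] at h1
      simp at h1
      exact h0 h1
    · subst hk'
      rw [ff_hform] at h1 h2
      simp only [Finset.sum_range_succ, Finset.sum_range_zero, zero_add, Nat.sub_zero, pow_one,
        Nat.sub_self, pow_zero, one_mul] at h1 h2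
      have h3 : (x - x') * MvPolynomial.eval t (A 0) = 0 := by linear_combination h1 - h2
      rcases mul_eq_zero.1 h3 with h4 | h4
      · exact hxx (sub_eq_zero.1 h4)
      · exact h0 h4
  refine ⟨AlgEquiv.refl, k, d - k, A, p, fun _ => 1, fun _ _ => 0, a, rfl, ?_⟩
  refine ⟨hd, hp, hp0, ha, ?_, hom, ?_, ?_, ⟨t, x, x', h0, hxx, h1, h2⟩⟩
  · rw [A0]
    simp
  · intro j _ _
    simp
  · intro j hj1 hjk _ i
    push_cast
    have h3 : (3 * (k : ℤ)) < d := by exact_mod_cast hd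
    have h4 : (1 : ℤ) ≤ j := by exact_mod_cast hj1
    have h5 : (j : ℤ) ≤ k := by exact_mod_cast hjk
    have h6 : (2 : ℤ) ≤ k := by exact_mod_cast hk2
    rcases eq_or_lt_of_le h4 with h7 | h7
    · rw [← h7]
      linarith
    · nlinarith

end Pool.Agent.KS6_81.HP
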