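import Pool.Agent.KS6_81.HP.One4
import Pool.Agent.KS6_81.HP.Crit

set_option autoImplicit false

/-! # Integrability of products of powers of linear forms in two variables -/

namespace Pool.Agent.KS6_81.HP

open Set Filter Topology Metric MeasureTheory

/-- the plane -/
abbrev EE := Fin 2 → ℂ

/-- integrable on all balls -/
def LI (F : EE → ℝ) : Prop := ∀ R : ℝ, IntegrableOn F (closedBall 0 R)

lemma LI.mono {F G : EE → ℝ} (hG : LI G) (hF : Measurable F) (R : ℝ)
    (h : ∀ᵐ t, t ∈ closedBall (0 : EE) R → |F t| ≤ G t) : IntegrableOn F (closedBall 0 R) := by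
  refine Integrable.mono' (hG R) hF.aestronglyMeasurable ?_
  rw [ae_restrict_iff' measurableSet_closedBall]
  filter_upwards [h] with t ht hm
  exact ht hm

/-- the coordinates are nonzero almost everywhere -/
lemma ae_coord (i : Fin 2) : ∀ᵐ t : EE, t i ≠ 0 := by
  have h1 : (volume : Measure EE) {t | t i = 0} = 0 := by
    have := Measure.addHaar_submodule (volume : Measure EE)
      ((LinearMap.proj i : EE →ₗ[ℝ] ℂ).ker) (by
        intro h
        have h2 : (Pi.single i (1 : ℂ) : EE) ∈ (LinearMap.proj i : EE →ₗ[ℝ] ℂ).ker := by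
          rw [h]
          exact Submodule.mem_top
        rw [LinearMap.mem_ker] at h2
        simp at h2)
    exact this
  exact compl_mem_ae_iff.2 h1

/-- products of powers of the coordinates -/
lemma LI_coord {a b : ℝ} (ha : -2 < a) (hb : -2 < b) :
    LI fun t => ‖t 0‖ ^ a * ‖t 1‖ ^ b := by
  intro R
  have h1 : IntegrableOn (fun x : ℂ => ‖x‖ ^ a) (closedBall 0 R) := by
    have := int_ball ha 0 R
    simpa using this
  have h2 : IntegrableOn (fun x : ℂ => ‖x‖ ^ b) (closedBall 0 R) := by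
    have := int_ball hb 0 R
    simpa using this
  have h3 : IntegrableOn (fun z : ℂ × ℂ => ‖z.1‖ ^ a * ‖z.2‖ ^ b)
      (closedBall 0 R ×ˢ closedBall 0 R) := by
    unfold IntegrableOn
    rw [Measure.volume_eq_prod, ← Measure.prod_restrict]
    exact Integrable.mul_prod h1 h2
  have h4 : MeasurePreserving (MeasurableEquiv.finTwoArrow (α := ℂ)) volume volume :=
    volume_preserving_finTwoArrow ℂ
  have h5 := (h4.integrableOn_comp_preimage (MeasurableEquiv.finTwoArrow).measurableEmbedding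
    (f := fun z : ℂ × ℂ => ‖z.1‖ ^ a * ‖z.2‖ ^ b) (s := closedBall 0 R ×ˢ closedBall 0 R)).2 h3
  refine IntegrableOn.mono_set h5 ?_
  intro t ht
  rw [mem_closedBall_zero_iff] at ht
  rw [mem_preimage]
  refine ⟨?_, ?_⟩
  · rw [mem_closedBall_zero_iff]
    exact (norm_le_pi_norm t 0).trans ht
  · rw [mem_closedBall_zero_iff]
    exact (norm_le_pi_norm t 1).trans ht

/-- a power of a coordinate and a power of the norm -/
lemma LI_one {s g : ℝ} (hs : -2 < s) (hsg : -4 < s + g) : LI fun t => ‖t 0‖ ^ s * ‖t‖ ^ g := by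
  have hme : Measurable fun t : EE => ‖t 0‖ ^ s * ‖t‖ ^ g :=
    ((measurable_pi_apply 0).norm.pow_const _).mul (measurable_norm.pow_const _)
  intro R
  rcases le_or_gt 0 g with hg | hg
  · have h1 : LI fun t => |R| ^ g * (‖t 0‖ ^ s * ‖t 1‖ ^ (0 : ℝ)) := fun R' =>
      (LI_coord hs (by norm_num) R').const_mul _
    refine h1.mono hme R (Eventually.of_forall fun t ht => ?_)
    rw [mem_closedBall_zero_iff] at ht
    rw [abs_of_nonneg (by positivity), Real.rpow_zero, mul_one, mul_comm]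
    refine mul_le_mul_of_nonneg_right ?_ (by positivity)
    exact Real.rpow_le_rpow (norm_nonneg _) (ht.trans (le_abs_self R)) hg
  · -- choose the weights
    obtain ⟨u, hu1, hu2, hu3, hu4⟩ : ∃ u : ℝ, u ≤ 0 ∧ g ≤ u ∧ -2 < s + u ∧ -2 < g - u := by
      refine ⟨(max g (-2 - s) + min 0 (g + 2)) / 2, ?_, ?_, ?_, ?_⟩
      · have h1 : max g (-2 - s) ≤ 0 := max_le hg.le (by linarith)
        have h2 : min 0 (g + 2) ≤ 0 := min_le_left _ _
        linarith
      · have h1 : g ≤ max g (-2 - s) := le_max_left _ _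
        have h2 : g ≤ min 0 (g + 2) := le_min hg.le (by linarith)
        linarith
      · have h1 : -2 - s ≤ max g (-2 - s) := le_max_right _ _
        have h2 : -2 - s < min 0 (g + 2) := lt_min (by linarith) (by linarith)
        linarith
      · have h1 : min 0 (g + 2) ≤ g + 2 := min_le_right _ _
        have h2 : max g (-2 - s) < g + 2 := max_lt (by linarith) (by linarith)
        linarith
    have h1 : LI fun t => ‖t 0‖ ^ (s + u) * ‖t 1‖ ^ (g - u) := LI_coord hu3 hu4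
    refine h1.mono hme R ?_
    filter_upwards [ae_coord 0, ae_coord 1] with t h0 h1 _
    have p0 : 0 < ‖t 0‖ := norm_pos_iff.2 h0
    have p1 : 0 < ‖t 1‖ := norm_pos_iff.2 h1
    have pt : 0 < ‖t‖ := p0.trans_le (norm_le_pi_norm t 0)
    rw [abs_of_nonneg (by positivity)]
    have e1 : ‖t‖ ^ g = ‖t‖ ^ u * ‖t‖ ^ (g - u) := by
      rw [← Real.rpow_add pt]
      congr 1
      ring
    have e2 : ‖t‖ ^ u ≤ ‖t 0‖ ^ u :=
      Real.rpow_le_rpow_of_nonpos p0 (norm_le_pi_norm t 0) hu1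
    have e3 : ‖t‖ ^ (g - u) ≤ ‖t 1‖ ^ (g - u) :=
      Real.rpow_le_rpow_of_nonpos p1 (norm_le_pi_norm t 1) (by linarith)
    rw [e1, Real.rpow_add p0, mul_assoc]
    refine mul_le_mul_of_nonneg_left ?_ (by positivity)
    exact mul_le_mul e2 e3 (by positivity) (by positivity)

/-- the linear form -/
noncomputable def lf (p : EE) (t : EE) : ℂ := p 0 * t 0 + p 1 * t 1

lemma lf_cont (p : EE) : Continuous (lf p) := by
  unfold lf
  fun_prop

lemma lf_le (p t : EE) : ‖lf p t‖ ≤ (‖p 0‖ + ‖p 1‖) * ‖t‖ := by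
  unfold lf
  refine (norm_add_le _ _).trans ?_
  rw [norm_mul, norm_mul, add_mul]
  exact add_le_add (mul_le_mul_of_nonneg_left (norm_le_pi_norm t 0) (norm_nonneg _))
    (mul_le_mul_of_nonneg_left (norm_le_pi_norm t 1) (norm_nonneg _))

lemma lf_pair {p q : EE} (h : p 0 * q 1 - p 1 * q 0 ≠ 0) : ∃ C : ℝ, 0 < C ∧ ∀ t,
    ‖t‖ ≤ C * (‖lf p t‖ + ‖lf q t‖) := by
  set Δ := p 0 * q 1 - p 1 * q 0 with hΔ
  have hΔ0 : 0 < ‖Δ‖ := norm_pos_iff.2 h
  set S : ℝ := ‖p 0‖ + ‖p 1‖ + ‖q 0‖ + ‖q 1‖ with hS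
  have hS0 : 0 ≤ S := by positivity
  refine ⟨S / ‖Δ‖ + 1, by positivity, fun t => ?_⟩
  have e0 : Δ * t 0 = q 1 * lf p t - p 1 * lf q t := by
    unfold lf
    rw [hΔ]
    ring
  have e1 : Δ * t 1 = p 0 * lf q t - q 0 * lf p t := by
    unfold lf
    rw [hΔ]
    ring
  have n1 := norm_nonneg (lf p t)
  have n2 := norm_nonneg (lf q t)
  have a1 := norm_nonneg (p 0)
  have a2 := norm_nonneg (p 1)
  have a3 := norm_nonneg (q 0)
  have a4 := norm_nonneg (q 1)
  have key : ∀ i : Fin 2, ‖t i‖ ≤ (S / ‖Δ‖ + 1) * (‖lf p t‖ + ‖lf q t‖) := by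
    have g0 : ‖Δ‖ * ‖t 0‖ ≤ S * (‖lf p t‖ + ‖lf q t‖) := by
      rw [← norm_mul, e0]
      refine (norm_sub_le _ _).trans ?_
      rw [norm_mul, norm_mul, hS]
      nlinarith [mul_nonneg a1 n1, mul_nonneg a1 n2, mul_nonneg a2 n1, mul_nonneg a3 n1,
        mul_nonneg a3 n2, mul_nonneg a4 n2]
    have g1 : ‖Δ‖ * ‖t 1‖ ≤ S * (‖lf p t‖ + ‖lf q t‖) := by
      rw [← norm_mul, e1]
      refine (norm_sub_le _ _).trans ?_
      rw [norm_mul, norm_mul, hS]
      nlinarith [mul_nonneg a1 n1, mul_nonneg a2 n2, mul_nonneg a2 n1, mul_nonneg a3 n2,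
        mul_nonneg a4 n2, mul_nonneg a4 n1]
    have gen : ∀ y : ℝ, ‖Δ‖ * y ≤ S * (‖lf p t‖ + ‖lf q t‖) →
        y ≤ (S / ‖Δ‖ + 1) * (‖lf p t‖ + ‖lf q t‖) := by
      intro y hy
      have h1 : y ≤ S * (‖lf p t‖ + ‖lf q t‖) / ‖Δ‖ := by
        rw [le_div_iff₀ hΔ0]
        linarith
      have h2 : S * (‖lf p t‖ + ‖lf q t‖) / ‖Δ‖ = S / ‖Δ‖ * (‖lf p t‖ + ‖lf q t‖) := by ring
      rw [h2] at h1
      nlinarith
    intro i
    fin_cases i
    · exact gen _ g0
    · exact gen _ g1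
  exact (pi_norm_le_iff_of_nonneg (by positivity)).2 key

/-- change of coordinates -/
lemma LI_comp (T : EE ≃L[ℝ] EE) {F : EE → ℝ} (hF : LI F) : LI fun t => F (T t) := by
  intro R
  have h1 : ((volume : Measure EE).map T).IsAddHaarMeasure := T.isAddHaarMeasure_map _
  have h2 := Measure.isAddLeftInvariant_eq_smul ((volume : Measure EE).map T) volume
  have hK : IsCompact (T '' closedBall (0 : EE) R) := (isCompact_closedBall 0 R).image T.continuous
  obtain ⟨R', hR'⟩ := hK.isBounded.subset_closedBall 0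
  have h3 : IntegrableOn F (closedBall 0 R') ((volume : Measure EE).map T) := by
    rw [h2]
    unfold IntegrableOn
    rw [Measure.restrict_smul]
    exact (hF R').smul_measure_nnreal
  have h4 := (T.toHomeomorph.measurableEmbedding.integrableOn_map_iff).1 h3
  exact h4.mono_set fun x hx => hR' ⟨x, hx, rfl⟩

/-- two linear forms as coordinates -/
lemma exists_coord {p q : EE} (h : p 0 * q 1 - p 1 * q 0 ≠ 0) :
    ∃ T : EE ≃L[ℝ] EE, ∀ t, T t 0 = lf p t ∧ T t 1 = lf q t := by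
  let L : EE →ₗ[ℝ] EE :=
    { toFun := fun t => ![lf p t, lf q t]
      map_add' := by
        intro x y
        ext i
        fin_cases i
        · simp [lf]
          ring
        · simp [lf]
          ring
      map_smul' := by
        intro c x
        ext i
        fin_cases i
        · simp [lf]
          ring
        · simp [lf]
          ring }
  have hinj : Function.Injective L := by
    rw [injective_iff_map_eq_zero]
    intro t ht
    obtain ⟨C, hC, hC2⟩ := lf_pair h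
    have h0 : lf p t = 0 := congrFun ht 0
    have h1 : lf q t = 0 := congrFun ht 1
    have h2 := hC2 t
    rw [h0, h1, norm_zero, add_zero, mul_zero] at h2
    exact norm_le_zero_iff.1 h2
  refine ⟨(LinearEquiv.ofInjectiveEndo L hinj).toContinuousLinearEquiv, fun t => ⟨rfl, rfl⟩⟩

/-- a power of a linear form and a power of the norm -/
lemma LI_lf {p : EE} (hp : p ≠ 0) {s g : ℝ} (hs : -2 < s) (hsg : -4 < s + g) :
    LI fun t => ‖lf p t‖ ^ s * ‖t‖ ^ g := by
  obtain ⟨q, hq⟩ : ∃ q : EE, p 0 * q 1 - p 1 * q 0 ≠ 0 := by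
    by_cases h0 : p 0 = 0
    · refine ⟨![1, 0], ?_⟩
      intro h
      apply hp
      ext i
      fin_cases i
      · exact h0
      · simpa [h0] using h
    · refine ⟨![0, 1], ?_⟩
      simpa using h0
  obtain ⟨T, hT⟩ := exists_coord hq
  obtain ⟨C, hC, hC2⟩ := lf_pair hq
  have hT1 : ∀ t, ‖lf p t‖ ≤ ‖T t‖ := fun t => by
    rw [← (hT t).1]
    exact norm_le_pi_norm (T t) 0
  have hT2 : ∀ t, ‖lf q t‖ ≤ ‖T t‖ := fun t => by
    rw [← (hT t).2]
    exact norm_le_pi_norm (T t) 1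
  have hle : ∀ t, ‖t‖ ≤ 2 * C * ‖T t‖ := fun t => by
    have h1 := hC2 t
    have h2 := hT1 t
    have h3 := hT2 t
    nlinarith
  set D : ℝ := ‖p 0‖ + ‖p 1‖ + (‖q 0‖ + ‖q 1‖) with hD
  have hD0 : 0 ≤ D := by positivity
  have hge : ∀ t, ‖T t‖ ≤ D * ‖t‖ := fun t => by
    refine (pi_norm_le_iff_of_nonneg (by positivity)).2 fun i => ?_
    have g1 := lf_le p t
    have g2 := lf_le q t
    have n := norm_nonneg t
    have a1 := norm_nonneg (p 0)
    have a2 := norm_nonneg (p 1)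
    have a3 := norm_nonneg (q 0)
    have a4 := norm_nonneg (q 1)
    fin_cases i
    · show ‖T t 0‖ ≤ _
      rw [(hT t).1, hD]
      nlinarith [mul_nonneg a3 n, mul_nonneg a4 n]
    · show ‖T t 1‖ ≤ _
      rw [(hT t).2, hD]
      nlinarith [mul_nonneg a1 n, mul_nonneg a2 n]
  obtain ⟨E, hE0, hE⟩ : ∃ E : ℝ, 0 ≤ E ∧ ∀ t : EE, t ≠ 0 → ‖t‖ ^ g ≤ E * ‖T t‖ ^ g := by
    rcases le_or_gt 0 g with hg | hg
    · refine ⟨(2 * C) ^ g, by positivity, fun t _ => ?_⟩
      rw [← Real.mul_rpow (by positivity) (norm_nonneg _)]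
      exact Real.rpow_le_rpow (norm_nonneg _) (hle t) hg
    · refine ⟨D ^ (-g), by positivity, fun t ht => ?_⟩
      have ht0 : 0 < ‖t‖ := norm_pos_iff.2 ht
      have hTt : 0 < ‖T t‖ := by
        rw [norm_pos_iff]
        intro h0
        exact ht (T.map_eq_zero_iff.1 h0)
      have hD1 : 0 < D := by
        by_contra h0
        have : D = 0 := le_antisymm (not_lt.1 h0) hD0
        have h1 := hge t
        rw [this, zero_mul] at h1
        linarith
      have h1 : (D * ‖t‖) ^ g ≤ ‖T t‖ ^ g := Real.rpow_le_rpow_of_nonpos hTt (hge t) hg.le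
      rw [Real.mul_rpow hD0 ht0.le] at h1
      calc ‖t‖ ^ g = D ^ (-g) * (D ^ g * ‖t‖ ^ g) := by
            rw [← mul_assoc, ← Real.rpow_add hD1]
            simp
        _ ≤ D ^ (-g) * ‖T t‖ ^ g := mul_le_mul_of_nonneg_left h1 (by positivity)
  intro R
  have h1 : LI fun t => E * (‖T t 0‖ ^ s * ‖T t‖ ^ g) := fun R' =>
    (LI_comp T (LI_one hs hsg) R').const_mul _
  refine h1.mono (((lf_cont p).measurable.norm.pow_const _).mul (measurable_norm.pow_const _)) R ?_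
  filter_upwards [ae_coord 0] with t ht _
  have ht0 : t ≠ 0 := fun h => ht (by rw [h]; rfl)
  have hn : 0 ≤ ‖lf p t‖ ^ s * ‖t‖ ^ g := by positivity
  show |‖lf p t‖ ^ s * ‖t‖ ^ g| ≤ E * (‖T t 0‖ ^ s * ‖T t‖ ^ g)
  rw [abs_of_nonneg hn, (hT t).1]
  calc ‖lf p t‖ ^ s * ‖t‖ ^ g ≤ ‖lf p t‖ ^ s * (E * ‖T t‖ ^ g) :=
        mul_le_mul_of_nonneg_left (hE t ht0) (by positivity)
    _ = _ := by ring

/-- **Integrability of products of powers of linear forms.** -/
theorem LI_prod {N : ℕ} (hN : 0 < N) (p : Fin N → EE)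
    (hp : ∀ i j, i ≠ j → p i 0 * p j 1 - p i 1 * p j 0 ≠ 0) (hp0 : ∀ i, p i ≠ 0)
    (s : Fin N → ℝ) (g : ℝ) (hs : ∀ i, -2 < s i) (hsg : -4 < (∑ i, s i) + g) :
    LI fun t => (∏ i, ‖lf (p i) t‖ ^ s i) * ‖t‖ ^ g := by
  classical
  have : Nonempty (Fin N) := ⟨⟨0, hN⟩⟩
  -- a uniform constant
  obtain ⟨C, hC1, hC⟩ : ∃ C : ℝ, 1 ≤ C ∧ ∀ i j, i ≠ j → ∀ t,
      ‖t‖ ≤ C * (‖lf (p i) t‖ + ‖lf (p j) t‖) := by
    choose! Cf hCf1 hCf2 using fun (i j : Fin N) (h : i ≠ j) => lf_pair (hp i j h)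
    refine ⟨1 + ∑ i, ∑ j, |Cf i j|, by
      have : 0 ≤ ∑ i, ∑ j, |Cf i j| :=
        Finset.sum_nonneg fun i _ => Finset.sum_nonneg fun j _ => abs_nonneg _
      linarith, fun i j hij t => (hCf2 i j hij t).trans ?_⟩
    refine mul_le_mul_of_nonneg_right ?_ (by positivity)
    have h1 : |Cf i j| ≤ ∑ j, |Cf i j| :=
      Finset.single_le_sum (f := fun j => |Cf i j|) (fun _ _ => abs_nonneg _) (Finset.mem_univ j)
    have h2 : ∑ j, |Cf i j| ≤ ∑ i, ∑ j, |Cf i j| :=
      Finset.single_le_sum (f := fun i => ∑ j, |Cf i j|)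
        (fun _ _ => Finset.sum_nonneg fun _ _ => abs_nonneg _) (Finset.mem_univ i)
    have h3 := le_abs_self (Cf i j)
    linarith
  obtain ⟨D, hD1, hD⟩ : ∃ D : ℝ, 1 ≤ D ∧ ∀ i t, ‖lf (p i) t‖ ≤ D * ‖t‖ := by
    refine ⟨1 + ∑ i, (‖p i 0‖ + ‖p i 1‖), by
      have : 0 ≤ ∑ i, (‖p i 0‖ + ‖p i 1‖) := Finset.sum_nonneg fun i _ => by positivity
      linarith, fun i t => (lf_le (p i) t).trans ?_⟩
    refine mul_le_mul_of_nonneg_right ?_ (norm_nonneg _)
    have h1 : ‖p i 0‖ + ‖p i 1‖ ≤ ∑ i, (‖p i 0‖ + ‖p i 1‖) :=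
      Finset.single_le_sum (f := fun i => ‖p i 0‖ + ‖p i 1‖)
        (fun _ _ => by positivity) (Finset.mem_univ i)
    linarith
  -- the comparison
  set E : ℝ := ∏ i, ((2 * C) ^ |s i| * D ^ |s i|) with hE
  have hE0 : 0 ≤ E := Finset.prod_nonneg fun i _ => by positivity
  have hfac : ∀ i, 1 ≤ (2 * C) ^ |s i| * D ^ |s i| := fun i => by
    have h1 : 1 ≤ (2 * C) ^ |s i| := Real.one_le_rpow (by linarith) (abs_nonneg _)
    have h2 : 1 ≤ D ^ |s i| := Real.one_le_rpow hD1 (abs_nonneg _)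
    nlinarith
  have key : ∀ t : EE, t ≠ 0 → ∃ i0, (∏ i, ‖lf (p i) t‖ ^ s i) * ‖t‖ ^ g ≤
      E * (‖lf (p i0) t‖ ^ s i0 * ‖t‖ ^ ((∑ i, s i) - s i0 + g)) := by
    intro t ht
    have ht0 : 0 < ‖t‖ := norm_pos_iff.2 ht
    obtain ⟨i0, -, hi0⟩ := Finset.exists_min_image Finset.univ (fun i => ‖lf (p i) t‖)
      Finset.univ_nonempty
    refine ⟨i0, ?_⟩
    have h1 : ∀ i ∈ Finset.univ.erase i0, ‖lf (p i) t‖ ^ s i ≤
        ((2 * C) ^ |s i| * D ^ |s i|) * ‖t‖ ^ s i := by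
      intro i hi
      have hne : i ≠ i0 := Finset.ne_of_mem_erase hi
      have h2 := hC i i0 hne t
      have h3 := hi0 i (Finset.mem_univ i)
      have h4 : ‖t‖ ≤ 2 * C * ‖lf (p i) t‖ := by nlinarith
      have hl : 0 < ‖lf (p i) t‖ := by
        by_contra h0
        have : ‖lf (p i) t‖ = 0 := le_antisymm (not_lt.1 h0) (norm_nonneg _)
        rw [this, mul_zero] at h4
        linarith
      have g1 : 1 ≤ (2 * C) ^ |s i| := Real.one_le_rpow (by linarith) (abs_nonneg _)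
      have g2 : 1 ≤ D ^ |s i| := Real.one_le_rpow hD1 (abs_nonneg _)
      rcases le_or_gt 0 (s i) with h5 | h5
      · rw [abs_of_nonneg h5] at g1 g2 ⊢
        have h6 : ‖lf (p i) t‖ ^ s i ≤ D ^ s i * ‖t‖ ^ s i := by
          rw [← Real.mul_rpow (by linarith) ht0.le]
          exact Real.rpow_le_rpow (norm_nonneg _) (hD i t) h5
        have h7 : 0 ≤ D ^ s i * ‖t‖ ^ s i := by positivity
        calc ‖lf (p i) t‖ ^ s i ≤ 1 * (D ^ s i * ‖t‖ ^ s i) := by rw [one_mul]; exact h6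
          _ ≤ (2 * C) ^ s i * (D ^ s i * ‖t‖ ^ s i) := mul_le_mul_of_nonneg_right g1 h7
          _ = _ := by ring
      · rw [abs_of_neg h5] at g1 g2 ⊢
        have h6 : (2 * C * ‖lf (p i) t‖) ^ s i ≤ ‖t‖ ^ s i :=
          Real.rpow_le_rpow_of_nonpos ht0 h4 h5.le
        rw [Real.mul_rpow (by positivity) hl.le] at h6
        have h7 : ‖lf (p i) t‖ ^ s i ≤ (2 * C) ^ (-s i) * ‖t‖ ^ s i := by
          calc ‖lf (p i) t‖ ^ s i = (2 * C) ^ (-s i) * ((2 * C) ^ s i * ‖lf (p i) t‖ ^ s i) := by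
                rw [← mul_assoc, ← Real.rpow_add (by positivity)]
                simp
            _ ≤ _ := mul_le_mul_of_nonneg_left h6 (by positivity)
        have h8 : 0 ≤ (2 * C) ^ (-s i) * ‖t‖ ^ s i := by positivity
        calc ‖lf (p i) t‖ ^ s i ≤ 1 * ((2 * C) ^ (-s i) * ‖t‖ ^ s i) := by rw [one_mul]; exact h7
          _ ≤ D ^ (-s i) * ((2 * C) ^ (-s i) * ‖t‖ ^ s i) := mul_le_mul_of_nonneg_right g2 h8
          _ = _ := by ring
    have h2 : ∏ i ∈ Finset.univ.erase i0, ‖lf (p i) t‖ ^ s i ≤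
        (∏ i ∈ Finset.univ.erase i0, ((2 * C) ^ |s i| * D ^ |s i|)) *
          ‖t‖ ^ ((∑ i, s i) - s i0) := by
      refine (Finset.prod_le_prod (fun i _ => by positivity) h1).trans ?_
      rw [Finset.prod_mul_distrib]
      refine le_of_eq ?_
      congr 1
      rw [← Real.rpow_sum_of_pos ht0]
      congr 1
      rw [← Finset.sum_erase_add _ _ (Finset.mem_univ i0)]
      ring
    have h3 : ∏ i ∈ Finset.univ.erase i0, ((2 * C) ^ |s i| * D ^ |s i|) ≤ E := by
      rw [hE, ← Finset.mul_prod_erase _ _ (Finset.mem_univ i0)]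
      have : 0 ≤ ∏ i ∈ Finset.univ.erase i0, ((2 * C) ^ |s i| * D ^ |s i|) :=
        Finset.prod_nonneg fun i _ => by positivity
      have h4 := hfac i0
      nlinarith
    rw [← Finset.mul_prod_erase _ _ (Finset.mem_univ i0)]
    have e1 : ‖t‖ ^ ((∑ i, s i) - s i0 + g) = ‖t‖ ^ ((∑ i, s i) - s i0) * ‖t‖ ^ g :=
      Real.rpow_add ht0 _ _
    calc ‖lf (p i0) t‖ ^ s i0 * (∏ i ∈ Finset.univ.erase i0, ‖lf (p i) t‖ ^ s i) * ‖t‖ ^ g ≤
        ‖lf (p i0) t‖ ^ s i0 * (E * ‖t‖ ^ ((∑ i, s i) - s i0)) * ‖t‖ ^ g := by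
          refine mul_le_mul_of_nonneg_right ?_ (by positivity)
          refine mul_le_mul_of_nonneg_left ?_ (by positivity)
          refine h2.trans ?_
          exact mul_le_mul_of_nonneg_right h3 (by positivity)
      _ = _ := by rw [e1]; ring
  intro R
  have hsum : LI fun t => ∑ i, E * (‖lf (p i) t‖ ^ s i * ‖t‖ ^ ((∑ i, s i) - s i + g)) := by
    intro R'
    refine integrable_finsetSum _ fun i _ => ?_
    exact (LI_lf (hp0 i) (hs i) (by linarith) R').const_mul _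
  refine hsum.mono ?_ R ?_
  · refine Measurable.mul ?_ (measurable_norm.pow_const _)
    exact Finset.measurable_prod _ fun i _ => (lf_cont (p i)).measurable.norm.pow_const _
  · filter_upwards [ae_coord 0] with t ht _
    have ht0 : t ≠ 0 := fun h => ht (by rw [h]; rfl)
    rw [abs_of_nonneg (mul_nonneg (Finset.prod_nonneg fun i _ => by positivity) (by positivity))]
    obtain ⟨i0, hi0⟩ := key t ht0
    refine hi0.trans ?_
    exact Finset.single_le_sum
      (f := fun i => E * (‖lf (p i) t‖ ^ s i * ‖t‖ ^ ((∑ i, s i) - s i + g)))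
      (fun i _ => by positivity) (Finset.mem_univ i0)

end Pool.Agent.KS6_81.HP
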